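import Pool.Agent.MP_61ef33_al.Mis.St

set_option autoImplicit false

namespace Pool.Agent.MP_61ef33_al.Mis

open Air

theorem sConv (hRate : Ctr.SRate) (hRed : SRed) : SConv := by
  intro S _ A
  refine ⟨fun h ε hε => ?_, fun h ε hε => ?_, fun h δ hδ => ?_⟩
  · let f : Equiv.Perm (List Bool) → ℕ := fun g => sInf {n | g ∈ A.wball n}
    have hsub : ∀ n, cnt (Set.range A.ev) f n ⊆ A.wball n := by
      rintro n _ ⟨⟨W, rfl⟩, h2⟩
      obtain ⟨W', k1, k2⟩ := Nat.sInf_mem (s := {n | A.ev W ∈ A.wball n}) ⟨W.length, W, le_rfl, rfl⟩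
      exact ⟨W', k1.trans h2, k2⟩
    have hR : Rate (Set.range A.ev) f 0 := by
      intro δ hδ
      obtain ⟨K, hK⟩ := h δ hδ
      refine ⟨K, fun n => ⟨(A.wball_finite n).subset (hsub n), ?_⟩⟩
      rw [zero_add]
      exact le_trans (by exact_mod_cast Set.ncard_le_ncard (hsub n) (A.wball_finite n)) (hK n)
    refine (((hRate _ _ f 0 le_rfl).1 hR ε hε).comp
      fun W : List S => ⟨A.ev W, W, rfl⟩).det (fun _ _ e => e) 0 fun W => ?_
    have : f (A.ev W) ≤ W.length := Nat.sInf_le ⟨W, le_rfl, rfl⟩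
    have h2 : (f (A.ev W) : ℝ) ≤ W.length := by exact_mod_cast this
    simp only [zero_add, add_zero]
    exact mul_le_mul_of_nonneg_left h2 hε.le
  · obtain ⟨z, hz⟩ := hRed S A
    choose r h1 h2 using hz
    have hz0 : (0 : ℝ) < z + 1 := by positivity
    refine ((h (ε / (z + 1)) (by positivity)).comp
      fun W : {W : List S // ∀ a ∈ W, a ∈ Set.univ} => r W.1).det
      (fun a b e => by rw [← h1 a.1, ← h1 b.1]; exact e) ε fun W => ?_
    have h3 : ((r W.1).length : ℝ) ≤ z * (ws A W.1 + 1) := by exact_mod_cast h2 W.1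
    have h4 : (0 : ℝ) ≤ ws A W.1 := Nat.cast_nonneg _
    rw [div_mul_eq_mul_div, div_le_iff₀ hz0]
    nlinarith
  · obtain ⟨K, -, hK⟩ := sCount _ _ _ _ (h δ hδ)
    refine ⟨K, fun n => le_trans ?_ (hK (δ * n)).2⟩
    exact_mod_cast Set.ncard_le_ncard (by
      rintro _ ⟨W, k1, rfl⟩
      refine ⟨⟨W, fun _ _ => trivial⟩, ?_, rfl⟩
      have : (ws A W : ℝ) ≤ n := by exact_mod_cast (ws_le A W).trans k1
      exact mul_le_mul_of_nonneg_left this hδ.le) (hK (δ * n)).1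

end Pool.Agent.MP_61ef33_al.Mis
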