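import Pool.Agent.MP_61ef33_al.Mis.St

set_option autoImplicit false

namespace Pool.Agent.MP_61ef33_al.Mis

theorem sDbl : SDbl := by
  refine ⟨fun c S A pt hinj hpt hne hcl => ⟨?_, ?_⟩, fun c n hn h0 => ⟨?_, ?_⟩⟩
  · rintro ⟨g, hg, h1, h2⟩
    refine ⟨g, hg, fun i j hi hj hij => ?_, fun i j hij => ?_⟩
    · cases i with
      | zero => exact absurd (dvd_zero _) hi
      | succ i =>
        cases j with
        | zero => exact absurd (dvd_zero _) hj
        | succ j =>
          rw [← hpt, ← hpt, ← hcl]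
          exact h1 i j hi hj (Nat.ModEq.add_right_cancel' 1 hij)
    · cases i with
      | zero =>
        cases j with
        | zero => rfl
        | succ j =>
          rw [← hpt] at hij
          exact absurd hij.symm (hne _)
      | succ i =>
        cases j with
        | zero =>
          rw [← hpt] at hij
          exact absurd hij (hne _)
        | succ j =>
          rw [← hpt, ← hpt] at hij
          exact (h2 i j (hinj hij)).add_right 1
  · rintro ⟨g, hg, h1, h2⟩
    refine ⟨g, hg, fun i j hi hj hij => ?_, fun i j hij => ?_⟩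
    · refine (hcl _ _).2 ?_
      rw [hpt, hpt]
      exact h1 (i + 1) (j + 1) hi hj (hij.add_right 1)
    · refine Nat.ModEq.add_right_cancel' 1 (h2 (i + 1) (j + 1) ?_)
      rw [← hpt, ← hpt, hij]
  · rintro ⟨g, hg, h1⟩
    refine ⟨g, hg, h1, fun i j hij => ?_⟩
    have k : ∀ m, (fun x : ℝ => x ^ 2 + c)^[m] 0 = 0 → 2 * g ∣ m := fun m hm => by
      by_contra h
      have := h1 m m h h rfl
      rw [hm, mul_zero] at this
      exact lt_irrefl _ this
    obtain ⟨r, rfl⟩ : ∃ r, n = r + 1 := ⟨n - 1, by omega⟩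
    have e1 : (fun x : ℝ => x ^ 2 + c)^[r * i + i] 0 = 0 := by
      rw [← Nat.succ_mul]
      exact Function.IsPeriodicPt.mul_const h0 i
    have e2 : (fun x : ℝ => x ^ 2 + c)^[r * i + j] 0 = 0 := by
      rw [Function.iterate_add_apply, ← hij, ← Function.iterate_add_apply]
      exact e1
    exact Nat.ModEq.add_left_cancel' (r * i)
      ((Nat.modEq_zero_iff_dvd.2 (k _ e1)).trans (Nat.modEq_zero_iff_dvd.2 (k _ e2)).symm)
  · rintro ⟨g, hg, h1, -⟩
    exact ⟨g, hg, h1⟩

end Pool.Agent.MP_61ef33_al.Mis
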