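import Pool.Agent.MP_61ef33_al.Mis.St

set_option autoImplicit false

namespace Pool.Agent.MP_61ef33_al.Mis

/-- the part cut off by the first step -/
def I_Die {p : ℕ} (u : ZMod p → Bool) (a : ZMod p) : Bool := decide (a + 1 ≠ 0) && u a

/-- its normalised translates -/
def G_Die {p : ℕ} (u : ZMod p → Bool) (m : ℕ) (a : ZMod p) : Bool :=
  xor (I_Die u (a + m)) (I_Die u m)

/-- the translate lies in one class -/
def Mono_Die {p : ℕ} (u : ZMod p → Bool) (m : ℕ) : Prop :=
  ∃ x, ∀ a, G_Die u m (a + 1) = true → u a = x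

theorem step_Die {p : ℕ} (u : ZMod p → Bool) (m : ℕ) (h : Mono_Die u m) :
    ∃ x, step u (G_Die u m) x = G_Die u (m + 1) := by
  obtain ⟨x, hx⟩ := h
  have h1 : ∀ a, (G_Die u m (a + 1) && (u a == x)) = G_Die u m (a + 1) := by
    intro a
    cases h : G_Die u m (a + 1)
    · rfl
    · simp [hx a h]
  refine ⟨x, funext fun a => ?_⟩
  have h0 := h1 0
  rw [zero_add] at h0
  rw [step, h1, h0, G_Die, G_Die, G_Die, Nat.cast_succ, show a + 1 + m = a + (m + 1) by ring,
    add_comm 1 (m : ZMod p)]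
  cases I_Die u (a + (m + 1)) <;> cases I_Die u (m + 1) <;> cases I_Die u m <;> rfl

theorem ex_Die {p : ℕ} [NeZero p] (u : ZMod p → Bool) (hu : Prim u) (hp : 3 ≤ p) :
    ∃ m : ℕ, m + 1 < p ∧ ¬ Mono_Die u m := by
  have hn : ∀ j : ℕ, 0 < j → j < 3 → (j : ZMod p) ≠ 0 := fun j h0 h3 h =>
    absurd (Nat.le_of_dvd h0 ((ZMod.natCast_eq_zero_iff j p).1 h)) (by omega)
  have h1 : (1 : ZMod p) ≠ 0 := by simpa using hn 1 (by omega) (by omega)
  have h2 : (1 : ZMod p) + 1 ≠ 0 := by
    have := hn 2 (by omega) (by omega)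
    rwa [Nat.cast_ofNat, ← one_add_one_eq_two] at this
  obtain ⟨a0, b0, ha0, hb0, hb⟩ : ∃ a0 b0, I_Die u a0 = true ∧ I_Die u b0 = false ∧ b0 ≠ -1 := by
    obtain ⟨k, hk, a, ha, b, hb, hab⟩ := hu {a | a + 1 ≠ 0}
      ⟨0, by simpa using h1, 1, h2, h1.symm⟩ (fun h => by
        have : (-1 : ZMod p) ∈ {a : ZMod p | a + 1 ≠ 0} := h ▸ Set.mem_univ _
        simp at this)
    have hk0 : k = 0 := by
      by_contra h
      exact hk (-1 - k) (fun e => h (by linear_combination -e)) (by ring)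
    simp only [hk0, add_zero] at hab
    have ha' : a + 1 ≠ 0 := ha
    have hb' : b + 1 ≠ 0 := hb
    cases h : u a
    · refine ⟨b, a, ?_, by simp [I_Die, h], fun e => ha' (by rw [e]; ring)⟩
      simpa [I_Die, hb', h] using hab
    · refine ⟨a, b, by simp [I_Die, h, ha'], ?_, fun e => hb' (by rw [e]; ring)⟩
      simpa [I_Die, hb', h] using hab
  have hm : I_Die u (-1) = false := by simp [I_Die]
  obtain ⟨k, hk, a, ha, b, hb', hab⟩ := hu {a | I_Die u a = false} ⟨b0, hb0, -1, hm, hb⟩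
    (fun h => by
      have : a0 ∈ {a | I_Die u a = false} := h ▸ Set.mem_univ _
      simp [ha0] at this)
  have hk0 : -k ≠ 0 := fun h => hk (-1) hm (by rw [neg_eq_zero.1 h, add_zero])
  obtain ⟨m, hmk⟩ : ∃ m, (-k).val = m + 1 :=
    Nat.exists_eq_succ_of_ne_zero (fun h => hk0 ((ZMod.val_eq_zero _).1 h))
  have hc : (m : ZMod p) = -1 - k := by
    have := ZMod.natCast_zmod_val (-k)
    rw [hmk, Nat.cast_succ] at this
    linear_combination this
  have ht : I_Die u m = true := by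
    by_contra h
    exact hk m (by simpa using h) (by rw [hc]; ring)
  have hG : ∀ c, I_Die u c = false → G_Die u m (c + k + 1) = true := by
    intro c h
    rw [G_Die, ht, show c + k + 1 + m = c by rw [hc]; ring, h]
    rfl
  refine ⟨m, hmk ▸ ZMod.val_lt _, ?_⟩
  rintro ⟨x, hx⟩
  exact hab ((hx _ (hG a ha)).trans (hx _ (hG b hb')).symm)

theorem sDie : SDie := by
  classical
  intro p _ u hu hp
  obtain ⟨m1, hm1, hM1⟩ := ex_Die u hu hp
  have hex : ∃ m, ¬ Mono_Die u m := ⟨m1, hM1⟩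
  have hw : ∀ m, m ≤ Nat.find hex →
      ∃ xs : List Bool, xs.length = m + 1 ∧ xs.foldl (step u) cut = G_Die u m := by
    intro m
    induction m with
    | zero =>
      refine fun _ => ⟨[true], rfl, funext fun a => ?_⟩
      simp [step, cut, G_Die, I_Die]
    | succ m ih =>
      intro h
      obtain ⟨xs, h1, h2⟩ := ih (by omega)
      obtain ⟨x, hx⟩ := step_Die u m (not_not.1 (Nat.find_min hex (by omega)))
      exact ⟨xs ++ [x], by simp [h1], by rw [List.foldl_append, h2]; exact hx⟩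
  obtain ⟨xs, h1, h2⟩ := hw _ le_rfl
  have h3 := Nat.find_min' hex hM1
  refine ⟨_, xs, by omega, by omega, h1, ?_⟩
  generalize (!u (-((Nat.find hex + 1 + 1 : ℕ) : ZMod p))) = d
  have h4 := Nat.find_spec hex
  rw [List.foldl_append, h2]
  generalize Nat.find hex = m at h4
  obtain ⟨a, ha, hd⟩ : ∃ a, G_Die u m (a + 1) = true ∧ u a = d := by
    by_contra h
    exact h4 ⟨!d, fun a ha => Bool.eq_not_of_ne fun e => h ⟨a, ha, e⟩⟩
  cases h : (G_Die u m 1 && (u 0 == d))
  · exact ⟨a, by simp only [List.foldl_cons, List.foldl_nil, step, h]; simp [ha, hd]⟩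
  · exact ⟨-1, by simp only [List.foldl_cons, List.foldl_nil, step, h]; simp [G_Die]⟩

end Pool.Agent.MP_61ef33_al.Mis
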