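import Pool.Agent.MP_61ef33_al.Mis.St

set_option autoImplicit false

namespace Pool.Agent.MP_61ef33_al.Mis

section

variable {p : ℕ} {u : ZMod p → Bool}

/-- the goal for the set `U` and the outside point `t` -/
def G_Ext (u : ZMod p → Bool) (U : Set (ZMod p)) (t : ZMod p) : Prop :=
  ∃ r ∈ U, Good u r {b | b = t ∨ (b ∈ U ∧ b ≠ r)}

theorem r1_Ext {U : Set (ZMod p)} {t : ZMod p} {x : Bool} (ht : t = -1 ∨ u t ≠ x)
    (h : G_Ext u ((fun a => a + 1) '' {a | a ∈ U ∧ a ≠ -1 ∧ u a = x}) 0) : G_Ext u U t := by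
  obtain ⟨_, ⟨r, ⟨hr, -, hx⟩, rfl⟩, h⟩ := h
  refine ⟨r, hr, h.pull x (Or.inl hx) fun b hb => ⟨fun e => ?_, fun _ => Or.inl rfl⟩⟩
  by_cases h1 : b = -1
  · exact Or.inl (by rw [h1, neg_add_cancel])
  · rcases hb with rfl | ⟨h2, h3⟩
    · exact (ht.elim h1 fun h => h e).elim
    · exact Or.inr ⟨⟨b, ⟨h2, h1, e⟩, rfl⟩, fun h => h3 (add_right_cancel h)⟩

theorem r2_Ext {U : Set (ZMod p)} {t : ZMod p} (hU : ∀ a ∈ U, u a = u t ∨ a = -1)
    (h : G_Ext u ((fun a => a + 1) '' U) (t + 1)) : G_Ext u U t := by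
  obtain ⟨_, ⟨r, hr, rfl⟩, h⟩ := h
  refine ⟨r, hr, h.pull (u t) (hU r hr) fun b hb => ⟨fun _ => ?_, fun e => ?_⟩⟩
  · rcases hb with rfl | ⟨h2, h3⟩
    · exact Or.inl rfl
    · exact Or.inr ⟨⟨b, h2, rfl⟩, fun h => h3 (add_right_cancel h)⟩
  · rcases hb with rfl | ⟨h2, h3⟩
    · exact absurd rfl e
    · have h1 : b + 1 = 0 := by rw [(hU b h2).resolve_left e, neg_add_cancel]
      exact Or.inr ⟨⟨b, h2, h1⟩, fun h => h3 (add_right_cancel (h1.trans h))⟩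

theorem card_Ext (U : Set (ZMod p)) : ((fun a => a + 1) '' U).ncard = U.ncard :=
  Set.ncard_image_of_injective U (add_left_injective 1)

theorem key_Ext [NeZero p] {U : Set (ZMod p)} {t : ZMod p} (ht : t ∉ U) (hne : U.Nonempty)
    (ih : ∀ V : Set (ZMod p), V.ncard < U.ncard → V.Nonempty → ∀ s ∉ V, G_Ext u V s) :
    G_Ext u U t ∨ ((∀ a ∈ U, ∀ b ∈ U, a ≠ -1 → b ≠ -1 → u a = u b) ∧
      ∃ s ∉ (fun a => a + 1) '' U, (G_Ext u ((fun a => a + 1) '' U) s → G_Ext u U t)) := by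
  obtain ⟨x, hx, hx'⟩ : ∃ x, (t = -1 ∨ u t ≠ x) ∧
      ((∃ a, a ∈ U ∧ a ≠ -1 ∧ u a = x) ∨ ∀ a ∈ U, u a = u t ∨ a = -1) := by
    by_cases h : t = -1
    · obtain ⟨a, ha⟩ := hne
      exact ⟨u a, Or.inl h, Or.inl ⟨a, ha, fun e => ht (by rw [h, ← e]; exact ha), rfl⟩⟩
    · refine ⟨!u t, Or.inr (by simp), ?_⟩
      by_contra hc
      push Not at hc
      obtain ⟨h1, a, ha, h2, h3⟩ := hc
      refine h1 a ha h3 ?_
      revert h2
      cases u a <;> cases u t <;> simp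
  have z : (0 : ZMod p) ∉ (fun a => a + 1) '' {a | a ∈ U ∧ a ≠ -1 ∧ u a = x} := by
    rintro ⟨a, ⟨-, h1, -⟩, h2⟩
    exact h1 (eq_neg_of_add_eq_zero_left h2)
  rcases hx' with h | h
  · by_cases e : {a | a ∈ U ∧ a ≠ -1 ∧ u a = x} = U
    · have h1 : ∀ a ∈ U, u a = x := fun a ha => (e.ge ha).2.2
      refine Or.inr ⟨fun a ha b hb _ _ => (h1 a ha).trans (h1 b hb).symm, 0, ?_, fun g => ?_⟩
      · rwa [e] at z
      · refine r1_Ext hx ?_
        rwa [e]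
    · refine Or.inl (r1_Ext hx (ih _ ?_ (Set.Nonempty.image _ h) 0 z))
      rw [card_Ext]
      exact Set.ncard_lt_ncard (Set.ssubset_iff_subset_ne.2 ⟨fun a ha => ha.1, e⟩) (Set.toFinite U)
  · refine Or.inr ⟨fun a ha b hb a1 b1 => ((h a ha).resolve_right a1).trans
      ((h b hb).resolve_right b1).symm, t + 1, ?_, r2_Ext h⟩
    rintro ⟨a, ha, e⟩
    exact ht (add_right_cancel e ▸ ha)

theorem inner_Ext [NeZero p] {n : ℕ}
    (ih : ∀ V : Set (ZMod p), V.ncard < n → V.Nonempty → ∀ s ∉ V, G_Ext u V s) (m : ℕ) :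
    ∀ (U : Set (ZMod p)) (t : ZMod p), U.ncard = n → t ∉ U → (∀ a ∈ U, a + (m : ZMod p) ≠ -1) →
      (∃ a ∈ U, ∃ b ∈ U, u (a + (m : ZMod p)) ≠ u (b + (m : ZMod p))) → G_Ext u U t := by
  induction m with
  | zero =>
    rintro U t rfl ht h1 ⟨a, ha, b, hb, h2⟩
    simp only [Nat.cast_zero, add_zero] at h1 h2
    exact (key_Ext ht ⟨a, ha⟩ ih).elim id fun h => absurd (h.1 a ha b hb (h1 a ha) (h1 b hb)) h2
  | succ m im =>
    rintro U t rfl ht h1 ⟨a, ha, b, hb, h2⟩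
    have e : ∀ c : ZMod p, c + ((m + 1 : ℕ) : ZMod p) = c + 1 + (m : ZMod p) := fun c => by
      push_cast; ring
    simp only [e] at h1 h2
    rcases key_Ext ht ⟨a, ha⟩ ih with h | ⟨-, s, hs, h⟩
    · exact h
    · refine h (im _ s (card_Ext U) hs ?_ ⟨_, ⟨a, ha, rfl⟩, _, ⟨b, hb, rfl⟩, h2⟩)
      rintro _ ⟨c, hc, rfl⟩
      exact h1 c hc

end

theorem sExt (hP : SPair) : SExt := by
  intro p _ u hu
  have main : ∀ (n : ℕ) (U : Set (ZMod p)), U.ncard = n → U.Nonempty → ∀ t ∉ U, G_Ext u U t := by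
    intro n
    induction n using Nat.strong_induction_on with
    | _ n ih =>
      intro U hn hne t ht
      rcases U.subsingleton_or_nontrivial with h | h
      · obtain ⟨r, hr⟩ := hne
        refine ⟨r, hr, (hP p u hu r t fun e => ht (e ▸ hr)).mono ?_⟩
        rintro b (rfl | ⟨h1, h2⟩)
        · rfl
        · exact absurd (h h1 hr) h2
      · obtain ⟨k, h1, h2⟩ := hu U h fun e => ht (e ▸ Set.mem_univ t)
        refine inner_Ext (fun V hV => ih _ hV V rfl) k.val U t hn ht ?_ ?_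
        · rwa [ZMod.natCast_zmod_val]
        · rwa [ZMod.natCast_zmod_val]
  exact fun U hne t ht => main _ U rfl hne t ht

end Pool.Agent.MP_61ef33_al.Mis
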