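import Pool.Agent.MP_61ef33_al.Mis.St

set_option autoImplicit false

namespace Pool.Agent.MP_61ef33_al.Mis

theorem sFac : SFac := by
  intro S A ⟨g, hg, hE, hE'⟩
  have : NeZero (2 * g) := ⟨by omega⟩
  choose κ hκ using A.hc
  have h3 : ∀ k, (κ (A.nx^[k] A.sg) : ZMod (2 * g)) = k := fun k =>
    (ZMod.natCast_eq_natCast_iff _ _ _).2 (hE' _ _ (hκ _))
  have h4 : ∀ i : ZMod (2 * g), ∃ f, ¬ 2 * g ∣ f + 1 ∧ f ≡ i.val [MOD g] := fun i => by
    by_cases e : 2 * g ∣ i.val + 1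
    · refine ⟨g - 1, fun h => by have := Nat.le_of_dvd (by omega) h; omega, ?_⟩
      refine Nat.ModEq.add_right_cancel' 1 ?_
      rw [Nat.sub_add_cancel hg]
      exact (Nat.modEq_zero_iff_dvd.2 dvd_rfl).trans
        (Nat.modEq_zero_iff_dvd.2 ((Dvd.intro_left 2 rfl).trans e)).symm
    · exact ⟨_, e, Nat.ModEq.refl _⟩
  choose f hf1 hf2 using h4
  have h5 : ∀ n, n % (2 * g) ≡ n [MOD g] := fun n =>
    (Nat.mod_modEq n (2 * g)).of_mul_left 2
  refine ⟨2 * g, this, g, fun s => κ s, fun i => nu A (f i), fun h => ?_, ⟨?_,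
    fun s => ?_, fun s hs => ?_⟩, fun i => ?_⟩
  · have := Nat.le_of_dvd hg ((ZMod.natCast_eq_zero_iff g _).1 h)
    omega
  · simpa using h3 0
  · have := h3 (κ s + 1)
    rw [Function.iterate_succ_apply', hκ] at this
    simpa using this
  · have e : ¬ 2 * g ∣ κ s + 1 := fun h => hs (by
      have := (ZMod.natCast_eq_zero_iff _ _).2 h
      push_cast at this
      exact eq_neg_of_add_eq_zero_left this)
    have := hE _ _ e (hf1 (κ s)) (((hf2 _).trans (by
      rw [ZMod.val_natCast]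
      exact h5 _)).symm)
    rwa [nu, hκ] at this
  · refine hE _ _ (hf1 _) (hf1 _) ((hf2 _).trans (Nat.ModEq.trans ?_ (hf2 _).symm))
    rw [ZMod.val_add, ZMod.val_natCast]
    refine (h5 _).trans ?_
    simpa using (Nat.ModEq.refl i.val).add ((h5 g).trans (Nat.modEq_zero_iff_dvd.2 dvd_rfl))

end Pool.Agent.MP_61ef33_al.Mis
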