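import Pool.Agent.MP_61ef33_al.Mis.St
import Pool.Agent.MP_61ef33_al.Ctr.HX

/- Words with boundedly many stays grow subexponentially in the number of periodic letters. -/

set_option autoImplicit false

namespace Pool.Agent.MP_61ef33_al.Mis

open Air Ctr

theorem ind_HX {S : Type} (A : KA S) (F : S → Bool) (h : ∀ b, Sub A {s | F s = b}) (ε : ℝ)
    (hε : 0 < ε) (c : ℕ) (a : Bool) :
    Sm (fun W : {W : List S // ∃ b, crs a (W.map F) b ≤ c} => (gA A).ev W.1)
      fun W => ε * ws A W.1 := by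
  simp only [ev_eq]
  induction c generalizing a with
  | zero =>
    exact (h a ε hε).comp fun W : {W : List S // ∃ b, crs a (W.map F) b ≤ 0} =>
      ⟨W.1, zero_HX F W.1 a _ W.2.choose_spec⟩
  | succ c ih =>
    have H := fun W : {W : List S // ∃ b, crs a (W.map F) b ≤ c + 1} =>
      split_HX F c W.1 a _ W.2.choose_spec
    choose p h1 h2 h3 using H
    refine (((h a ε hε).comp fun W => ⟨(p W).1, h2 W⟩).pair
      ((ih (!a)).comp fun W => ⟨(p W).2, h3 W⟩)).det (fun W W' e => ?_) 0 fun W => ?_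
    · simp only [Prod.mk.injEq, ← ev_eq] at e ⊢
      rw [h1 W, h1 W', GA.ev_append, GA.ev_append, e.1, e.2]
    · have : (ws A W.1 : ℝ) = ws A (p W).1 + ws A (p W).2 := by
        rw [h1 W, ws_append, Nat.cast_add]
      simp only [this]
      linarith

theorem sHX (hSm : Ctr.SSm) (hRed : SRed) : SHX := by
  intro S I _ _ A C F hom hF h
  have hl : ∀ t : WT S I, ws A t.W ≤ C.len t := fun t => by
    have : C.ws t.W = ws A t.W := by rw [GA.CS.ws, hom, ws]
    unfold GA.CS.len
    omega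
  obtain ⟨z, hz⟩ := hRed S A
  refine ⟨fun c ε hε => ?_, z, fun t => ?_⟩
  swap
  · obtain ⟨W', h1, h2⟩ := hz t.W
    exact ⟨W', by rw [ev_eq, ev_eq, h1],
      h2.trans (Nat.mul_le_mul_left _ (Nat.succ_le_succ (hl t)))⟩
  have e : C.F C.i1 = F := funext hF
  have key : ∀ (a : Bool) (B : Type) (g : B → WT S I), (∀ x, C.n (g x) ≤ c) →
      (∀ x, (g x).a C.i1 = a) → Sm (fun x => (gA A).ev (g x).W) fun x => ε * C.len (g x) := by
    intro a B g h1 h2
    refine ((ind_HX A F h ε hε c a).comp fun x : B => ⟨(g x).W, (g x).b C.i1, ?_⟩).det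
      (fun _ _ e => e) 0 fun x => ?_
    · rw [← e, ← h2 x]
      exact h1 x
    · have : (ws A (g x).W : ℝ) ≤ C.len (g x) := by exact_mod_cast hl (g x)
      rw [add_zero]
      exact mul_le_mul_of_nonneg_left this hε.le
  refine hSm.2.2 _ _ _ _ (fun t => t.1.a C.i1 = true) ?_ ?_
  · exact key true _ (fun t : {t : {t : WT S I // C.n t ≤ c} // t.1.a C.i1 = true} =>
      t.1.1) (fun t => t.1.2) fun t => t.2
  · exact key false _
      (fun t : {t : {t : WT S I // C.n t ≤ c} // ¬ t.1.a C.i1 = true} => t.1.1)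
      (fun t => t.1.2) fun t => Bool.eq_false_iff.2 t.2

end Pool.Agent.MP_61ef33_al.Mis
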