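import Pool.Agent.MP_61ef33_al.Mis.St

set_option autoImplicit false

namespace Pool.Agent.MP_61ef33_al.Mis

theorem neg_Kap (p j : ℕ) : (j : ZMod p) = -1 ↔ p ∣ j + 1 := by
  rw [← ZMod.natCast_eq_zero_iff, Nat.cast_add, Nat.cast_one, add_eq_zero_iff_eq_neg]

theorem mul_Kap {ν : ℕ → Bool} {p : ℕ} (h : ∀ j, ¬ p ∣ j + 1 → ν (j + p) = ν j) (i : ℕ)
    (hi : ¬ p ∣ i + 1) (m : ℕ) : ν (i + p * m) = ν i := by
  induction m with
  | zero => simp
  | succ m ih =>
    rw [Nat.mul_succ, ← add_assoc, h _ fun e => hi ?_, ih]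
    rw [add_right_comm] at e
    exact (Nat.dvd_add_left (Dvd.intro m rfl)).1 e

theorem cong_Kap {ν : ℕ → Bool} {p : ℕ} (h : ∀ j, ¬ p ∣ j + 1 → ν (j + p) = ν j) (i j : ℕ)
    (e : (i : ZMod p) = j) (hi : ¬ p ∣ i + 1) : ν i = ν j := by
  have e' : i % p = j % p := (ZMod.natCast_eq_natCast_iff i j p).1 e
  have h1 : ¬ p ∣ i % p + 1 := fun a => hi (by
    rw [← neg_Kap] at a ⊢
    rwa [ZMod.natCast_mod] at a)
  have a := mul_Kap h _ h1 (i / p)
  have b := mul_Kap h _ h1 (j / p)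
  rw [Nat.mod_add_div] at a
  rw [e', Nat.mod_add_div] at b
  rw [a, b, e']

theorem per_Kap {S : Type} (f : S → S) (s : S) {i d : ℕ} (h : f^[i] s = f^[i + d] s) (n m : ℕ)
    (hn : i ≤ n) : f^[n + m * d] s = f^[n] s := by
  induction m with
  | zero => simp
  | succ m ih =>
    obtain ⟨k, rfl⟩ := Nat.exists_eq_add_of_le hn
    rw [← ih, show i + k + (m + 1) * d = (k + m * d) + (i + d) by ring,
      show i + k + m * d = (k + m * d) + i by ring, Function.iterate_add_apply f _ (i + d),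
      Function.iterate_add_apply f _ i, h]

theorem sKap (hP : SPrim) : SKap := by
  intro S A hS
  classical
  obtain ⟨p, ⟨p2, hp⟩, hmin⟩ : ∃ p, (2 ≤ p ∧ ∀ j, ¬ p ∣ j + 1 → nu A (j + p) = nu A j) ∧
      ∀ g < p, ¬ (2 ≤ g ∧ ∀ j, ¬ g ∣ j + 1 → nu A (j + g) = nu A j) :=
    ⟨Nat.find hS, Nat.find_spec hS, fun g hg => Nat.find_min hS hg⟩
  have : NeZero p := ⟨by omega⟩
  refine ⟨p, this, p2, ?_⟩
  by_cases hC : Cst A p
  · exact Or.inl hC
  have hu : ∀ j, ¬ p ∣ j + 1 → nu A j = nu A (j : ZMod p).val := fun j hj =>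
    cong_Kap hp _ _ (ZMod.natCast_zmod_val _).symm hj
  have hg : ∀ g j, g ∣ p → ¬ g ∣ j + 1 → ¬ p ∣ j + 1 ∧ ¬ p ∣ j + g + 1 := fun g j h1 h2 =>
    ⟨fun a => h2 (h1.trans a), fun a => h2 (by
      have := h1.trans a
      rw [add_right_comm] at this
      exact (Nat.dvd_add_left dvd_rfl).1 this)⟩
  have h1 : ∀ i d, A.nx^[i] A.sg = A.nx^[i + d] A.sg → p ∣ d := fun i d h => by
    by_contra n
    have g1 : Nat.gcd d p ∣ p := Nat.gcd_dvd_right d p
    have g0 : 0 < Nat.gcd d p := Nat.gcd_pos_of_pos_right d (by omega)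
    have g2 : Nat.gcd d p < p := lt_of_le_of_ne (Nat.le_of_dvd (by omega) g1) fun e =>
      n (e ▸ Nat.gcd_dvd_left d p)
    obtain ⟨k, hk⟩ : ∃ k : ℕ, ((Nat.gcd d p : ℕ) : ZMod p) = k * d := by
      refine ⟨((Nat.gcdA d p : ℤ) : ZMod p).val, ?_⟩
      have := congrArg (Int.cast : ℤ → ZMod p) (Nat.gcd_eq_gcd_ab d p)
      rw [ZMod.natCast_zmod_val, mul_comm]
      simpa using this
    generalize Nat.gcd d p = g at g0 g1 g2 hk
    have key : ∀ a b m : ℕ, ¬ p ∣ a + 1 → ¬ p ∣ b + 1 → (b : ZMod p) = a + m * g →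
        nu A b = nu A a := fun a b m ha hb e => by
      rw [← mul_Kap hp a ha i, cong_Kap hp b (a + p * i + m * k * d) (by
        rw [e, hk]
        push_cast
        rw [ZMod.natCast_self]
        ring) hb]
      exact congrArg A.cl (per_Kap A.nx A.sg h _ _ (by nlinarith))
    rcases Nat.lt_or_ge g 2 with g3 | g3
    · obtain rfl : g = 1 := by omega
      exact hC fun a b ha hb => key b a ((a : ZMod p) - b).val hb ha (by
        rw [ZMod.natCast_zmod_val]
        push_cast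
        ring)
    · exact hmin g g2 ⟨g3, fun j hj =>
        key j (j + g) 1 (hg g j g1 hj).1 (hg g j g1 hj).2 (by push_cast; ring)⟩
  have h2 : ∀ k l, k ≤ l → A.nx^[k] A.sg = A.nx^[l] A.sg → (k : ZMod p) = l := by
    intro k l hkl h
    obtain ⟨d, rfl⟩ := Nat.exists_eq_add_of_le hkl
    rw [Nat.cast_add, (ZMod.natCast_eq_zero_iff d _).2 (h1 k d h), add_zero]
  choose κ hκ using A.hc
  have h3 : ∀ k, (κ (A.nx^[k] A.sg) : ZMod p) = k := fun k => by
    rcases le_total k (κ (A.nx^[k] A.sg)) with h | h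
    · exact (h2 _ _ h (hκ _).symm).symm
    · exact h2 _ _ h (hκ _)
  refine Or.inr ⟨?_, fun s => κ s, fun a => nu A a.val, ⟨?_, fun s => ?_, fun s hs => ?_⟩,
    hP p _ (fun g g3 g2 g1 => ?_) ?_⟩
  · by_contra n
    obtain rfl : p = 2 := by omega
    exact hC fun i j hi hj =>
      cong_Kap hp i j ((ZMod.natCast_eq_natCast_iff' i j 2).2 (by omega)) hi
  · simpa using h3 0
  · have := h3 (κ s + 1)
    rw [Function.iterate_succ_apply', hκ] at this
    simpa using this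
  · have := hu (κ s) fun a => hs ((neg_Kap p _).2 a)
    rw [← this, nu, hκ]
  · by_contra n
    refine hmin g g2 ⟨g3, fun j hj => ?_⟩
    rw [hu _ (hg g j g1 hj).1, hu _ (hg g j g1 hj).2]
    by_contra m
    exact n ⟨j, hj, m⟩
  · by_contra n
    refine hC fun i j hi hj => ?_
    rw [hu i hi, hu j hj]
    by_contra m
    exact n ⟨i, j, fun a => hi ((neg_Kap p i).1 a), fun a => hj ((neg_Kap p j).1 a), m⟩

end Pool.Agent.MP_61ef33_al.Mis
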