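import Pool.Agent.MP_61ef33_al.Mis.St2

/- A kneading sequence of doubled star form gives small Julia sets which meet. -/

set_option autoImplicit false

namespace Pool.Agent.MP_61ef33_al.Mis

open Filter Topology Set Polynomial BD

theorem sMeet (hR : SRenOf) : SMeet := by
  intro B M R0 hR0 θ hθ p g g0 gp gd hk hn
  have hp : 2 ≤ p := by omega
  have hs : ∀ j, ¬ p ∣ j + 1 → kneading θ (j + p) = kneading θ j := fun j hj =>
    hk _ _ (by rwa [add_right_comm, Nat.dvd_add_self_right]) hj (Nat.add_modEq_right.of_dvd gd)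
  obtain ⟨br, e, g1, g2, g3⟩ := M.exists_branch hθ
  obtain ⟨X1, X2⟩ := M.K_props hR0
  set X := B.Uᶜ with hX
  set f := qf B.c with hf
  have cf : Continuous f := continuous_qf _
  have fX : ∀ z, f z ∈ X ↔ z ∈ X := fun z => not_congr (mem_U_iff z 1)
  have fXn : ∀ n z, f^[n] z ∈ X ↔ z ∈ X := fun n z => not_congr (mem_U_iff z n)
  let ν : ℕ → Bool := fun j => xor (kneading θ j) e
  have ν1 : ∀ j, ¬ p ∣ j + 1 → ν (j + p) = ν j := fun j h => by simp only [ν, hs j h]
  let S : Bool → Set ℂ := fun a => (fun y => sg a * br y) '' X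
  have fS : ∀ a, ∀ y ∈ X, f (sg a * br y) = y := fun a y hy => by
    rw [hf, qf, mul_pow, sg_sq, one_mul, g2 y hy]; ring
  have S0 : ∀ a z, z ∈ S a ↔ z ∈ X ∧ z = sg a * br (f z) := fun a z => by
    constructor
    · rintro ⟨y, hy, rfl⟩
      exact ⟨(fX _).1 (by rwa [fS a y hy]), by simp only [fS a y hy]⟩
    · exact fun h => ⟨f z, (fX z).2 h.1, h.2.symm⟩
  have gc : ∀ a, ContinuousOn (fun y => sg a * br y) X := fun a => continuousOn_const.mul g1
  have S1 : ∀ a, IsCompact (S a) := fun a => X1.image_of_continuousOn (gc a)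
  have S2 : ∀ a, IsPreconnected (S a) := fun a => X2.image _ (gc a)
  have S3 : ∀ a, ∀ z ∈ X, z ∉ S (!a) → z ∈ S a := fun a z hz h => by
    obtain ⟨b, hb⟩ := exists_sg (a := z) (b := br (f z)) (by rw [g2 _ ((fX z).2 hz), hf, qf]; ring)
    have := (S0 b z).2 ⟨hz, hb⟩
    cases a <;> cases b <;> first | exact this | exact absurd this h
  have S4 : ∀ a b, ∀ z ∈ S a, z ∈ S b → z ≠ 0 → a = b := fun a b z h h' h0 => by
    have a1 := ((S0 a z).1 h).2
    refine sg_inj (mul_right_cancel₀ (fun e => h0 ?_) (a1.symm.trans ((S0 b z).1 h').2))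
    rw [a1, e, mul_zero]
  have cX : B.c ∈ X := M.notU 0
  have S5 : ∀ a, (0 : ℂ) ∈ S a := fun a =>
    ⟨B.c, cX, by simpa [sg_ne] using g2 _ cX⟩
  have S6 : ∀ j, f^[j] B.c ∈ S (ν j) := fun j => (S0 _ _).2 ⟨M.notU j, g3 j⟩
  let Y : ℕ → ℕ → Set ℂ := fun n o => {z | z ∈ X ∧ ∀ i < n, ¬ p ∣ o + i + 1 → f^[i] z ∈ S (ν (o + i))}
  have Y1 : ∀ n o z, z ∈ Y (n + 1) o ↔ (¬ p ∣ o + 1 → z ∈ S (ν o)) ∧ f z ∈ Y n (o + 1) := by
    intro n o z
    simp only [Y, mem_ofPred_eq, Nat.forall_lt_succ_left', fX, add_right_comm o 1, add_assoc]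
    simp only [← add_assoc, add_zero]
    tauto
  have Y2 : ∀ n o, p ∣ o → B.c ∈ Y n o := by
    rintro n _ ⟨k, rfl⟩
    refine ⟨cX, fun i _ h => ?_⟩
    rw [add_assoc, Nat.dvd_add_right (dvd_mul_right p k)] at h
    have : ν (p * k + i) = ν i := by
      induction k with
      | zero => simp
      | succ k ih =>
        rw [← ih, ← ν1 (p * k + i) (by rwa [add_assoc, Nat.dvd_add_right (dvd_mul_right p k)])]
        congr 1; ring
    exact this ▸ S6 i
  have Y3 : ∀ n o, IsCompact (Y n o) ∧ IsPreconnected (Y n o) := by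
    intro n
    induction n with
    | zero => intro o; simpa [Y] using ⟨X1, X2⟩
    | succ n ih =>
      intro o
      by_cases h : p ∣ o + 1
      · have : Y (n + 1) o = f ⁻¹' Y n (o + 1) := Set.ext fun z => by simp [Y1, h]
        exact ⟨X1.of_isClosed_subset (this ▸ (ih _).1.isClosed.preimage cf) fun z hz => hz.1,
          this ▸ pre_conn_crit (ih _).2 (Y2 n _ h)⟩
      · have : Y (n + 1) o = (fun y => sg (ν o) * br y) '' Y n (o + 1) := by
          ext z
          rw [Y1]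
          constructor
          · exact fun hz => ⟨f z, hz.2, ((S0 _ _).1 (hz.1 h)).2.symm⟩
          · rintro ⟨y, hy, rfl⟩
            exact ⟨fun _ => ⟨y, hy.1, rfl⟩, by rwa [fS _ y hy.1]⟩
        rw [this]
        have := (gc (ν o)).mono fun z (hz : z ∈ Y n (o + 1)) => hz.1
        exact ⟨(ih _).1.image_of_continuousOn this, (ih _).2.image _ this⟩
  let K : ℕ → Set ℂ := fun o => ⋂ n, Y n o
  have K0 : ∀ o z, z ∈ K o ↔ z ∈ X ∧ ∀ i, ¬ p ∣ o + i + 1 → f^[i] z ∈ S (ν (o + i)) := fun o z =>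
    ⟨fun h => ⟨(mem_iInter.1 h 0).1, fun i => (mem_iInter.1 h (i + 1)).2 i (by omega)⟩,
      fun h => mem_iInter.2 fun n => ⟨h.1, fun i _ => h.2 i⟩⟩
  have K1 : ∀ o z, z ∈ K o ↔ (¬ p ∣ o + 1 → z ∈ S (ν o)) ∧ f z ∈ K (o + 1) := fun o z =>
    ⟨fun h => ⟨((Y1 0 o z).1 (mem_iInter.1 h 1)).1,
      mem_iInter.2 fun n => ((Y1 n o z).1 (mem_iInter.1 h (n + 1))).2⟩, fun h =>
      mem_iInter.2 fun n => by
        have := (Y1 n o z).2 ⟨h.1, mem_iInter.1 h.2 n⟩
        exact ⟨this.1, fun i hi => this.2 i (by omega)⟩⟩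
  have K2 : ∀ o i, MapsTo f^[i] (K o) (K (o + i)) := fun o i => by
    induction i with
    | zero => exact mapsTo_id _
    | succ i ih => rw [Function.iterate_succ']; exact MapsTo.comp (fun z hz => ((K1 _ z).1 hz).2) ih
  have K3 : ∀ o, K (o + p) = K o := fun o => Set.ext fun z => by
    rw [K0, K0]
    refine and_congr_right fun _ => forall_congr' fun i => ?_
    rw [add_right_comm o p, add_right_comm _ p, Nat.dvd_add_self_right]
    exact forall_congr' fun h => by rw [ν1 _ h]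
  have K4 : ∀ o, IsCompact (K o) := fun o => (Y3 0 o).1.of_isClosed_subset
    (isClosed_iInter fun n => (Y3 n o).1.isClosed) (iInter_subset _ 0)
  have K5 : ∀ o, IsPreconnected (K o) := fun o => nested_conn
    (fun m n h z hz => ⟨hz.1, fun i hi => hz.2 i (hi.trans_le h)⟩) (fun n => (Y3 n o).1)
    fun n => (Y3 n o).2
  have K6 : ∀ o, ¬ p ∣ o + 1 → (0 : ℂ) ∉ K o := fun o ho h => hn fun j => by
    have a1 : ∀ i, ¬ p ∣ o + 1 + i + 1 → ν i = ν (o + 1 + i) := fun i hi =>
      S4 _ _ _ (S6 i) (((K0 _ _).1 (show B.c ∈ K (o + 1) by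
        simpa [hf, qf] using ((K1 o 0).1 h).2)).2 i hi) (M.ne0 i)
    by_cases hj : p ∣ j + 1
    swap
    · exact hs j hj
    have a2 : ¬ p ∣ o + 1 + j + 1 := by rwa [add_assoc, Nat.dvd_add_left hj]
    have a3 := a1 (j + p) (by
      rwa [← add_assoc, add_right_comm _ p, Nat.dvd_add_self_right])
    rw [← add_assoc, ν1 _ a2, ← a1 j a2] at a3
    simpa [ν] using a3
  have K7 : ∀ o i, K (o + i) ⊆ f^[i] '' K o := fun o i => by
    induction i with
    | zero => simp
    | succ i ih =>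
      intro y hy
      have a1 := ((K0 _ _).1 hy).1
      obtain ⟨z, hz, e⟩ := ih ((K1 (o + i) _).2 ⟨fun _ => ⟨y, a1, rfl⟩, by rwa [fS _ y a1]⟩)
      exact ⟨z, hz, by rw [Function.iterate_succ_apply', e, fS _ y a1]⟩
  have K8 : ∀ o, IsPreconnected (K o)ᶜ := by
    have u0 : B.Ψ 1 0 ∈ B.U := ⟨1, 0, one_pos, rfl⟩
    let C : ℕ → Set ℂ := fun o => connectedComponentIn (K o)ᶜ (B.Ψ 1 0)
    have UK : ∀ o, B.U ⊆ (K o)ᶜ := fun o z hz h => ((K0 _ _).1 h).1 hz
    have c1 : ∀ o, B.U ⊆ C o := fun o => U_conn.subset_connectedComponentIn u0 (UK o)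
    have c2 : ∀ o, f ⁻¹' C (o + 1) ⊆ C o := fun o => by
      have := pre_conn (isOpenMap_qf B.c) isOpen_univ (D := univ) (C := C (o + 1))
        (fun s hs => isClosedMap_qf B.c _ (by simpa using hs)) (subset_univ _) subset_rfl
        isPreconnected_connectedComponentIn (c1 _ u0) U_conn
        (fun z hz => ⟨trivial, c1 _ ((mem_U_iff z 1).2 hz)⟩)
        fun z _ e => (mem_U_iff z 1).1 (by change qf B.c z ∈ _; rwa [e])
      rw [univ_inter] at this
      exact this.subset_connectedComponentIn (c1 _ ((mem_U_iff _ 1).2 u0))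
        fun z hz h => connectedComponentIn_subset (K (o + 1))ᶜ _ hz ((K1 o z).1 h).2
    have c3 : ∀ i o z, f^[i] z ∈ C (o + i) → z ∈ C o := by
      intro i
      induction i with
      | zero => exact fun _ _ h => h
      | succ i ih => exact fun o z h => ih o z (c2 _ (by rwa [Function.iterate_succ_apply'] at h))
    have c4 : ∀ o, ¬ p ∣ o + 1 → S (!ν o) ⊆ C o := fun o ho => by
      have a1 : IsPreconnected (insert 0 B.U) := U_conn.subset_closure (subset_insert _ _)
        (insert_subset (mem_closure_of_tendsto hθ.zero (by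
          filter_upwards [self_mem_nhdsWithin] with t ht
          exact ⟨t, _, ht, rfl⟩)) subset_closure)
      refine subset_union_left.trans (((S2 _).union 0 (S5 _) (mem_insert _ _)
        a1).subset_connectedComponentIn (Or.inr (Or.inr u0)) (union_subset (fun z hz h => ?_)
          (insert_subset (K6 o ho) (UK o))))
      have := S4 _ _ z hz (((K1 o z).1 h).1 ho) fun e => K6 o ho (e ▸ h)
      simp at this
    intro o
    have : (K o)ᶜ = C o := by
      refine subset_antisymm (fun z hz => by_contra fun h => hz ?_) (connectedComponentIn_subset _ _)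
      have a1 : z ∈ X := fun h' => h (c1 o h')
      exact (K0 o z).2 ⟨a1, fun i hi => S3 _ _ ((fXn i z).2 a1) fun h' => h (c3 i o z (c4 _ hi h'))⟩
    rw [this]; exact isPreconnected_connectedComponentIn
  obtain ⟨w, w1, w2⟩ : ∃ w : ℕ → Bool, (∀ n, w (n + g) = w n) ∧ ∀ n, ¬ p ∣ n + 1 → w n = ν n := by
    obtain ⟨φ, φ1, φ2, φ3⟩ : ∃ φ : ℕ → ℕ, (∀ n, ¬ p ∣ φ n + 1) ∧ (∀ n, φ n ≡ n [MOD g]) ∧
        ∀ n, ¬ p ∣ n + 1 → φ n = n := by
      refine ⟨fun n => if p ∣ n + 1 then n + g else n, fun n => ?_, fun n => ?_,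
        fun n h => if_neg h⟩
      · dsimp only
        split_ifs with h
        · rw [add_right_comm, Nat.dvd_add_right h]
          exact fun k => absurd (Nat.le_of_dvd g0 k) gp.not_ge
        · exact h
      · dsimp only
        split_ifs
        · exact Nat.add_modEq_right
        · rfl
    refine ⟨fun n => ν (φ n), fun n => ?_, fun n h => by simp only [φ3 n h]⟩
    simp only [ν, hk _ _ (φ1 _) (φ1 _) (((φ2 _).trans Nat.add_modEq_right).trans (φ2 n).symm)]
  have hy : ∀ o, ∃ y ∈ X, ∀ i, f^[i] y ∈ S (w (o + i)) := by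
    let Z : ℕ → ℕ → Set ℂ := fun n o => {z | z ∈ X ∧ ∀ i < n, f^[i] z ∈ S (w (o + i))}
    have Z1 : ∀ n o, IsClosed (Z n o) := fun n o => by
      have : Z n o = X ∩ ⋂ i < n, f^[i] ⁻¹' S (w (o + i)) := by
        ext z
        simp [Z]
      rw [this]
      exact X1.isClosed.inter (isClosed_biInter fun i _ => (S1 _).isClosed.preimage (cf.iterate i))
    have Z2 : ∀ n o, (Z n o).Nonempty := by
      intro n
      induction n with
      | zero => exact fun o => ⟨B.c, cX, fun i hi => absurd hi (Nat.not_lt_zero i)⟩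
      | succ n ih =>
        intro o
        obtain ⟨y, y1, y2⟩ := ih (o + 1)
        refine ⟨sg (w o) * br y, (fX _).1 (by rwa [fS _ y y1]), fun i hi => ?_⟩
        cases i with
        | zero => exact ⟨y, y1, rfl⟩
        | succ i =>
          rw [Function.iterate_succ_apply, fS _ y y1, ← add_assoc, add_right_comm]
          exact y2 i (by omega)
    intro o
    obtain ⟨y, hy⟩ := IsCompact.nonempty_iInter_of_sequence_nonempty_isCompact_isClosed
      (fun n => Z n o) (fun n z hz => ⟨hz.1, fun i hi => hz.2 i (by omega)⟩) (fun n => Z2 n o)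
      (X1.of_isClosed_subset (Z1 0 o) fun z hz => hz.1) fun n => Z1 n o
    exact ⟨y, (mem_iInter.1 hy 0).1, fun i => (mem_iInter.1 hy (i + 1)).2 i (by omega)⟩
  have hy' : ∀ o, ∃ y ∈ K o, f^[g] y ∈ K o := fun o => by
    obtain ⟨y, y1, y2⟩ := hy o
    refine ⟨y, (K0 _ _).2 ⟨y1, fun i hi => w2 _ hi ▸ y2 i⟩,
      (K0 _ _).2 ⟨(fXn g y).2 y1, fun i hi => ?_⟩⟩
    rw [← Function.iterate_add_apply, ← w2 _ hi, ← w1, add_assoc]
    exact y2 _
  obtain ⟨q, rfl⟩ : ∃ q, p = q + 1 := ⟨p - 1, by omega⟩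
  obtain ⟨y, y1, y2⟩ := hy' q
  have nd : ∀ i, 0 < i → i < q + 1 → ¬ q + 1 ∣ q + i + 1 := fun i h1 h2 h => by
    rw [add_right_comm, Nat.dvd_add_self_left] at h
    exact absurd (Nat.le_of_dvd h1 h) (by omega)
  refine hR _ (q + 1) (K q)
    (Metric.ball 0 (R0 + 1) ∩ ⋂ i ∈ Finset.Ioo 0 (q + 1), f^[i] ⁻¹' (S (!ν (q + i)))ᶜ)
    hp (K4 q) (K5 q) ((K1 q 0).2 ⟨fun h => absurd dvd_rfl h, ?_⟩)
    (fun z hz => (K1 q _).2 ⟨fun h => absurd dvd_rfl h, by simpa [hf, qf] using ((K1 q z).1 hz).2⟩)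
    (K8 q) (by simpa only [K3] using K2 q (q + 1)) (by simpa only [K3] using K7 q (q + 1))
    (fun i h1 h2 z hz z' hz' e => ?_)
    (Metric.isOpen_ball.inter (isOpen_biInter_finset fun i _ =>
      (S1 _).isClosed.isOpen_compl.preimage (cf.iterate i))) (fun z hz => ⟨?_, mem_iInter₂.2
        fun i hi h => ?_⟩) (fun z hz => ?_) y g g0 gp y1 y2
  · rw [show f 0 = B.c by simp [hf, qf]]
    exact mem_iInter.2 fun n => Y2 n _ dvd_rfl
  · have a1 := (S0 _ _).1 (((K1 _ _).1 (K2 q i hz)).1 (nd i h1 h2))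
    have a2 := (S0 _ _).1 (((K1 _ _).1 (K2 q i hz')).1 (nd i h1 h2))
    have a3 : f (f^[i] z) = f (f^[i] z') := by simp [e, hf, qf]
    refine K6 _ (nd i h1 h2) ((?_ : f^[i] z = 0) ▸ K2 q i hz)
    rw [a3, ← a2.2] at a1
    linear_combination (e + a1.2) / 2
  · rw [mem_ball_zero_iff]
    exact (le_of_not_gt fun h => ((K0 _ _).1 hz).1 (hR0 z h)).trans_lt (lt_add_one _)
  · have h1 := nd i (Finset.mem_Ioo.1 hi).1 (Finset.mem_Ioo.1 hi).2
    have := S4 _ _ _ h (((K1 _ _).1 (K2 q i hz)).1 h1) fun e => K6 _ h1 (e ▸ K2 q i hz)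
    simp at this
  · have a1 : z ∈ X := fun h => by
      obtain ⟨N, hN⟩ := eventually_atTop.1 (U_escape h (R0 + 1))
      have := mem_ball_zero_iff.1 (hz N).1
      rw [← Function.iterate_mul] at this
      exact this.not_gt (hN _ (by nlinarith))
    refine (K0 q z).2 ⟨a1, fun i hi => ?_⟩
    have a2 := Nat.mod_add_div i (q + 1)
    have a3 : i % (q + 1) ≠ 0 := fun e => hi (by
      rw [add_right_comm, Nat.dvd_add_self_left]; exact Nat.dvd_of_mod_eq_zero e)
    have a4 := mem_iInter₂.1 (hz (i / (q + 1))).2 (i % (q + 1))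
      (Finset.mem_Ioo.2 ⟨by omega, Nat.mod_lt _ (by omega)⟩)
    rw [mem_preimage, ← Function.iterate_mul, ← Function.iterate_add_apply, a2] at a4
    have a5 : ∀ k, ν (q + i % (q + 1) + (q + 1) * k) = ν (q + i % (q + 1)) := by
      intro k
      induction k with
      | zero => rfl
      | succ k ih =>
        rw [mul_add, mul_one, ← add_assoc, ν1, ih]
        rw [add_right_comm, Nat.dvd_add_left (dvd_mul_right _ _)]
        exact nd _ (by omega) (Nat.mod_lt _ (by omega))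
    have a6 := a5 (i / (q + 1))
    rw [add_assoc, a2] at a6
    exact a6 ▸ S3 _ _ ((fXn i z).2 a1) a4

end Pool.Agent.MP_61ef33_al.Mis
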