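import Pool.Agent.MP_61ef33_al.Mis.St

set_option autoImplicit false

namespace Pool.Agent.MP_61ef33_al.Mis

theorem down_Mix {p : ℕ} (u : ZMod p → Bool) (n : ℕ) (hn : n < p)
    (h : Good u (n : ZMod p) {b | b ≠ (n : ZMod p)}) : Good u 0 {b | b ≠ 0} := by
  induction n with
  | zero => simpa using h
  | succ n ih =>
    have h0 : (0 : ZMod p) ≠ (n : ZMod p) + 1 := fun e => by
      have e' : ((n + 1 : ℕ) : ZMod p) = 0 := by rw [Nat.cast_succ, ← e]
      have := Nat.le_of_dvd (Nat.succ_pos n) ((ZMod.natCast_eq_zero_iff _ _).1 e')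
      omega
    rw [Nat.cast_succ] at h
    exact ih (by omega) (Good.pull (u n) h (Or.inl rfl) fun b hb =>
      ⟨fun _ e => hb (add_right_cancel e), fun _ => h0⟩)

theorem sMix (hE : SExt) : SMix := by
  intro p _ u hP hp
  have : Fact (1 < p) := ⟨hp⟩
  obtain ⟨r, -, hG⟩ := hE p u hP {a | a ≠ 0} ⟨1, one_ne_zero⟩ 0 (by simp)
  have hG' : Good u r {b | b ≠ r} := hG.mono fun b hb => by
    by_cases h : b = 0
    · exact Or.inl h
    · exact Or.inr ⟨h, hb⟩
  obtain ⟨N0, H⟩ := down_Mix u r.val (ZMod.val_lt r) (by rwa [ZMod.natCast_zmod_val])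
  refine ⟨N0, fun N hN F h0 h1 => ?_⟩
  obtain ⟨xs, a1, a2⟩ := H N hN F h0 h1
  have z := walk_zero u xs h0
  refine ⟨xs, a1, funext fun b => ?_⟩
  by_cases h : b = 0
  · rw [h, z]
    simp [cut]
  · have := a2 b h
    rw [z] at this
    simpa [cut, h] using this

end Pool.Agent.MP_61ef33_al.Mis
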