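import Pool.Agent.MP_61ef33_al.Mis.St

set_option autoImplicit false

namespace Pool.Agent.MP_61ef33_al.Mis

section

variable {p : ℕ}

/-- every translate that misses `-1` lies in one class -/
def PP_Prim (u : ZMod p → Bool) (X : Set (ZMod p)) : Prop :=
  ∀ k, (∀ a ∈ X, a + k ≠ -1) → ∀ a ∈ X, ∀ b ∈ X, u (a + k) = u (b + k)

/-- the translate of a set -/
def tr_Prim (X : Set (ZMod p)) (k : ZMod p) : Set (ZMod p) := (fun a => a + k) '' X

/-- the set is stable under a translation -/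
def St_Prim (X : Set (ZMod p)) (k : ZMod p) : Prop := ∀ x ∈ X, x + k ∈ X

theorem mem_tr_Prim {X : Set (ZMod p)} {k a : ZMod p} : a ∈ tr_Prim X k ↔ a - k ∈ X :=
  ⟨fun ⟨x, hx, e⟩ => by rw [← e, add_sub_cancel_right]; exact hx,
    fun h => ⟨a - k, h, sub_add_cancel a k⟩⟩

theorem card_tr_Prim (X : Set (ZMod p)) (k : ZMod p) : (tr_Prim X k).ncard = X.ncard :=
  Set.ncard_image_of_injective X (add_left_injective k)

theorem pp_tr_Prim {u : ZMod p → Bool} {X : Set (ZMod p)} (h : PP_Prim u X) (k : ZMod p) :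
    PP_Prim u (tr_Prim X k) := by
  rintro k' hk _ ⟨a, ha, rfl⟩ _ ⟨b, hb, rfl⟩
  simp only [add_assoc]
  exact h (k + k') (fun x hx => by rw [← add_assoc]; exact hk _ ⟨x, hx, rfl⟩) a ha b hb

theorem pp_union_Prim {u : ZMod p → Bool} {X Y : Set (ZMod p)} (h : PP_Prim u X)
    (h' : PP_Prim u Y) (hz : (X ∩ Y).Nonempty) : PP_Prim u (X ∪ Y) := by
  obtain ⟨z, z1, z2⟩ := hz
  intro k hk
  have key : ∀ a ∈ X ∪ Y, u (a + k) = u (z + k) := by
    rintro a (ha | ha)
    · exact h k (fun x hx => hk x (Or.inl hx)) a ha z z1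
    · exact h' k (fun x hx => hk x (Or.inr hx)) a ha z z2
  exact fun a ha b hb => (key a ha).trans (key b hb).symm

theorem st_add_Prim {X : Set (ZMod p)} {a b : ZMod p} (h : St_Prim X a) (h' : St_Prim X b) :
    St_Prim X (a + b) := fun x hx => by
  rw [← add_assoc]
  exact h' _ (h x hx)

theorem st_mul_Prim {X : Set (ZMod p)} {a : ZMod p} (h : St_Prim X a) (n : ℕ) :
    St_Prim X (n * a) := by
  induction n with
  | zero => exact fun x hx => by simpa using hx
  | succ n ih =>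
    rw [Nat.cast_succ, add_mul, one_mul]
    exact st_add_Prim ih h

variable [NeZero p]

theorem st_all_Prim {X : Set (ZMod p)} {a : ZMod p} (h : St_Prim X a) (c : ZMod p) :
    St_Prim X (c * a) := by
  rw [← ZMod.natCast_zmod_val c]
  exact st_mul_Prim h _

theorem gen_Prim (X : Set (ZMod p)) :
    ∃ g : ℕ, 0 < g ∧ St_Prim X g ∧ ∀ n : ℕ, St_Prim X n → g ∣ n := by
  classical
  have hex : ∃ n : ℕ, 0 < n ∧ St_Prim X n :=
    ⟨p, Nat.pos_of_ne_zero (NeZero.ne p), fun x hx => by simpa using hx⟩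
  obtain ⟨h1, h2⟩ := Nat.find_spec hex
  refine ⟨Nat.find hex, h1, h2, fun n hn => Nat.dvd_of_mod_eq_zero ?_⟩
  by_contra h0
  refine Nat.find_min hex (Nat.mod_lt n h1) ⟨Nat.pos_of_ne_zero h0, ?_⟩
  have e : ((n % Nat.find hex : ℕ) : ZMod p) =
      n + (-((n / Nat.find hex : ℕ) : ZMod p)) * (Nat.find hex : ℕ) := by
    conv_rhs => rw [← Nat.mod_add_div n (Nat.find hex)]
    rw [Nat.mod_add_div]
    have := congrArg (Nat.cast : ℕ → ZMod p) (Nat.mod_add_div n (Nat.find hex))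
    push_cast at this ⊢
    linear_combination this
  rw [e]
  exact st_add_Prim hn (st_all_Prim h2 _)

theorem last_Prim {u : ZMod p → Bool} {X : Set (ZMod p)} (h1 : X.Nontrivial) (h2 : X ≠ Set.univ)
    (hP : PP_Prim u X)
    (hmax : ∀ Y : Set (ZMod p), Y.Nontrivial → Y ≠ Set.univ → PP_Prim u Y → Y.ncard ≤ X.ncard)
    (hS : ∀ k, k ≠ 0 → ¬St_Prim X k) (a b : ZMod p) (ha : a ≠ -1) (hb : b ≠ -1) : u a = u b := by
  have key : ∀ k, k ≠ 0 → (X ∩ tr_Prim X k).Nonempty → X ∪ tr_Prim X k = Set.univ := by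
    intro k hk hne
    by_contra hu
    have h3 := hmax _ (h1.mono Set.subset_union_left) hu (pp_union_Prim hP (pp_tr_Prim hP k) hne)
    have h4 := Set.eq_of_subset_of_ncard_le Set.subset_union_left h3 (Set.toFinite _)
    exact hS k hk fun x hx => h4 ▸ Or.inr ⟨x, hx, rfl⟩
  have hc : ∀ k, (X ∪ tr_Prim X k).ncard + (X ∩ tr_Prim X k).ncard = 2 * X.ncard := fun k => by
    rw [Set.ncard_union_add_ncard_inter _ _ (Set.toFinite _) (Set.toFinite _), card_tr_Prim,
      two_mul]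
  obtain ⟨x, hx, y, hy, hxy⟩ := h1
  have h5 : (X ∩ tr_Prim X (y - x)).Nonempty := ⟨y, hy, mem_tr_Prim.2 (by simpa using hx)⟩
  have h6 := hc (y - x)
  rw [key _ (sub_ne_zero.2 hxy.symm) h5] at h6
  have h7 := (Set.ncard_pos (Set.toFinite _)).2 h5
  have one : ∀ y1 y2, y1 ∉ X → y2 ∉ X → y2 = y1 := by
    intro y1 y2 n1 n2
    by_contra hne
    have h8 : (X ∩ tr_Prim X (y2 - y1)).Nonempty := by
      rw [← Set.ncard_pos (Set.toFinite _)]
      have h9 := hc (y2 - y1)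
      have h10 := Set.ncard_le_ncard (Set.subset_univ (X ∪ tr_Prim X (y2 - y1))) (Set.toFinite _)
      omega
    rcases key _ (sub_ne_zero.2 hne) h8 ▸ Set.mem_univ y2 with h | h
    · exact n2 h
    · exact n1 (by simpa using mem_tr_Prim.1 h)
  obtain ⟨z, hz⟩ := (Set.ne_univ_iff_exists_notMem X).1 h2
  have hin : ∀ c, c ≠ -1 → c - (-1 - z) ∈ X := fun c hc => by
    by_contra hn
    exact hc (by linear_combination one z _ hz hn)
  have := hP (-1 - z) (fun c hc e => hz (by rwa [show z = c by linear_combination -e]))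
    _ (hin a ha) _ (hin b hb)
  rwa [sub_add_cancel, sub_add_cancel] at this

end

theorem sPrim : SPrim := by
  intro p _ u hg ⟨a, b, ha, hb, hab⟩ X0 n0 u0
  by_contra hc
  have hP0 : PP_Prim u X0 := fun k hk x hx y hy => by
    by_contra h
    exact hc ⟨k, hk, x, hx, y, hy, h⟩
  obtain ⟨X, ⟨h1, h2, hP⟩, hmax⟩ := Set.exists_max_image
    {Y : Set (ZMod p) | Y.Nontrivial ∧ Y ≠ Set.univ ∧ PP_Prim u Y} Set.ncard (Set.toFinite _)
    ⟨X0, n0, u0, hP0⟩
  obtain ⟨g, g0, g1, g2⟩ := gen_Prim X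
  have gp : g ∣ p := g2 p fun x hx => by simpa using hx
  have g3 : g ≠ 1 := by
    rintro rfl
    obtain ⟨x, hx⟩ := h1.nonempty
    refine h2 (Set.eq_univ_of_forall fun c => ?_)
    have := st_all_Prim g1 (c - x) x hx
    simpa using this
  rcases (Nat.le_of_dvd (Nat.pos_of_ne_zero (NeZero.ne p)) gp).lt_or_eq with h | h
  · obtain ⟨j, j1, j2⟩ := hg g (by omega) h gp
    have h3 : ¬St_Prim X (-((j + 1 : ℕ) : ZMod p)) := fun h4 =>
      j1 (g2 _ (by simpa using st_all_Prim h4 (-1)))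
    obtain ⟨x, hx, h4⟩ : ∃ x ∈ X, x + -((j + 1 : ℕ) : ZMod p) ∉ X := by
      by_contra h5
      exact h3 fun x hx => by_contra fun h6 => h5 ⟨x, hx, h6⟩
    have h5 := hP (j - x) (fun c hc e => h4 (by
      rwa [show x + -((j + 1 : ℕ) : ZMod p) = c by push_cast; linear_combination -e]))
      _ (g1 x hx) x hx
    refine j2 ?_
    rw [show ((j + g : ℕ) : ZMod p) = x + g + (j - x) by push_cast; ring, h5]
    congr 1
    ring
  · refine hab (last_Prim h1 h2 hP (fun Y y1 y2 y3 => hmax Y ⟨y1, y2, y3⟩) (fun k hk hS => ?_)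
      a b ha hb)
    have h3 := g2 k.val (by rwa [ZMod.natCast_zmod_val])
    rw [h] at h3
    exact hk ((ZMod.val_eq_zero k).1 (Nat.eq_zero_of_dvd_of_lt h3 (ZMod.val_lt k)))

end Pool.Agent.MP_61ef33_al.Mis
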