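import Pool.Agent.MP_61ef33_al.Mis.St

set_option autoImplicit false

namespace Pool.Agent.MP_61ef33_al.Mis

open Air

section
variable {S : Type} (A : KA S)

theorem mono_Prop {B B' : Set S} (h : B' ⊆ B) (hB : Sub A B) : Sub A B' := fun ε hε =>
  (hB ε hε).comp fun W : {W : List S // ∀ a ∈ W, a ∈ B'} => ⟨W.1, fun a ha => h (W.2 a ha)⟩

theorem two_Prop {B : Set S} (By : Bool → Set S)
    (h : ∀ W : List S, (∀ a ∈ W, a ∈ B) → ∀ y, ∀ a ∈ A.sec W y, a ∈ By y)
    (hs : ∀ y, Sub A (By y)) : Sub A B := fun ε hε => by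
  refine ((Sm.fin fun W : {W : List S // ∀ a ∈ W, a ∈ B} => A.par W.1).pair
    (((hs false ε hε).comp fun W => ⟨_, h W.1 W.2 false⟩).pair
      ((hs true ε hε).comp fun W => ⟨_, h W.1 W.2 true⟩))).det ?_ 0 ?_
  · intro a a' e
    simp only [Prod.mk.injEq] at e
    refine A.ev_eq_of_sec e.1 fun y => ?_
    cases y
    exacts [e.2.1, e.2.2]
  · intro a
    have h1 : ((ws A (A.sec a.1 false) + ws A (A.sec a.1 true) : ℕ) : ℝ) ≤ ws A a.1 := by
      exact_mod_cast ws_sec A a.1 false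
    have h2 := mul_le_mul_of_nonneg_left h1 hε.le
    push_cast at h2
    linarith

theorem pre_Prop {B : Set S} (h : Sub A (A.nx ⁻¹' B)) : Sub A B :=
  two_Prop A (fun _ => A.nx ⁻¹' B) (fun _ hW _ _ ha => hW _ (A.mem_sec ha)) fun _ => h

theorem iter_Prop {B : Set S} (i : ℕ) (h : Sub A (A.nx^[i] ⁻¹' B)) : Sub A B := by
  induction i with
  | zero => exact h
  | succ i ih => exact ih (pre_Prop A h)

theorem split_Prop {B : Set S} (hB : A.sg ∉ B)
    (h : ∀ y, Sub A (A.nx ⁻¹' B ∩ {s | A.cl s = y})) : Sub A B :=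
  two_Prop A (fun y => A.nx ⁻¹' B ∩ {s | A.cl s = y}) (fun _ hW _ _ ha =>
    ⟨hW _ (A.mem_sec ha), A.cl_of_mem_sec (fun e => hB (hW _ e)) ha⟩) h

theorem kap_Prop {p : ℕ} {κ : S → ZMod p} {u : ZMod p → Bool} (hF : Fac A p κ u) (i : ℕ)
    (s : S) : κ (A.nx^[i] s) = κ s + i := by
  induction i with
  | zero => simp
  | succ i ih => rw [Function.iterate_succ_apply', hF.nx, ih, Nat.cast_succ, add_assoc]

end

theorem sProp : SProp := by
  intro S A p _ κ u hF hP hS X
  induction hn : X.ncard using Nat.strong_induction_on generalizing X with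
  | _ n ih =>
    intro hX
    rcases X.subsingleton_or_nontrivial with h | h
    · rcases X.eq_empty_or_nonempty with rfl | ⟨a, ha⟩
      · exact mono_Prop A (Set.empty_subset _) hS
      · refine iter_Prop A a.val (mono_Prop A (fun t ht => ?_) hS)
        have h1 : κ (A.nx^[a.val] t) = a := h ht ha
        rw [kap_Prop A hF, ZMod.natCast_zmod_val] at h1
        exact add_eq_right.1 h1
    · obtain ⟨k, h1, a, ha, b, hb, hab⟩ := hP X h hX
      have h2 : ∀ t, κ (A.nx^[(-k - 1).val] t) = κ t + (-k - 1) := fun t => by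
        rw [kap_Prop A hF, ZMod.natCast_zmod_val]
      refine iter_Prop A (-k - 1).val (split_Prop A (fun e => h1 _ e ?_) fun y => ?_)
      · rw [h2, hF.sg]
        ring
      obtain ⟨c, hc, hcy⟩ : ∃ c ∈ X, u (c + k) ≠ y := by
        by_cases e : u (a + k) = y
        · exact ⟨b, hb, fun e' => hab (e.trans e'.symm)⟩
        · exact ⟨a, ha, e⟩
      refine mono_Prop A (fun t ht => ?_) (ih _ ?_ {d | d - k ∈ X ∧ u d = y} rfl fun e => ?_)
      · have h3 : κ t - k ∈ X := by
          have h4 : κ (A.nx^[(-k - 1).val] (A.nx t)) ∈ X := ht.1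
          rwa [h2, hF.nx, show κ t + 1 + (-k - 1) = κ t - k by ring] at h4
        exact ⟨h3, (hF.cl t (by simpa using h1 _ h3)).symm.trans ht.2⟩
      · rw [← hn, ← Set.ncard_image_of_injective _ (sub_left_injective (b := k))]
        refine Set.ncard_lt_ncard ⟨?_, fun q => ?_⟩ (Set.toFinite _)
        · rintro _ ⟨d, hd, rfl⟩
          exact hd.1
        · obtain ⟨d, hd, rfl⟩ := q hc
          exact hcy (by simpa using hd.2)
      · have h3 : (-1 : ZMod p) ∈ {d | d - k ∈ X ∧ u d = y} := e ▸ Set.mem_univ _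
        exact h1 _ h3.1 (by ring)

end Pool.Agent.MP_61ef33_al.Mis
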