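import Pool.Agent.MP_61ef33_al.Mis.St2
import Pool.Agent.MP_61ef33_al.R.Thresh

/- Real parameters: the postcritical set with its order on the real line. -/

set_option autoImplicit false

namespace Pool.Agent.MP_61ef33_al.Mis

open Polynomial Set

theorem ge_Real {c : ℝ} (hf : (postcrit (X ^ 2 + C (c : ℂ))).Finite) : -2 ≤ c := by
  rw [postcrit_quad] at hf
  by_contra hc
  push Not at hc
  have hx : ∀ k, -c ≤ (fun x : ℝ => x ^ 2 + c)^[k + 1] c ∧
      (fun x : ℝ => x ^ 2 + c)^[k + 1] c < (fun x : ℝ => x ^ 2 + c)^[k + 1 + 1] c := by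
    have st : ∀ y : ℝ, -c ≤ y → y < y ^ 2 + c := fun y hy => by nlinarith
    intro k
    induction k with
    | zero =>
      have h1 : -c ≤ (fun x : ℝ => x ^ 2 + c)^[0 + 1] c := by
        show -c ≤ c ^ 2 + c
        nlinarith
      refine ⟨h1, ?_⟩
      rw [Function.iterate_succ_apply' _ (0 + 1)]
      exact st _ h1
    | succ k ih =>
      have h1 := ih.1.trans ih.2.le
      refine ⟨h1, ?_⟩
      rw [Function.iterate_succ_apply' _ (k + 1 + 1)]
      exact st _ h1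
  have hm : StrictMono fun k => (fun x : ℝ => x ^ 2 + c)^[k + 1] c :=
    strictMono_nat_of_lt_succ fun k => (hx k).2
  refine (infinite_range_of_injective (f := fun k => (qf (c : ℂ))^[k + 1] c)
    (fun k l e => hm.injective ?_)).mono ?_ hf
  · simpa only [R.iter_Thresh, Complex.ofReal_inj] using e
  · rintro _ ⟨k, rfl⟩
    exact ⟨k + 1, rfl⟩

theorem cls_Real {c : ℝ} (h2 : -2 ≤ c) (hc : c < 0) {cls : ℂ → Bool}
    (hD : ∀ D : Set ℂ, IsPreconnected D → (0 : ℂ) ∉ D →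
      (∀ z ∈ D, ∃ M, ∀ n, ‖(qf (c : ℂ))^[n] z‖ ≤ M) → ∀ z ∈ D, ∀ w ∈ D, cls z = cls w)
    {I : Set ℝ} (hI : IsPreconnected I) (h0 : (0 : ℝ) ∉ I) (hs : I ⊆ Icc c (-c))
    {y z : ℝ} (hy : y ∈ I) (hz : z ∈ I) : cls (y : ℝ) = cls (z : ℝ) := by
  have s4 : ∀ n, ∀ x ∈ Icc c (-c), (fun x : ℝ => x ^ 2 + c)^[n] x ∈ Icc c (-c) := by
    intro n x hx
    induction n with
    | zero => exact hx
    | succ n ih =>
      rw [Function.iterate_succ_apply']
      exact ⟨by nlinarith [sq_nonneg ((fun x : ℝ => x ^ 2 + c)^[n] x)],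
        by nlinarith [ih.1, ih.2]⟩
  refine hD ((fun x : ℝ => (x : ℂ)) '' I)
    (hI.image _ Complex.continuous_ofReal.continuousOn) ?_ ?_ _
    (mem_image_of_mem _ hy) _ (mem_image_of_mem _ hz)
  · rintro ⟨x, hx, h⟩
    exact h0 (Complex.ofReal_eq_zero.1 h ▸ hx)
  · rintro _ ⟨x, hx, rfl⟩
    refine ⟨-c, fun n => ?_⟩
    have := s4 n x (hs hx)
    rw [R.iter_Thresh, Complex.norm_real, Real.norm_eq_abs, abs_le]
    constructor <;> linarith [this.1, this.2]

theorem sReal (hL : R.LinkSt) : SReal := by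
  intro c hf h0 hc2
  have hc := R.neg_Thresh hf h0
  have h2 := ge_Real hf
  obtain ⟨S, hS, A, P, cls, hinj, hr, hsg, hnx, hcl, hD, -, hE⟩ := hL c hf h0
  have hre : ∀ s, ∃ y ∈ Icc c (-c), P s = (y : ℝ) := by
    intro s
    obtain ⟨k, rfl⟩ := A.hc s
    induction k with
    | zero => exact ⟨c, ⟨le_rfl, by linarith⟩, hsg⟩
    | succ k ih =>
      obtain ⟨y, hy, e⟩ := ih
      refine ⟨y ^ 2 + c, ⟨by nlinarith [sq_nonneg y], by nlinarith [hy.1, hy.2]⟩, ?_⟩
      rw [Function.iterate_succ_apply', hnx, e, R.qf_Thresh]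
  choose pt hI hP using hre
  have p0 : pt A.sg = c := Complex.ofReal_inj.1 ((hP _).symm.trans hsg)
  have p1 : ∀ s, pt (A.nx s) = pt s ^ 2 + c := fun s =>
    Complex.ofReal_inj.1 (by rw [← hP, hnx, hP, R.qf_Thresh])
  have pn : ∀ s, pt s ≠ 0 := fun s e => h0 (hr ▸ ⟨s, by rw [hP, e, Complex.ofReal_zero]⟩)
  have pi : Function.Injective pt := fun s t e => hinj (by rw [hP, hP, e])
  have kn : ∀ s, pt s < 0 → A.cl s = A.cl A.sg := fun s h => by
    rw [hcl, hcl, hP, hP]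
    exact cls_Real h2 hc hD (I := Ico c 0) isPreconnected_Ico (fun a => lt_irrefl _ a.2)
      (fun x a => ⟨a.1, by linarith [a.2]⟩) ⟨(hI s).1, h⟩ ⟨(hI _).1, p0 ▸ hc⟩
  have kp : ∀ s t, 0 < pt s → 0 < pt t → A.cl s = A.cl t := fun s t h h' => by
    rw [hcl, hcl, hP, hP]
    exact cls_Real h2 hc hD (I := Ioc 0 (-c)) isPreconnected_Ioc (fun a => lt_irrefl _ a.1)
      (fun x a => ⟨by linarith [a.1], a.2⟩) ⟨h, (hI s).2⟩ ⟨h', (hI t).2⟩
  have key : ∀ s, A.cl s = A.cl A.sg → pt s < 0 := fun s h => by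
    by_contra hs
    have hs' : 0 < pt s := lt_of_le_of_ne (not_lt.1 hs) (pn s).symm
    obtain ⟨t, ht⟩ := A.exists_cl (!A.cl A.sg)
    have : A.cl t = A.cl A.sg := by
      rcases lt_or_gt_of_ne (pn t) with a | a
      · exact kn t a
      · exact (kp t s a hs').trans h
    rw [this] at ht
    exact absurd ht (by cases A.cl A.sg <;> decide)
  have key' : ∀ s, A.cl s ≠ A.cl A.sg → 0 < pt s := fun s h =>
    lt_of_le_of_ne (not_lt.1 fun a => h (kn s a)) (pn s).symm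
  refine ⟨S, hS, A, pt, ?_, ⟨pi, fun s => p0 ▸ (hI s).1, fun s t a b => (key s a).trans (key' t b),
    fun s t a b => ?_, fun s t a b => ?_⟩, fun i => ?_, pn, fun s t => ⟨fun h => ?_, fun h => ?_⟩,
    hE⟩
  · refine Fintype.two_lt_card_iff.2 ⟨A.sg, A.nx A.sg, A.nx (A.nx A.sg), (A.ha _).symm,
      (A.ha _).symm, fun e => ?_⟩
    have e1 := congrArg pt e
    rw [p1, p1, p1, p0] at e1
    have e2 : c ^ 2 * (c * (c + 2)) = 0 := by linear_combination -e1
    have e3 : c + 2 ≠ 0 := fun a => hc2 (by linarith)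
    exact mul_ne_zero (pow_ne_zero 2 hc.ne) (mul_ne_zero hc.ne e3) e2
  · have := key t a
    rw [p1, p1]
    nlinarith
  · have := key' s a
    rw [p1, p1]
    nlinarith
  · induction i with
    | zero =>
      show pt A.sg = (0 : ℝ) ^ 2 + c
      rw [p0]
      ring
    | succ i ih => rw [Function.iterate_succ_apply', p1, ih, Function.iterate_succ_apply' _ (i + 1)]
  · by_cases a : A.cl s = A.cl A.sg
    · exact mul_pos_of_neg_of_neg (key s a) (key t (h ▸ a))
    · exact mul_pos (key' s a) (key' t (h ▸ a))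
  · rcases mul_pos_iff.1 h with a | a
    · exact kp s t a.1 a.2
    · exact (kn s a.1).trans (kn t a.2).symm

end Pool.Agent.MP_61ef33_al.Mis
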