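import Pool.Agent.MP_61ef33_al.Mis.St

set_option autoImplicit false

namespace Pool.Agent.MP_61ef33_al.Mis

theorem per_of_lt_Red {S : Type} (A : KA S) {a b : ℕ} (hab : a < b)
    (e : A.nx^[a] A.sg = A.nx^[b] A.sg) : Per A (A.nx^[a] A.sg) :=
  ⟨b - a, by omega, by
    rw [← Function.iterate_add_apply, show b - a + a = b by omega, e]⟩

theorem fin_step_Red {S : Type} (A : KA S) (k : ℕ) :
    (A.Wd {s | ¬ Per A s ∧ ∃ j < k, s = A.nx^[j] A.sg}).Finite := by
  induction k with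
  | zero => exact A.finite_Wd_subsingleton fun s hs => by simp at hs
  | succ k ih =>
    have key : ∀ W : List S, (∀ s ∈ W, s ∈ {s | ¬ Per A s ∧ ∃ j < k + 1, s = A.nx^[j] A.sg}) →
        ∀ y, ∀ t ∈ A.sec W y, t ∈ {s | ¬ Per A s ∧ ∃ j < k, s = A.nx^[j] A.sg} := by
      intro W hW y t ht
      obtain ⟨h1, j, hj, e⟩ := hW _ (A.mem_sec ht)
      obtain ⟨i, rfl⟩ := A.hc t
      refine ⟨fun h => h1 h.nx, i, ?_, rfl⟩
      rw [← Function.iterate_succ_apply' A.nx] at e h1
      rcases lt_trichotomy (i + 1) j with h | h | h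
      · omega
      · omega
      · exact absurd (e ▸ per_of_lt_Red A h e.symm) h1
    exact A.finite_of_sec ih ih fun W hW => ⟨key W hW false, key W hW true⟩

theorem fin_np_Red {S : Type} [Finite S] (A : KA S) : (A.Wd {s | ¬ Per A s}).Finite := by
  choose f hf using A.hc
  obtain ⟨k, hk⟩ := (Set.finite_range f).bddAbove
  refine (fin_step_Red A (k + 1)).subset ?_
  rintro g ⟨W, hW, rfl⟩
  exact ⟨W, fun s hs => ⟨hW s hs, f s, Nat.lt_succ_of_le (hk ⟨s, rfl⟩), (hf s).symm⟩, rfl⟩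

theorem short_Red {S : Type} [Finite S] (A : KA S) : ∃ z : ℕ, ∀ U : List S,
    (∀ s ∈ U, ¬ Per A s) → ∃ R : List S, A.ev R = A.ev U ∧ R.length ≤ z := by
  have := (fin_np_Red A).to_subtype
  choose rep _ h2 using fun g : A.Wd {s | ¬ Per A s} => g.2
  obtain ⟨z, hz⟩ := (Set.finite_range fun g => (rep g).length).bddAbove
  exact ⟨z, fun U hU => ⟨rep ⟨A.ev U, U, hU, rfl⟩, h2 _, hz ⟨_, rfl⟩⟩⟩

theorem sRed : SRed := by
  intro S _ A
  obtain ⟨z, hz⟩ := short_Red A
  have key : ∀ W : List S, ∃ U V : List S, (∀ s ∈ U, ¬ Per A s) ∧ A.ev (U ++ V) = A.ev W ∧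
      V.length ≤ (z + 1) * ws A W := by
    intro W
    induction W with
    | nil => exact ⟨[], [], by simp, rfl, by simp⟩
    | cons s W ih =>
      obtain ⟨U, V, h1, h2, h3⟩ := ih
      by_cases h : Per A s
      · obtain ⟨R, h4, h5⟩ := hz U h1
        refine ⟨[], s :: (R ++ V), by simp, ?_, ?_⟩
        · rw [List.nil_append, KA.ev_cons, KA.ev_cons, ← h2, A.ev_append, A.ev_append, h4]
        · rw [ws_cons, show om A s = 1 from if_pos h, List.length_cons, List.length_append,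
            Nat.mul_add]
          omega
      · refine ⟨s :: U, V, by simpa [h] using h1, ?_, ?_⟩
        · rw [List.cons_append, KA.ev_cons, KA.ev_cons, h2]
        · rw [ws_cons, Nat.mul_add]
          omega
  refine ⟨z + 1, fun W => ?_⟩
  obtain ⟨U, V, h1, h2, h3⟩ := key W
  obtain ⟨R, h4, h5⟩ := hz U h1
  refine ⟨R ++ V, by rw [← h2, A.ev_append, A.ev_append, h4], ?_⟩
  rw [List.length_append, Nat.mul_add]
  omega

end Pool.Agent.MP_61ef33_al.Mis
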