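import Pool.Agent.MP_61ef33_al.Mis.St

set_option autoImplicit false

namespace Pool.Agent.MP_61ef33_al.Mis

theorem kap_Ren1 {S : Type} {A : KA S} {p : ℕ} {κ : S → ZMod p} {u : ZMod p → Bool}
    (h : Fac A p κ u) (i : ℕ) (s : S) : κ (A.nx^[i] s) = κ s + i := by
  induction i with
  | zero => simp
  | succ i ih => rw [Function.iterate_succ_apply', h.nx, ih]; push_cast; ring

theorem cl_Ren1 {S : Type} {A : KA S} {p : ℕ} {κ : S → ZMod p} {u : ZMod p → Bool}
    (h : Fac A p κ u) {s : S} (hs : κ s = 0) {i : ℕ} (hi : ¬ p ∣ i + 1) :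
    A.cl (A.nx^[i] s) = u i := by
  have e : κ (A.nx^[i] s) = i := by rw [kap_Ren1 h, hs, zero_add]
  have h1 : κ (A.nx^[i] s) ≠ -1 := by
    rw [e]
    intro hc
    apply hi
    rw [← ZMod.natCast_eq_zero_iff]
    push_cast
    rw [hc]; ring
  rw [h.cl _ h1, e]

theorem sRen1 : SRen1 := by
  intro S A p _ κ u h
  obtain ⟨q, hq⟩ : ∃ q, p = q + 1 := ⟨p - 1, by have := NeZero.pos p; omega⟩
  have hq' : p - 1 = q := by omega
  have hp : ∀ x : S, A.nx^[p] x = A.nx (A.nx^[q] x) := fun x => by
    rw [← Function.iterate_succ_apply' A.nx]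
    exact congrArg (fun k => A.nx^[k] x) hq
  let nx' : {s // κ s = 0} → {s // κ s = 0} := fun s =>
    ⟨A.nx^[p] s.1, by rw [kap_Ren1 h, s.2]; simp⟩
  have hit : ∀ (n : ℕ) (s : {s // κ s = 0}), (nx'^[n] s).1 = A.nx^[p * n] s.1 := by
    intro n
    induction n with
    | zero => intro s; simp
    | succ n ih =>
      intro s
      rw [Function.iterate_succ_apply', Nat.mul_succ, Nat.add_comm, Function.iterate_add_apply,
        ← ih]
  refine ⟨⟨⟨A.sg, h.sg⟩, nx', fun s => A.cl (A.nx^[p - 1] s.1), ?_, ?_, ?_, ?_⟩,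
    rfl, fun _ => rfl, fun _ => rfl⟩
  · intro s hs
    have h1 : A.nx^[p] s.1 = A.sg := congrArg Subtype.val hs
    rw [hp] at h1
    exact A.ha _ h1
  · intro s t h1 h2
    have h3 : A.nx^[p] s.1 = A.nx^[p] t.1 := congrArg Subtype.val h1
    rw [hq'] at h2
    have h4 : A.nx^[q] s.1 = A.nx^[q] t.1 := by
      apply A.hb _ _ _ h2
      rw [← hp, ← hp]
      exact h3
    have h5 : ∀ i, i ≤ q → A.nx^[i] s.1 = A.nx^[i] t.1 → s.1 = t.1 := by
      intro i
      induction i with
      | zero => intro _ e; exact e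
      | succ i ih =>
        intro hi e
        apply ih (by omega)
        have hd : ¬ p ∣ i + 1 := fun hd => by
          have := Nat.le_of_dvd (Nat.succ_pos i) hd
          omega
        apply A.hb
        · rw [← Function.iterate_succ_apply' A.nx, ← Function.iterate_succ_apply' A.nx]
          exact e
        · rw [cl_Ren1 h s.2 hd, cl_Ren1 h t.2 hd]
    exact Subtype.ext (h5 q le_rfl h4)
  · intro s
    obtain ⟨k, hk⟩ := A.hc s.1
    have h1 : (k : ZMod p) = 0 := by
      have := kap_Ren1 h k A.sg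
      rw [hk, s.2, h.sg, zero_add] at this
      exact this.symm
    obtain ⟨n, rfl⟩ := (ZMod.natCast_eq_zero_iff k p).1 h1
    exact ⟨n, Subtype.ext (by rw [hit]; exact hk)⟩
  · intro s t h1
    apply Subtype.ext
    apply A.hd
    intro i
    by_cases hd : p ∣ i + 1
    · obtain ⟨m, hm⟩ := hd
      obtain ⟨n, rfl⟩ : ∃ n, m = n + 1 := ⟨m - 1, by
        rcases Nat.eq_zero_or_pos m with h0 | h0
        · subst h0; simp at hm
        · omega⟩
      have e : i = (p - 1) + p * n := by
        rw [Nat.mul_succ] at hm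
        omega
      have h2 := h1 n
      simp only [hit] at h2
      rw [e, Function.iterate_add_apply, Function.iterate_add_apply]
      exact h2
    · rw [cl_Ren1 h s.2 hd, cl_Ren1 h t.2 hd]

end Pool.Agent.MP_61ef33_al.Mis
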