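import Pool.Agent.MP_61ef33_al.Mis.St

set_option autoImplicit false

namespace Pool.Agent.MP_61ef33_al.Mis

open Air

section

variable {S : Type} {A : KA S} {p : ℕ} {κ : S → ZMod p} {u : ZMod p → Bool}
  {A' : KA {s // κ s = 0}}

/-- the image of a word over the cluster of the active state -/
def mp_Ren3 (A : KA S) (κ : S → ZMod p) (i : ℕ) (W : List {s // κ s = 0}) : List S :=
  W.map fun a => A.nx^[i] a.1

theorem kap_Ren3 (hF : Fac A p κ u) (i : ℕ) (s : S) : κ (A.nx^[i] s) = κ s + i := by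
  induction i with
  | zero => simp
  | succ i ih => rw [Function.iterate_succ_apply', hF.nx, ih, Nat.cast_succ, add_assoc]

theorem nxp_Ren3 (hp : 0 < p) (s : S) : A.nx (A.nx^[p - 1] s) = A.nx^[p] s := by
  rw [← Function.iterate_succ_apply' A.nx, Nat.succ_eq_add_one, Nat.sub_add_cancel hp]

theorem isg0_Ren3 (hR : IsRen A p κ A') (a : {s // κ s = 0}) : A.isg a.1 = A'.isg a := by
  rw [Bool.eq_iff_iff, KA.isg_eq_true, KA.isg_eq_true, Subtype.ext_iff, hR.sg]

theorem prev0_Ren3 (hp : 0 < p) (hF : Fac A p κ u) (hR : IsRen A p κ A') (y : Bool)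
    (a : {s // κ s = 0}) : A.prev y a.1 = (A'.prev y a).map fun b => A.nx^[p - 1] b.1 := by
  cases e : A'.prev y a with
  | some b =>
    obtain ⟨h1, h2⟩ := A'.prev_eq_some.1 e
    exact A.prev_eq_some.2 ⟨by rw [nxp_Ren3 hp, ← hR.nx, h1], by rw [← hR.cl, h2]⟩
  | none =>
    refine A.prev_eq_none.2 fun t h1 h2 => ?_
    obtain ⟨k, rfl⟩ := A.hc t
    have h3 : ((k + 1 : ℕ) : ZMod p) = 0 := by
      have := a.2
      rwa [← h1, ← Function.iterate_succ_apply' A.nx, kap_Ren3 hF, hF.sg, zero_add] at this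
    have h4 : p ≤ k + 1 := Nat.le_of_dvd (Nat.succ_pos k) ((ZMod.natCast_eq_zero_iff _ _).1 h3)
    have h5 : κ (A.nx^[k + 1 - p] A.sg) = 0 := by
      rw [kap_Ren3 hF, hF.sg, zero_add, Nat.cast_sub h4, h3, ZMod.natCast_self, sub_zero]
    have h6 : A.nx^[p - 1] (A.nx^[k + 1 - p] A.sg) = A.nx^[k] A.sg := by
      rw [← Function.iterate_add_apply]
      congr 1
      omega
    refine A'.prev_eq_none.1 e ⟨_, h5⟩ (Subtype.ext ?_) ?_
    · rw [hR.nx, ← nxp_Ren3 hp, h6, h1]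
    · rw [hR.cl, h6, h2]

theorem par0_Ren3 (hR : IsRen A p κ A') (W : List {s // κ s = 0}) :
    A.par (mp_Ren3 A κ 0 W) = A'.par W := by
  induction W with
  | nil => rfl
  | cons a W ih =>
    have : mp_Ren3 A κ 0 (a :: W) = a.1 :: mp_Ren3 A κ 0 W := rfl
    rw [this, KA.par_cons, KA.par_cons, ih, isg0_Ren3 hR]

theorem sec0_Ren3 (hp : 0 < p) (hF : Fac A p κ u) (hR : IsRen A p κ A')
    (W : List {s // κ s = 0}) (y : Bool) :
    A.sec (mp_Ren3 A κ 0 W) y = mp_Ren3 A κ (p - 1) (A'.sec W y) := by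
  induction W generalizing y with
  | nil => rfl
  | cons a W ih =>
    have : mp_Ren3 A κ 0 (a :: W) = a.1 :: mp_Ren3 A κ 0 W := rfl
    rw [this, KA.sec_cons, KA.sec_cons, ih, isg0_Ren3 hR, prev0_Ren3 hp hF hR]
    simp only [mp_Ren3, List.map_append]
    cases A'.prev y a <;> rfl

theorem isg1_Ren3 (i : ℕ) (s : S) : A.isg (A.nx^[i + 1] s) = false := by
  rw [Function.iterate_succ_apply', KA.isg_nx]

theorem cl1_Ren3 (hF : Fac A p κ u) {i : ℕ} (hi : i + 1 < p) {t : S} (ht : κ t = i) :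
    A.cl t = u i := by
  rw [hF.cl t, ht]
  rw [ht, Ne, eq_neg_iff_add_eq_zero, ← Nat.cast_succ, ZMod.natCast_eq_zero_iff]
  exact fun h => absurd (Nat.le_of_dvd (Nat.succ_pos i) h) (by omega)

theorem prev1_Ren3 (hF : Fac A p κ u) {i : ℕ} (hi : i + 1 < p) (y : Bool) (a : {s // κ s = 0}) :
    A.prev y (A.nx^[i + 1] a.1) = if u i = y then some (A.nx^[i] a.1) else none := by
  split_ifs with h
  · refine A.prev_eq_some.2 ⟨(Function.iterate_succ_apply' _ _ _).symm, ?_⟩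
    rw [cl1_Ren3 hF hi (by rw [kap_Ren3 hF, a.2, zero_add]), h]
  · refine A.prev_eq_none.2 fun t h1 h2 => h ?_
    have h3 := congrArg κ h1
    rw [hF.nx, kap_Ren3 hF, a.2, zero_add, Nat.cast_succ, add_left_inj] at h3
    rw [← cl1_Ren3 hF hi h3, h2]

theorem par1_Ren3 (i : ℕ) (W : List {s // κ s = 0}) : A.par (mp_Ren3 A κ (i + 1) W) = false := by
  refine A.par_of_not_mem fun hs => ?_
  obtain ⟨a, -, e⟩ := List.mem_map.1 hs
  rw [Function.iterate_succ_apply'] at e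
  exact A.ha _ e

theorem sec1_Ren3 (hF : Fac A p κ u) {i : ℕ} (hi : i + 1 < p) (W : List {s // κ s = 0})
    (y : Bool) : A.sec (mp_Ren3 A κ (i + 1) W) y = if u i = y then mp_Ren3 A κ i W else [] := by
  induction W with
  | nil => simp [mp_Ren3]
  | cons a W ih =>
    have e : ∀ j, mp_Ren3 A κ j (a :: W) = A.nx^[j] a.1 :: mp_Ren3 A κ j W := fun _ => rfl
    rw [e, e, KA.sec_cons, isg1_Ren3, Bool.xor_false, ih, prev1_Ren3 hF hi]
    split_ifs <;> rfl

theorem ev_Ren3 (hp : 0 < p) (hF : Fac A p κ u) (hR : IsRen A p κ A') (v : List Bool) :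
    ∀ i < p, ∀ W W' : List {s // κ s = 0}, A'.ev W = A'.ev W' →
      A.ev (mp_Ren3 A κ i W) v = A.ev (mp_Ren3 A κ i W') v := by
  induction v with
  | nil => intro i _ W W' _; simp
  | cons y v ih =>
    intro i hi W W' h
    rw [KA.ev_apply_cons, KA.ev_apply_cons]
    rcases i with _ | i
    · rw [par0_Ren3 hR, par0_Ren3 hR, sec0_Ren3 hp hF hR, sec0_Ren3 hp hF hR, A'.par_eq_of_ev h,
        ih (p - 1) (by omega) _ _ (A'.sec_eq_of_ev h y)]
    · rw [par1_Ren3, par1_Ren3, sec1_Ren3 hF hi, sec1_Ren3 hF hi]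
      split_ifs
      · rw [ih i (by omega) _ _ h]
      · rfl

theorem lift_Ren3 (W : List S) (h : ∀ a ∈ W, a ∈ {s | κ s = 0}) :
    ∃ W', mp_Ren3 A κ 0 W' = W := by
  induction W with
  | nil => exact ⟨[], rfl⟩
  | cons a W ih =>
    obtain ⟨W', e⟩ := ih fun b hb => h b (List.mem_cons_of_mem _ hb)
    exact ⟨⟨a, h a List.mem_cons_self⟩ :: W', congrArg (List.cons a) e⟩

theorem iter_Ren3 (hR : IsRen A p κ A') (n : ℕ) (a : {s // κ s = 0}) :
    (A'.nx^[n] a).1 = A.nx^[p * n] a.1 := by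
  induction n with
  | zero => rfl
  | succ n ih =>
    rw [Function.iterate_succ_apply', hR.nx, ih, ← Function.iterate_add_apply, Nat.mul_succ,
      add_comm]

theorem ws_Ren3 (hp : 0 < p) (hR : IsRen A p κ A') (W : List {s // κ s = 0}) :
    ws A' W ≤ ws A (mp_Ren3 A κ 0 W) := by
  induction W with
  | nil => exact le_rfl
  | cons a W ih =>
    have : mp_Ren3 A κ 0 (a :: W) = a.1 :: mp_Ren3 A κ 0 W := rfl
    rw [this, ws_cons, ws_cons]
    refine add_le_add ?_ ih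
    unfold om
    split_ifs with h1 h2
    · rfl
    · obtain ⟨n, h3, h4⟩ := h1
      exact absurd ⟨p * n, Nat.mul_pos hp h3, by rw [← iter_Ren3 hR, h4]⟩ h2
    · omega
    · rfl

end

theorem sRen3 : SRen3 := by
  intro S A p _ κ u A' hF hR h ε hε
  have hp : 0 < p := Nat.pos_of_ne_zero (NeZero.ne p)
  choose g hg using fun W : {W : List S // ∀ a ∈ W, a ∈ {s | κ s = 0}} =>
    lift_Ren3 (A := A) W.1 W.2
  refine ((h ε hε).comp fun W => ⟨g W, fun _ _ => Set.mem_univ _⟩).det (fun W W' e => ?_) 0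
    fun W => ?_
  · rw [← hg W, ← hg W']
    exact Equiv.ext fun v => ev_Ren3 hp hF hR v 0 hp _ _ e
  · rw [add_zero, ← hg W]
    exact mul_le_mul_of_nonneg_left (Nat.cast_le.2 (ws_Ren3 hp hR _)) hε.le

end Pool.Agent.MP_61ef33_al.Mis
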