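import Pool.Agent.MP_61ef33_al.Mis.St

set_option autoImplicit false

namespace Pool.Agent.MP_61ef33_al.Mis

theorem bool_Ren4 {a b c : Bool} (h : a ≠ b) (h' : c ≠ b) : a = c := by
  cases a <;> cases b <;> cases c <;> simp_all

theorem kap_Ren4 {S : Type} {A : KA S} {p : ℕ} {κ : S → ZMod p} {u : ZMod p → Bool}
    (hF : Fac A p κ u) (s : S) (m : ℕ) : κ (A.nx^[m] s) = κ s + m := by
  induction m with
  | zero => simp
  | succ m ih => rw [Function.iterate_succ_apply', hF.nx, ih, Nat.cast_succ, add_assoc]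

theorem mono_Ren4 {S : Type} {A : KA S} {p : ℕ} [NeZero p] {κ : S → ZMod p} {u : ZMod p → Bool}
    {pt : S → ℝ} (hF : Fac A p κ u) (hU : UM A pt) (m : ℕ) (hm : m < p) :
    (∀ s t, κ s = 0 → κ t = 0 → pt s < pt t → pt (A.nx^[m] s) < pt (A.nx^[m] t)) ∨
      ∀ s t, κ s = 0 → κ t = 0 → pt s < pt t → pt (A.nx^[m] t) < pt (A.nx^[m] s) := by
  induction m with
  | zero => exact .inl fun _ _ _ _ h => h
  | succ m ih =>
    have hc : ∀ s, κ s = 0 → A.cl (A.nx^[m] s) = u m := fun s hs => by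
      have e : κ (A.nx^[m] s) = m := by rw [kap_Ren4 hF, hs, zero_add]
      rw [hF.cl _ ?_, e]
      rw [e, Ne, ← add_eq_zero_iff_eq_neg, ← Nat.cast_succ, ZMod.natCast_eq_zero_iff]
      exact Nat.not_dvd_of_pos_of_lt m.succ_pos hm
    simp only [Function.iterate_succ_apply']
    by_cases h : u m = A.cl A.sg
    · rcases ih (by omega) with k | k
      · exact .inr fun s t hs ht l => hU.dn _ _ ((hc t ht).trans h) (k s t hs ht l)
      · exact .inl fun s t hs ht l => hU.dn _ _ ((hc s hs).trans h) (k s t hs ht l)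
    · rcases ih (by omega) with k | k
      · exact .inl fun s t hs ht l => hU.up _ _ (hc s hs ▸ h) (k s t hs ht l)
      · exact .inr fun s t hs ht l => hU.up _ _ (hc t ht ▸ h) (k s t hs ht l)

theorem sRen4 : SRen4 := by
  intro S A p _ κ u A' pt hF hR hU
  have hp : p - 1 + 1 = p := Nat.sub_add_cancel NeZero.one_le
  have hn : ∀ s, (A'.nx s).1 = A.nx (A.nx^[p - 1] s.1) := fun s => by
    rw [hR.nx, ← Function.iterate_succ_apply' A.nx, Nat.succ_eq_add_one, hp]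
  have inj : Function.Injective fun s : {s // κ s = 0} => pt s.1 :=
    hU.inj.comp Subtype.val_injective
  have le : ∀ s : {s // κ s = 0}, pt A'.sg.1 ≤ pt s.1 := fun s => hR.sg ▸ hU.le _
  obtain ⟨t₀, h₀⟩ := A'.exists_cl (!A'.cl A'.sg)
  have h₁ : A'.cl t₀ ≠ A'.cl A'.sg := by rw [h₀]; exact Bool.not_ne_self _
  have h₂ : pt A'.sg.1 < pt t₀.1 := (le t₀).lt_of_ne fun e => h₁ (by rw [inj e])
  have tri : ∀ s t : {s // κ s = 0}, A'.cl s ≠ A'.cl t → ¬ pt t.1 < pt s.1 → pt s.1 < pt t.1 :=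
    fun s t h k => (not_lt.1 k).lt_of_ne fun e => h (by rw [inj e])
  simp only [hR.cl] at h₁ tri
  rcases mono_Ren4 hF hU (p - 1) (by omega) with k | k
  · have e : A.cl (A.nx^[p - 1] A'.sg.1) = A.cl A.sg := by_contra fun e =>
      (hU.lt _ _ (bool_Ren4 h₁ (Ne.symm e)) e).not_gt (k _ _ A'.sg.2 t₀.2 h₂)
    refine ⟨inj, le, fun s t a b => ?_, fun s t a b => ?_, fun s t a b => ?_⟩ <;>
      simp only [hR.cl, hn, e] at a b ⊢
    · exact tri s t (a ▸ Ne.symm b) fun l => (hU.lt _ _ a b).not_gt (k _ _ t.2 s.2 l)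
    · exact hU.dn _ _ a (k _ _ s.2 t.2 b)
    · exact hU.up _ _ a (k _ _ s.2 t.2 b)
  · have e : A.cl (A.nx^[p - 1] A'.sg.1) ≠ A.cl A.sg := fun e =>
      (hU.lt _ _ e (e ▸ h₁)).not_gt (k _ _ A'.sg.2 t₀.2 h₂)
    refine ⟨inj, le, fun s t a b => ?_, fun s t a b => ?_, fun s t a b => ?_⟩ <;>
      simp only [hR.cl, hn] at a b ⊢
    · exact tri s t (a ▸ Ne.symm b) fun l =>
        (hU.lt _ _ (bool_Ren4 b (Ne.symm e)) (a ▸ e)).not_gt (k _ _ t.2 s.2 l)
    · exact hU.up _ _ (a ▸ e) (k _ _ s.2 t.2 b)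
    · exact hU.dn _ _ (bool_Ren4 a (Ne.symm e)) (k _ _ s.2 t.2 b)

end Pool.Agent.MP_61ef33_al.Mis
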