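import Pool.Agent.MP_61ef33_al.Mis.St2

set_option autoImplicit false

namespace Pool.Agent.MP_61ef33_al.Mis

open Filter Topology Set

theorem sRenOf : SRenOf := by
  intro c p K W0 hp hK hc h0 hs hf hm hsurj H1 o0 k0 H2 y j j0 j1 hy hy'
  set F := (qf c)^[p] with hF
  have cF : Continuous F := (continuous_qf c).iterate p
  have oF : IsOpenMap F := isOpenMap_iter c p
  have eF : ∀ z, F (-z) = F z := fun z => by
    obtain ⟨q, rfl⟩ : ∃ q, p = q + 1 := ⟨p - 1, by omega⟩
    simp [hF, qf]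
  obtain ⟨u, v, hu, hv, ku, kv, huv⟩ := generalized_tube_lemma hK hK
    (n := ⋂ i ∈ Finset.Ioo 0 p, {q : ℂ × ℂ | (qf c)^[i] q.1 ≠ -(qf c)^[i] q.2})
    (isOpen_biInter_finset fun i _ => isOpen_ne_fun (((continuous_qf c).iterate i).comp continuous_fst)
      (((continuous_qf c).iterate i).comp continuous_snd).neg)
    (fun q hq => mem_iInter₂.2 fun i hi => H1 i (Finset.mem_Ioo.1 hi).1 (Finset.mem_Ioo.1 hi).2
      _ hq.1 _ hq.2)
  have two : ∀ z ∈ u, ∀ z' ∈ v, F z = F z' → z = z' ∨ z = -z' := by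
    intro z hz z' hz' e
    have : ∀ i, i < p → (qf c)^[i + 1] z = (qf c)^[i + 1] z' → z = z' ∨ z = -z' := by
      intro i
      induction i with
      | zero => exact fun _ e => sq_eq_sq_iff_eq_or_eq_neg.1 (add_right_cancel e)
      | succ i ih =>
        intro hi e
        rw [Function.iterate_succ_apply', Function.iterate_succ_apply' (qf c) (i + 1)] at e
        exact ih (by omega) ((sq_eq_sq_iff_eq_or_eq_neg.1 (add_right_cancel e)).resolve_right
          (mem_iInter₂.1 (huv (mk_mem_prod hz hz')) (i + 1) (Finset.mem_Ioo.2 ⟨by omega, hi⟩)))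
    exact this (p - 1) (by omega) (by rwa [Nat.sub_add_cancel (by omega)])
  obtain ⟨O, O1, O2, O3, O4, O5, O6⟩ := exists_nbhds hK ⟨0, h0⟩ hs hf
  obtain ⟨δ1, d1, d2, d3⟩ := O6 (W0 ∩ (u ∩ v)) (o0.inter (hu.inter hv))
    (subset_inter k0 (subset_inter ku kv)) 1 one_pos
  obtain ⟨δ0, d4, d5, d6⟩ := O6 (F '' O δ1) (oF _ (O1 δ1)) (hsurj.trans (image_mono (O2 δ1 d1)))
    δ1 d1
  have cp : IsCompact (closure (O δ1)) := by
    obtain ⟨R, hR⟩ := (O3 δ1 d2.le).2
    exact (isBounded_iff_forall_norm_le.2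
      ⟨R, fun z hz => le_of_not_ge fun h => hR z h hz⟩).isCompact_closure
  obtain ⟨n, hn⟩ := exists_subset_nhds_of_isCompact (U := O δ0)
    (V := fun n : ℕ => ⋂ i ≤ n, F^[i] ⁻¹' closure (O δ1))
    (directed_of_isDirected_le fun m n h => biInter_subset_biInter_left fun i hi => le_trans hi h)
    (fun n => cp.of_isClosed_subset (isClosed_biInter fun i _ => isClosed_closure.preimage
      (cF.iterate i)) fun z hz => mem_iInter₂.1 hz 0 (Nat.zero_le n))
    (fun z hz => (O1 δ0).mem_nhds (O2 δ0 d4 (H2 z fun n =>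
      (d3 (mem_iInter₂.1 (mem_iInter.1 hz n) n le_rfl)).1)))
  let ρ : ℕ → ℝ := fun i => δ1 - (δ1 - δ0) / 2 ^ i
  have r0 : ρ 0 = δ0 := by simp [ρ]
  have r1 : ∀ i, ρ i < δ1 := fun i => by
    have := div_pos (sub_pos.2 d5) (show (0 : ℝ) < 2 ^ i by positivity)
    simp only [ρ]; linarith
  have r2 : ∀ i, ρ i < ρ (i + 1) := fun i => by
    have := div_pos (sub_pos.2 d5) (show (0 : ℝ) < 2 ^ i by positivity)
    simp only [ρ, pow_succ, ← div_div]; linarith
  have r3 : ∀ i, 0 < ρ i := fun i => by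
    have := div_le_self (show 0 ≤ δ1 - δ0 by linarith) (one_le_pow₀ (n := i) (one_le_two (α := ℝ)))
    simp only [ρ]; linarith
  let V : ℕ → Set ℂ := fun n => {z | ∀ i ≤ n, F^[i] z ∈ O (ρ i)}
  have V1 : IsOpen (V n) := by
    simp only [V, ofPred_forall]
    exact (finite_Iic n).isOpen_biInter fun i _ => (O1 _).preimage (cF.iterate i)
  have V2 : K ⊆ V n := fun z hz i _ => O2 _ (r3 i) (hm.iterate i hz)
  have V3 : V n ⊆ O δ0 := fun z hz => r0 ▸ hz 0 (Nat.zero_le _)
  have V4 : ∀ n, Far (V n)ᶜ := by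
    have : ∀ i, Far (F^[i] ⁻¹' (O (ρ i))ᶜ) := fun i => by
      rw [hF, ← Function.iterate_mul]
      exact (O3 _ ((r1 i).le.trans d2.le)).pre_iter c _
    intro n
    induction n with
    | zero => simpa [V, compl_def] using this 0
    | succ n ih =>
      have e : (V (n + 1))ᶜ = (V n)ᶜ ∪ F^[n + 1] ⁻¹' (O (ρ (n + 1)))ᶜ := by
        rw [preimage_compl, ← compl_inter]
        congr 1
        ext z
        exact ⟨fun h => ⟨fun i hi => h i (by omega), h _ le_rfl⟩, fun h i hi =>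
          (Nat.of_le_succ hi).elim (h.1 i) fun e => e ▸ h.2⟩
      exact e ▸ ih.union (this _)
  have sub : O δ0 ⊆ O δ1 := subset_closure.trans (O4 _ _ d5 d2.le)
  let V0 := connectedComponentIn (V n) 0
  have W1 : V0 ⊆ V n := connectedComponentIn_subset _ _
  have W2 : K ⊆ V0 := hc.subset_connectedComponentIn h0 V2
  let U := O δ1 ∩ F ⁻¹' V0
  have U0 : closure U ⊆ closure (O δ1) := closure_mono inter_subset_left
  have U1 : closure U ⊆ V n := by
    intro z hz
    have a1 : ∀ i ≤ n, F^[i + 1] z ∈ O (ρ (i + 1)) := fun i hi =>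
      O4 _ _ (r2 i) ((r1 _).le.trans d2.le) (map_mem_closure (cF.iterate (i + 1)) hz
        fun w hw => W1 hw.2 i hi)
    intro i hi
    cases i with
    | succ i => exact a1 i (by omega)
    | zero =>
      refine r0 ▸ hn (mem_iInter₂.2 fun i hi => ?_)
      cases i with
      | zero => exact U0 hz
      | succ i => exact subset_closure (O4 _ _ (r1 _) d2.le (subset_closure (a1 i (by omega))))
  have U2 : K ⊆ U := fun z hz => ⟨O2 _ d1 hz, W2 (hm hz)⟩
  have U3 : IsCompact (closure U) := cp.of_isClosed_subset isClosed_closure U0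
  have U4 : closure U ⊆ O δ1 := U1.trans (V3.trans sub)
  have two' : ∀ z ∈ O δ1, ∀ z' ∈ O δ1, F z = F z' → z = z' ∨ z = -z' := fun z hz z' hz' =>
    two z (d3 (subset_closure hz)).2.1 z' (d3 (subset_closure hz')).2.2
  have U5 : IsPreconnected U := pre_conn oF (O1 _) (D := closure U)
    (fun s hs => ((U3.inter_right hs).image cF).isClosed) subset_closure U4
    isPreconnected_connectedComponentIn (W2 (hm h0)) isPreconnected_singleton
    (singleton_subset_iff.2 (U2 h0)) fun z hz e => by simpa using two' z hz 0 (O2 _ d1 h0) e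
  have oV : IsOpen V0 := V1.connectedComponentIn
  have fV : Far V0ᶜ := (V4 n).comp V1 0
  refine ⟨p, F, U, V0, hp, rfl, Far.disc ?_ ((O1 _).inter (oV.preimage cF)) ⟨⟨0, U2 h0⟩, U5⟩,
    fV.disc oV ⟨⟨0, W2 h0⟩, isPreconnected_connectedComponentIn⟩,
    U5.closure.subset_connectedComponentIn (subset_closure (U2 h0)) U1, fun z hz => hz.2,
    fun C hC h => ?_, fun y hy => ?_, fun k => U2 (hm.iterate k h0), y, j, j0, j1,
    fun k => U2 (hm.iterate k hy), fun k => U2 (hm.iterate k hy')⟩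
  · rw [compl_inter]
    exact (O3 _ d2.le).union (fV.pre_iter c p)
  · have : U ∩ F ⁻¹' C = closure U ∩ F ⁻¹' C := subset_antisymm
      (inter_subset_inter_left _ subset_closure) fun z hz => ⟨⟨U4 hz.1, hC hz.2⟩, hz.2⟩
    exact this ▸ U3.inter_right (h.isClosed.preimage cF)
  · obtain ⟨z, hz, rfl⟩ := d6 (subset_closure (V3 (W1 hy)))
    refine ⟨z, subset_antisymm (fun w hw => two' w hw.1.1 z hz hw.2) ?_⟩
    rintro w (rfl | rfl)
    · exact ⟨⟨hz, hy⟩, rfl⟩
    · exact ⟨⟨O5 _ d2.le z hz, by rwa [mem_preimage, eF]⟩, eF z⟩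

end Pool.Agent.MP_61ef33_al.Mis
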