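import Pool.Agent.MP_61ef33_al.Mis.St

set_option autoImplicit false

namespace Pool.Agent.MP_61ef33_al.Mis

theorem max_Two {S : Type} [Finite S] {A : KA S} {pt : S → ℝ} (hU : UM A pt) (s : S) :
    pt s ≤ pt (A.nx A.sg) := by
  classical
  have : Nonempty S := ⟨s⟩
  obtain ⟨M, hM⟩ := Finite.exists_max pt
  refine (hM s).trans ?_
  have h1 := Nat.find_spec (A.hc M)
  have h2 := fun k => Nat.find_min (A.hc M) (m := k)
  generalize Nat.find (A.hc M) = k at h1 h2
  rcases k with _ | k
  · rw [← h1]; exact hU.le _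
  rw [Function.iterate_succ_apply'] at h1
  have h3 := h2 k (Nat.lt_succ_self k)
  generalize A.nx^[k] A.sg = t at h1 h3
  by_cases h : A.cl t = A.cl A.sg
  · rw [← h1]
    rcases (hU.le t).eq_or_lt with e | e
    · rw [hU.inj e]
    · exact (hU.dn _ _ h e).le
  · have h4 := hU.up t M h (lt_of_le_of_ne (hM t) fun e => h3 (hU.inj e))
    rw [h1] at h4
    exact absurd (hM _) (not_le.2 h4)

theorem cl_Two {S : Type} [Finite S] {A : KA S} {pt : S → ℝ} (hU : UM A pt) :
    A.cl (A.nx A.sg) ≠ A.cl A.sg := fun h => by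
  obtain ⟨t, ht⟩ := A.exists_cl (!A.cl A.sg)
  exact absurd (max_Two hU t) (not_le.2 (hU.lt _ _ h (by rw [ht]; simp)))

theorem fix_Two {S : Type} [Finite S] {A : KA S} {pt : S → ℝ} (hU : UM A pt)
    (hev : ∀ q, A.cl (A.nx^[2 * q] A.sg) = A.cl A.sg) {α : S} (h1 : A.nx α = α)
    (h2 : A.cl α = A.cl A.sg) : T3 A := by
  classical
  have h3 := Nat.find_spec (A.hc α)
  have h4 := fun k => Nat.find_min (A.hc α) (m := k)
  generalize Nat.find (A.hc α) = k at h3 h4
  have h5 : A.nx^[2 * (k + 1)] A.sg = α := by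
    rw [show 2 * (k + 1) = k + 2 + k by ring, Function.iterate_add_apply, h3,
      Function.iterate_fixed h1]
  rcases k with _ | k
  · exact absurd (h1.trans h3.symm) (A.ha α)
  rw [Function.iterate_succ_apply'] at h3
  have h6 := h4 k (Nat.lt_succ_self k)
  generalize A.nx^[k] A.sg = t at h3 h6
  have h7 : A.cl t ≠ A.cl A.sg := fun h => h6 (A.hb _ _ (h3.trans h1.symm) (h.trans h2.symm))
  by_cases h : t = A.nx A.sg
  · subst h
    exact ⟨by rw [h3, h1], by rw [h3]; exact h6, by rw [h3, h2]⟩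
  have h8 : ∀ q, pt α < pt (A.nx^[2 * (q + 1)] A.sg) := by
    intro q
    induction q with
    | zero =>
      rw [← h3]
      exact hU.up _ _ h7 (lt_of_le_of_ne (max_Two hU t) fun e => h (hU.inj e))
    | succ q ih =>
      have a := hU.dn _ _ (hev (q + 1)) ih
      rw [h1] at a
      have b := hU.dn _ _ h2 a
      rw [h1] at b
      rwa [show 2 * (q + 1 + 1) = 2 * (q + 1) + 1 + 1 by ring, Function.iterate_succ_apply',
        Function.iterate_succ_apply']
  have h9 := h8 (k + 1)
  rw [h5] at h9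
  exact absurd h9 (lt_irrefl _)

theorem sTwo : STwo := by
  intro S _ A pt p hU hp hC
  obtain rfl : p = 2 := by
    by_contra h
    exact cl_Two hU (hC 1 0 (fun k => by have := Nat.le_of_dvd (by omega) k; omega)
      fun k => by have := Nat.le_of_dvd (by omega) k; omega)
  have hev : ∀ q, A.cl (A.nx^[2 * q] A.sg) = A.cl A.sg := fun q =>
    hC (2 * q) 0 (by omega) (by omega)
  have key : ∀ i d, d % 2 = 1 → A.nx^[d + i] A.sg = A.nx^[i] A.sg → T3 A := fun i d hd h => by
    have h1 : ∀ m, A.cl (A.nx^[m + i] A.sg) = A.cl A.sg := fun m => by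
      rcases Nat.even_or_odd' (m + i) with ⟨q, e | e⟩
      · rw [e, hev]
      · rw [Function.iterate_add_apply, ← h, ← Function.iterate_add_apply,
          show m + (d + i) = 2 * (q + (d + 1) / 2) by omega, hev]
    refine fix_Two hU hev (α := A.nx^[i] A.sg) (A.hd _ _ fun m => ?_) (by simpa using h1 0)
    rw [← Function.iterate_succ_apply, ← Function.iterate_add_apply, ← Function.iterate_add_apply,
      h1, h1]
  by_cases h : ∀ i j, A.nx^[i] A.sg = A.nx^[j] A.sg → i ≡ j [MOD 2]
  · exact Or.inl ⟨1, le_rfl, fun i j hi hj _ => hC i j hi hj, h⟩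
  push Not at h
  obtain ⟨i, j, h1, h2⟩ := h
  unfold Nat.ModEq at h2
  rcases le_total i j with e | e
  · exact Or.inr (key i (j - i) (by omega) (by rw [Nat.sub_add_cancel e, h1]))
  · exact Or.inr (key j (i - j) (by omega) (by rw [Nat.sub_add_cancel e, h1]))

end Pool.Agent.MP_61ef33_al.Mis
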