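import Pool.Agent.MP_61ef33_al.Mis.Asm
import Pool.Agent.MP_61ef33_al.Mis.Conv
import Pool.Agent.MP_61ef33_al.Mis.Cut
import Pool.Agent.MP_61ef33_al.Mis.Dbl
import Pool.Agent.MP_61ef33_al.Mis.Die
import Pool.Agent.MP_61ef33_al.Mis.Ext
import Pool.Agent.MP_61ef33_al.Mis.Fac
import Pool.Agent.MP_61ef33_al.Mis.HX
import Pool.Agent.MP_61ef33_al.Mis.Kap
import Pool.Agent.MP_61ef33_al.Mis.Meet
import Pool.Agent.MP_61ef33_al.Mis.Mix
import Pool.Agent.MP_61ef33_al.Mis.Pair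
import Pool.Agent.MP_61ef33_al.Mis.Prim
import Pool.Agent.MP_61ef33_al.Mis.Prop
import Pool.Agent.MP_61ef33_al.Mis.Real
import Pool.Agent.MP_61ef33_al.Mis.Red
import Pool.Agent.MP_61ef33_al.Mis.Ren1
import Pool.Agent.MP_61ef33_al.Mis.Ren2
import Pool.Agent.MP_61ef33_al.Mis.Ren3
import Pool.Agent.MP_61ef33_al.Mis.Ren4
import Pool.Agent.MP_61ef33_al.Mis.RenOf
import Pool.Agent.MP_61ef33_al.Mis.Two

set_option autoImplicit false

namespace Pool.Agent.MP_61ef33_al.Mis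

open Polynomial

theorem mix_all : SMix := sMix (sExt sPair)

theorem cplx_all (c : ℂ) (hfin : (postcrit (X ^ 2 + C c)).Finite)
    (h0 : (0 : ℂ) ∉ postcrit (X ^ 2 + C c)) (hc : c ≠ -2) (hr : ¬ Meeting c) (t : ℂ)
    (ht : t ∉ postcrit (X ^ 2 + C c)) : IntermediateGrowth (IMG (X ^ 2 + C c) t) :=
  cplx_Asm (sMeet sRenOf)
    (fun S _ A => bad_Asm (sKap sPrim) sRen1 sRen2 sRen3 sProp (sCut mix_all sDie Ctr.sOdd)
      (sHX Ctr.sSm sRed) (sConv Ctr.sRate sRed) S A) c hfin h0 hc hr t ht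

theorem real_all (c : ℝ) (hfin : (postcrit (X ^ 2 + C (c : ℂ))).Finite) (h0 : c ≠ 0)
    (hc : c ≠ -2) (t : ℂ) (ht : t ∉ postcrit (X ^ 2 + C (c : ℂ))) :
    IntermediateGrowth (IMG (X ^ 2 + C (c : ℂ)) t) ↔ ¬ Doubled c :=
  real_Asm (sReal R.link_st) sDbl sFac
    (fun S _ A => um_Asm (sKap sPrim) sRen1 sRen2 sRen3 sRen4 sProp (sCut mix_all sDie Ctr.sOdd)
      (sHX Ctr.sSm sRed) (sConv Ctr.sRate sRed) sTwo S A) c hfin h0 hc t ht

end Pool.Agent.MP_61ef33_al.Mis
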