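import Pool.Agent.MP_61ef33_al.Mis.St3

set_option autoImplicit false

namespace Pool.Agent.MP_61ef33_al.Mis

open Air Ctr

section

variable {S : Type} {A : KP S} {p : ℕ} {κ : S → ZMod p} {u : ZMod p → Bool}
  {A' : KP {s // κ s = κ A.sg}}

theorem kap_BadP (hF : FacP A p κ u) (k : ℕ) : κ (A.nx^[k] A.sg) = (k : ZMod p) := by
  induction k with
  | zero => simpa using hF.sg
  | succ k ih => rw [Function.iterate_succ_apply', hF.nx, ih]; push_cast; rfl

theorem it_BadP (hR : A.IsRen (fun s t => κ s = κ t) p A') (a : ℕ) : (A'.nx^[a] A'.sg).1 = A.nx^[p * a] A.sg := by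
  induction a with
  | zero => simpa using hR.sg
  | succ a ih =>
    rw [Function.iterate_succ_apply', hR.nx, ih, ← Function.iterate_add_apply]
    congr 1
    ring

theorem nu_BadP (hp : 0 < p) (hR : A.IsRen (fun s t => κ s = κ t) p A') {i a : ℕ} (h : i + 1 = p * (a + 1)) :
    nuP A i = nuP A' a := by
  unfold nuP
  rw [hR.cl, it_BadP hR, ← Function.iterate_add_apply]
  have : p - 1 + p * a = i := by
    rw [mul_add, mul_one] at h
    omega
  rw [this]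

theorem nu_u_BadP (hF : FacP A p κ u) {i : ℕ} (h : ¬ p ∣ i + 1) : nuP A i = u (i : ZMod p) := by
  unfold nuP
  have e := kap_BadP hF i
  rw [hF.cl _ ?_, e]
  rw [e]
  intro h'
  apply h
  rw [← ZMod.natCast_eq_zero_iff]
  push_cast
  rw [h']
  ring

theorem lift_BadP (hp : 0 < p) (hF : FacP A p κ u) (hR : A.IsRen (fun s t => κ s = κ t) p A') {q g : ℕ}
    (h : ∀ i j, ¬ q ∣ i + 1 → ¬ q ∣ j + 1 → i ≡ j [MOD g] → nuP A' i = nuP A' j) (i j : ℕ)
    (hi : ¬ p * q ∣ i + 1) (hj : ¬ p * q ∣ j + 1) (e : i ≡ j [MOD p * g]) :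
    nuP A i = nuP A j := by
  have e1 : i ≡ j [MOD p] := e.of_mul_right g
  have e2 : i + 1 ≡ j + 1 [MOD p] := e1.add_right 1
  have e3 : p ∣ i + 1 ↔ p ∣ j + 1 := e2.dvd_iff dvd_rfl
  by_cases hd : p ∣ i + 1
  · obtain ⟨a, ha⟩ := hd
    obtain ⟨b, hb⟩ := e3.1 ⟨a, ha⟩
    obtain ⟨a, rfl⟩ : ∃ a', a = a' + 1 := ⟨a - 1, by
      rcases a with _ | a
      · simp at ha
      · rfl⟩
    obtain ⟨b, rfl⟩ : ∃ b', b = b' + 1 := ⟨b - 1, by
      rcases b with _ | b
      · simp at hb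
      · rfl⟩
    rw [nu_BadP hp hR ha, nu_BadP hp hR hb]
    refine h a b (fun d => hi ?_) (fun d => hj ?_) ?_
    · rw [ha]; exact Nat.mul_dvd_mul_left p d
    · rw [hb]; exact Nat.mul_dvd_mul_left p d
    · have e4 : i + 1 ≡ j + 1 [MOD p * g] := e.add_right 1
      rw [ha, hb] at e4
      exact Nat.ModEq.add_right_cancel' 1 (Nat.ModEq.mul_left_cancel' hp.ne' e4)
  · rw [nu_u_BadP hF hd, nu_u_BadP hF fun d => hd (e3.2 d),
      (ZMod.natCast_eq_natCast_iff i j p).2 e1]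

end

theorem sBadP : SBadP := by
  intro S A p _ κ u A' hF hR
  have hp : 0 < p := Nat.pos_of_ne_zero (NeZero.ne p)
  rintro ⟨q, g, g0, gq, gd, h', h⟩
  refine ⟨p * q, p * g, Nat.mul_pos hp g0, Nat.mul_lt_mul_of_pos_left gq hp,
    Nat.mul_dvd_mul_left p gd, fun i j e => ?_, lift_BadP hp hF hR h⟩
  have e1 : i ≡ j [MOD p] := by
    rw [← ZMod.natCast_eq_natCast_iff, ← kap_BadP hF, ← kap_BadP hF, e]
  have a1 : (p - 1) * i + i = p * i := by
    obtain ⟨k, rfl⟩ : ∃ k, p = k + 1 := ⟨p - 1, by omega⟩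
    rw [Nat.add_sub_cancel]
    ring
  have d : p ∣ (p - 1) * i + j :=
    ((e1.add_left ((p - 1) * i)).dvd_iff dvd_rfl).1 ⟨i, a1⟩
  obtain ⟨b, hb⟩ := d
  have e2 : A'.nx^[i] A'.sg = A'.nx^[b] A'.sg := by
    apply Subtype.ext
    rw [it_BadP hR, it_BadP hR, ← a1, ← hb, Function.iterate_add_apply,
      Function.iterate_add_apply, e]
  have e3 := (h' i b e2).mul_left' p
  rw [← a1, ← hb] at e3
  exact Nat.ModEq.add_left_cancel' _ e3

end Pool.Agent.MP_61ef33_al.Mis
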