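import Pool.Agent.MP_61ef33_al.Mis.St3
import Pool.Agent.MP_61ef33_al.Mis.Cut

set_option autoImplicit false

namespace Pool.Agent.MP_61ef33_al.Mis

open Air Ctr

theorem isg_CutP {S : Type} {A : KP S} {p : ℕ} {κ : S → ZMod p} {u : ZMod p → Bool}
    (hA : FacP A p κ u) {s : S × Bool} (h : κ s.1 ≠ 0) : A.ga.isg s = false := by
  rw [A.isg_eq, decide_eq_false_iff_not]
  exact fun e => h (by rw [e, hA.sg])

theorem cs_CutP {S : Type} {A : KP S} {p : ℕ} {κ : S → ZMod p} {u : ZMod p → Bool}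
    (hA : FacP A p κ u) {F : ZMod p → Bool} (hF : F 0 = false) {xs ys : List Bool} {L : ℕ}
    (a1 : xs.length = L + 1) (a2 : xs.foldl (step u) F = F) (b1 : ys.length = L + 1 + 1)
    (b2 : ys.foldl (step u) F = F) : ∃ (I : Type) (_ : Fintype I) (C : A.ga.CS I),
      (∀ a, C.om a = 1) ∧ (∀ a, C.F C.i1 a = F (κ a.1)) ∧
      ∀ k, k ≤ L → C.x (C.pa.symm^[k + 1] C.i1) = ys.getD k false := by
  classical
  let pa : ZMod (L + 1) ⊕ ZMod (L + 1 + 1) ≃ ZMod (L + 1) ⊕ ZMod (L + 1 + 1) :=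
    Equiv.sumCongr (Equiv.subRight 1) (Equiv.subRight 1)
  have it0 : ∀ (m : ℕ) k, pa^[m] (Sum.inl k) = Sum.inl (k - m) := by
    intro m
    induction m with
    | zero => simp
    | succ m ih => intro k; rw [Function.iterate_succ_apply', ih]; simp [pa, sub_sub]
  have it1 : ∀ (m : ℕ) k, pa^[m] (Sum.inr k) = Sum.inr (k - m) := by
    intro m
    induction m with
    | zero => simp
    | succ m ih => intro k; rw [Function.iterate_succ_apply', ih]; simp [pa, sub_sub]
  have it2 : ∀ (m : ℕ) k, pa.symm^[m] (Sum.inr k) = Sum.inr (k + m) := by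
    intro m
    induction m with
    | zero => simp
    | succ m ih => intro k; rw [Function.iterate_succ_apply', ih]; simp [pa, add_assoc]
  let F0 : ZMod (L + 1) ⊕ ZMod (L + 1 + 1) → ZMod p → Bool :=
    Sum.elim (fun k => (xs.take k.val).foldl (step u) F) fun k => (ys.take k.val).foldl (step u) F
  let x : ZMod (L + 1) ⊕ ZMod (L + 1 + 1) → Bool :=
    Sum.elim (fun k => xs.getD (k - 1).val false) fun k => ys.getD (k - 1).val false
  have h0 : ∀ i, F0 i 0 = false := by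
    rintro (k | k) <;> exact walk_zero u _ hF
  have h1 : ∀ i, F0 i = step u (F0 (pa i)) (x i) := by
    rintro (k | k)
    · exact cyc_Cut u a1 a2 k
    · exact cyc_Cut u b1 b2 k
  refine ⟨ZMod (L + 1) ⊕ ZMod (L + 1 + 1), inferInstance, ⟨fun i a => F0 i (κ a.1), pa, x,
    fun i => F0 (pa i) 1 && (u 0 == x i), fun _ => 1, fun i s hs => ?_,
    fun i y s t h => ?_, fun _ => le_rfl, fun s => ?_, Sum.inl 0, Sum.inr 0, Sum.inr 1, L + 1,
    by simp [F0], by simp [pa], ?_, ?_⟩, fun _ => rfl, fun a => by simp [F0], fun k hk => ?_⟩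
  · rw [A.isg_eq, decide_eq_true_eq] at hs
    rw [hs, hA.sg, h0]
  · obtain ⟨e1, -, e3⟩ := A.prev_eq_some.1 h
    have e4 : κ t.1 + 1 = κ s.1 := by rw [← e1, hA.nx]
    rw [h1 i, step, e4]
    by_cases hs : κ s.1 = 0
    · rw [hs, h0, Bool.false_and, Bool.false_and]
    · rw [isg_CutP hA hs, Bool.false_and, Bool.xor_false] at e3
      rw [← hA.cl t.1 fun q => hs (by rw [← e4, q, neg_add_cancel]), e3]
  · simp only [KP.ga]
    generalize A.cl (A.nx.symm s.1) = c
    generalize (@decide (s.1 = A.sg) (Classical.propDecidable _) && s.2) = d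
    cases c <;> cases d <;> simp
  · rw [it0]; simp
  · rw [it1]
    congr 1
    have : ((L + 1 + 1 : ℕ) : ZMod (L + 1 + 1)) = 0 := ZMod.natCast_self _
    push_cast at this ⊢
    linear_combination -this
  · change x (pa.symm^[k + 1] (Sum.inr 0)) = _
    rw [it2]
    have : (0 + ((k + 1 : ℕ) : ZMod (L + 1 + 1)) - 1).val = k := by
      rw [zero_add, Nat.cast_succ, add_sub_cancel_right, ZMod.val_cast_of_lt (by omega)]
    simp only [x, Sum.elim_inr, this]

theorem sCutP (hMix : SMix) (hDie : SDie) (hOdd : Ctr.SOdd) : SCutP := by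
  intro S A p _ κ u hA hP hp
  obtain ⟨k, xs0, k1, k2, k3, k4⟩ := hDie p u hP hp
  obtain ⟨N0, hN⟩ := hMix p u hP (by omega)
  have nz : ∀ m : ℕ, 1 ≤ m → m < p → (m : ZMod p) ≠ 0 := fun m a b e =>
    absurd (Nat.le_of_dvd a ((ZMod.natCast_eq_zero_iff m p).1 e)) (by omega)
  have c0 : (cut : ZMod p → Bool) 0 = false := by simp [cut]
  obtain ⟨xs, a1, a2⟩ := hN (N0 + k + 1) (by omega) _ c0
    ⟨((1 : ℕ) : ZMod p), decide_eq_true (nz 1 le_rfl (by omega))⟩
  obtain ⟨ys, b1, b2⟩ := hN (N0 + 1) (by omega) _ (walk_zero u _ c0) k4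
  obtain ⟨I, hI, C, c1, c2, c3⟩ := cs_CutP hA c0
    (ys := xs0 ++ [!u (-((k + 1 : ℕ) : ZMod p))] ++ ys) a1 a2 (by simp [b1, k3]; omega)
    (by rw [List.foldl_append, b2])
  have hisg : ∀ (m : ℕ) (s : S × Bool), 1 ≤ m → m ≤ k → κ s.1 + m = 0 → A.ga.isg s = false :=
    fun m s a b h => isg_CutP hA fun e => nz m a (by omega) (by rwa [e, zero_add] at h)
  refine ⟨I, hI, C, c1, c2, hOdd _ I A.ga C k (fun m s => κ s.1 + m = 0) k1
    (fun s h => by simpa [c2, cut] using h) (fun m y s t h e => ?_) hisg fun s h => ?_⟩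
  · rw [← (A.prev_eq_some.1 e).1, hA.nx] at h
    rw [← h]
    push_cast
    ring
  rw [c3 k (by omega), List.getD_append _ _ _ _ (by simp [k3]),
    List.getD_append_right _ _ _ _ k3.le, k3, Nat.sub_self, List.getD_cons_zero,
    Option.eq_none_iff_forall_ne_some]
  intro t e
  obtain ⟨e1, -, e3⟩ := A.prev_eq_some.1 e
  rw [hisg k s k1 le_rfl h, Bool.false_and, Bool.xor_false] at e3
  rw [← e1, hA.nx] at h
  have r : κ t.1 = -((k + 1 : ℕ) : ZMod p) := by
    push_cast
    linear_combination h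
  rw [hA.cl t.1 fun q => nz k k1 k2 (by linear_combination h - q), r] at e3
  simp at e3

end Pool.Agent.MP_61ef33_al.Mis
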