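import Pool.Agent.MP_61ef33_al.Mis.St3

set_option autoImplicit false

namespace Pool.Agent.MP_61ef33_al.Mis

open Air Ctr

theorem neg_KapP (p j : ℕ) : (j : ZMod p) = -1 ↔ p ∣ j + 1 := by
  rw [← ZMod.natCast_eq_zero_iff, Nat.cast_add, Nat.cast_one, add_eq_zero_iff_eq_neg]

theorem mul_KapP {ν : ℕ → Bool} {p : ℕ} (h : ∀ j, ¬ p ∣ j + 1 → ν (j + p) = ν j) (i : ℕ)
    (hi : ¬ p ∣ i + 1) (m : ℕ) : ν (i + p * m) = ν i := by
  induction m with
  | zero => simp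
  | succ m ih =>
    rw [Nat.mul_succ, ← add_assoc, h _ fun e => hi ?_, ih]
    rw [add_right_comm] at e
    exact (Nat.dvd_add_left (Dvd.intro m rfl)).1 e

theorem cong_KapP {ν : ℕ → Bool} {p : ℕ} (h : ∀ j, ¬ p ∣ j + 1 → ν (j + p) = ν j) (i j : ℕ)
    (e : (i : ZMod p) = j) (hi : ¬ p ∣ i + 1) : ν i = ν j := by
  have e' : i % p = j % p := (ZMod.natCast_eq_natCast_iff i j p).1 e
  have h1 : ¬ p ∣ i % p + 1 := fun a => hi (by
    rw [← neg_KapP] at a ⊢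
    rwa [ZMod.natCast_mod] at a)
  have a := mul_KapP h _ h1 (i / p)
  have b := mul_KapP h _ h1 (j / p)
  rw [Nat.mod_add_div] at a
  rw [e', Nat.mod_add_div] at b
  rw [a, b, e']

theorem ex_KapP {S : Type} [Finite S] (A : KP S) (hS : Nontrivial S) :
    ∃ p, 2 ≤ p ∧ (∀ i j, A.nx^[i] A.sg = A.nx^[j] A.sg → i ≡ j [MOD p]) ∧
      ∀ j, ¬ p ∣ j + 1 → nuP A (j + p) = nuP A j := by
  have h0 : 0 < Function.minimalPeriod A.nx A.sg :=
    Function.minimalPeriod_pos_of_mem_periodicPts (A.nx.injective.mem_periodicPts A.sg)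
  have h1 : Function.minimalPeriod A.nx A.sg ≠ 1 := fun e => by
    have hf := Function.minimalPeriod_eq_one_iff_isFixedPt.1 e
    have ha : ∀ s, s = A.sg := fun s => by
      obtain ⟨k, hk⟩ := A.hc s
      rw [← hk]
      exact hf.iterate k
    obtain ⟨a, b, hab⟩ := hS
    exact hab ((ha a).trans (ha b).symm)
  refine ⟨Function.minimalPeriod A.nx A.sg, by omega, fun i j h => ?_, fun j _ => ?_⟩
  · refine (Function.iterate_eq_iterate_iff_of_lt_minimalPeriod (f := A.nx) (x := A.sg)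
      (Nat.mod_lt i h0) (Nat.mod_lt j h0)).1 ?_
    rw [Function.iterate_mod_minimalPeriod_eq, Function.iterate_mod_minimalPeriod_eq, h]
  · rw [nuP, nuP, Function.iterate_add_minimalPeriod_eq]

theorem sKapP (hP : SPrim) : SKapP := by
  intro S _ A hN
  classical
  have hS := ex_KapP A hN
  obtain ⟨p, ⟨p2, h2, hp⟩, hmin⟩ : ∃ p, (2 ≤ p ∧
      (∀ i j, A.nx^[i] A.sg = A.nx^[j] A.sg → i ≡ j [MOD p]) ∧
      ∀ j, ¬ p ∣ j + 1 → nuP A (j + p) = nuP A j) ∧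
      ∀ g < p, ¬ (2 ≤ g ∧ (∀ i j, A.nx^[i] A.sg = A.nx^[j] A.sg → i ≡ j [MOD g]) ∧
        ∀ j, ¬ g ∣ j + 1 → nuP A (j + g) = nuP A j) :=
    ⟨Nat.find hS, Nat.find_spec hS, fun g hg => Nat.find_min hS hg⟩
  have : NeZero p := ⟨by omega⟩
  by_cases hC : ∀ i j, ¬ p ∣ i + 1 → ¬ p ∣ j + 1 → nuP A i = nuP A j
  · exact Or.inl ⟨p, 1, one_pos, by omega, one_dvd p, h2, fun i j hi hj _ => hC i j hi hj⟩
  have hu : ∀ j, ¬ p ∣ j + 1 → nuP A j = nuP A (j : ZMod p).val := fun j hj =>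
    cong_KapP hp _ _ (ZMod.natCast_zmod_val _).symm hj
  have hg : ∀ g j, g ∣ p → ¬ g ∣ j + 1 → ¬ p ∣ j + 1 ∧ ¬ p ∣ j + g + 1 := fun g j h1 h2 =>
    ⟨fun a => h2 (h1.trans a), fun a => h2 (by
      have := h1.trans a
      rw [add_right_comm] at this
      exact (Nat.dvd_add_left dvd_rfl).1 this)⟩
  choose κ hκ using A.hc
  have h3 : ∀ k, (κ (A.nx^[k] A.sg) : ZMod p) = k := fun k =>
    (ZMod.natCast_eq_natCast_iff _ _ p).2 (h2 _ _ (hκ _))
  refine Or.inr ⟨p, this, fun s => κ s, fun a => nuP A a.val, ?_, ⟨?_, fun s => ?_, fun s hs => ?_⟩,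
    hP p _ (fun g g3 g2 g1 => ?_) ?_⟩
  · by_contra n
    obtain rfl : p = 2 := by omega
    exact hC fun i j hi hj =>
      cong_KapP hp i j ((ZMod.natCast_eq_natCast_iff' i j 2).2 (by omega)) hi
  · simpa using h3 0
  · have := h3 (κ s + 1)
    rw [Function.iterate_succ_apply', hκ] at this
    simpa using this
  · have := hu (κ s) fun a => hs ((neg_KapP p _).2 a)
    rw [← this, nuP, hκ]
  · by_contra n
    refine hmin g g2 ⟨g3, fun i j h => (h2 i j h).of_dvd g1, fun j hj => ?_⟩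
    rw [hu _ (hg g j g1 hj).1, hu _ (hg g j g1 hj).2]
    by_contra m
    exact n ⟨j, hj, m⟩
  · by_contra n
    refine hC fun i j hi hj => ?_
    rw [hu i hi, hu j hj]
    by_contra m
    exact n ⟨i, j, fun a => hi ((neg_KapP p i).1 a), fun a => hj ((neg_KapP p j).1 a), m⟩

end Pool.Agent.MP_61ef33_al.Mis
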