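import Pool.Agent.MP_61ef33_al.Mis.St3

set_option autoImplicit false

namespace Pool.Agent.MP_61ef33_al.Mis

open Air Ctr

theorem it_Model (n k : ℕ) :
    (Equiv.addRight (1 : ZMod (n + 1)))^[k] 0 = (k : ZMod (n + 1)) := by
  induction k with
  | zero => simp
  | succ k ih =>
    rw [Function.iterate_succ_apply', ih]
    push_cast
    rfl

/-- the model automaton -/
def A_Model (v : List Bool) : KP (ZMod (v.length + 1)) where
  sg := 0
  nx := Equiv.addRight 1
  cl a := if a = -1 then true else v.getD a.val false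
  hc s := ⟨s.val, by rw [it_Model]; exact ZMod.natCast_zmod_val s⟩

theorem neg_Model (n : ℕ) : ((n : ℕ) : ZMod (n + 1)) = -1 := by
  have : ((n + 1 : ℕ) : ZMod (n + 1)) = 0 := ZMod.natCast_self _
  push_cast at this
  exact eq_neg_of_add_eq_zero_left this

theorem ne_Model {n i : ℕ} (h : ¬ n + 1 ∣ i + 1) : ((i : ℕ) : ZMod (n + 1)) ≠ -1 := fun e => by
  apply h
  rw [← ZMod.natCast_eq_zero_iff]
  push_cast
  rw [e]
  ring

theorem cl_Model (v : List Bool) {i : ℕ} (h : ¬ v.length + 1 ∣ i + 1) :
    (A_Model v).cl (i : ZMod (v.length + 1)) = v.getD (i % (v.length + 1)) false := by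
  change (if _ then _ else _) = _
  rw [if_neg (ne_Model h), ZMod.val_natCast]

theorem act_Model (v w : List Bool) : ∀ i ≤ v.length,
    (A_Model v).ga.act w ((i : ZMod (v.length + 1)), false) = kact v w i := by
  induction w with
  | nil => intro i _; cases i <;> rfl
  | cons y w ih =>
    intro i hi
    rcases i with _ | i
    · have e1 : (A_Model v).nx.symm ((0 : ℕ) : ZMod (v.length + 1)) = (v.length : ℕ) := by
        rw [Equiv.symm_apply_eq, neg_Model]
        change _ = (-1 : ZMod (v.length + 1)) + 1
        simp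
      have e2 : (A_Model v).cl (v.length : ℕ) = true := by
        change (if _ then _ else _) = _
        rw [if_pos (neg_Model _)]
      have e3 : ((0 : ℕ) : ZMod (v.length + 1)) = (A_Model v).sg := Nat.cast_zero
      have := ih v.length le_rfl
      simp only [GA.act, KP.ga, kact, e1, e2, Bool.and_false, Bool.xor_false] at this ⊢
      rw [@decide_eq_true _ (Classical.propDecidable _) e3]
      cases y
      · simp
      · simpa using this
    · have e1 : (A_Model v).nx.symm ((i + 1 : ℕ) : ZMod (v.length + 1)) = (i : ℕ) := by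
        rw [Equiv.symm_apply_eq]
        push_cast
        rfl
      have e2 : (A_Model v).cl (i : ℕ) = v.getD i false := by
        rw [cl_Model v fun h => by have := Nat.le_of_dvd (by omega) h; omega,
          Nat.mod_eq_of_lt (by omega)]
      have e3 : ¬ ((i + 1 : ℕ) : ZMod (v.length + 1)) = (A_Model v).sg := fun h => by
        have := Nat.le_of_dvd (by omega) ((ZMod.natCast_eq_zero_iff _ _).1 h)
        omega
      have := ih i (by omega)
      simp only [GA.act, KP.ga, kact, e1, e2, Bool.and_false, Bool.xor_false] at this ⊢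
      rw [@decide_eq_false _ (Classical.propDecidable _) e3]
      by_cases h : y = v.getD i false
      · rw [if_pos h, if_pos h.symm]
        simpa using this
      · rw [if_neg h, if_neg fun e => h e.symm]
        simp

theorem G_Model (v : List Bool) : (A_Model v).ga.G = KGroup v := by
  have k : ∀ s : ZMod (v.length + 1), (A_Model v).ga.gen (s, false) ∈ KGroup v := fun s =>
    Subgroup.subset_closure ⟨s.val, Nat.lt_succ_iff.1 (ZMod.val_lt s), fun w => by
      rw [← act_Model v w _ (Nat.lt_succ_iff.1 (ZMod.val_lt s)), ZMod.natCast_zmod_val]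
      rfl⟩
  apply le_antisymm
  · refine (Subgroup.closure_le _).2 ?_
    rintro _ ⟨⟨s, e⟩, rfl⟩
    cases e
    · exact k s
    · exact (KGroup v).inv_mem (k s)
  · refine (Subgroup.closure_le _).2 ?_
    rintro π ⟨i, hi, h⟩
    refine Subgroup.subset_closure ⟨((i : ZMod (v.length + 1)), false), Equiv.ext fun w => ?_⟩
    rw [h, ← act_Model v w i hi]
    rfl

theorem nu_Model (v : List Bool) {i : ℕ} (h : ¬ v.length + 1 ∣ i + 1) :
    nuP (A_Model v) i = v.getD (i % (v.length + 1)) false := by
  rw [← cl_Model v h, ← it_Model]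
  rfl

theorem eq_Model (v : List Bool) (i j : ℕ) :
    (A_Model v).nx^[i] (A_Model v).sg = (A_Model v).nx^[j] (A_Model v).sg ↔
      i ≡ j [MOD v.length + 1] := by
  rw [← ZMod.natCast_eq_natCast_iff, ← it_Model, ← it_Model]
  rfl

theorem sModel : SModel := by
  intro v
  refine ⟨A_Model v, G_Model v, ?_, ?_⟩
  · rintro ⟨p, g, g0, gp, gd, h1, h2⟩
    refine ⟨p, g, g0, gp, gd, ?_, fun i j hi hj a b e => ?_⟩
    · exact (Nat.modEq_zero_iff_dvd).1
        (h1 _ 0 ((eq_Model v _ _).2 (Nat.modEq_zero_iff_dvd.2 dvd_rfl)))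
    · have := h2 i j a b e
      rwa [nu_Model v fun h => by have := Nat.le_of_dvd (by omega) h; omega,
        nu_Model v fun h => by have := Nat.le_of_dvd (by omega) h; omega,
        Nat.mod_eq_of_lt (by omega), Nat.mod_eq_of_lt (by omega)] at this
  · rintro ⟨p, g, g0, gp, gd, pd, h⟩
    refine ⟨p, g, g0, gp, gd, fun i j e => ((eq_Model v i j).1 e).of_dvd pd,
      fun i j a b e => ?_⟩
    have m : ∀ i, i % (v.length + 1) ≡ i [MOD p] := fun i => (Nat.mod_modEq i _).of_dvd pd
    have d : ∀ i, ¬ p ∣ i + 1 → ¬ p ∣ i % (v.length + 1) + 1 := fun i a c =>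
      a ((((m i).add_right 1).dvd_iff dvd_rfl).1 c)
    have l : ∀ i, ¬ p ∣ i + 1 → i % (v.length + 1) < v.length := fun i a => by
      have h1 := Nat.mod_lt i (show 0 < v.length + 1 by omega)
      have h2 : i % (v.length + 1) ≠ v.length := fun c => d i a (by rw [c]; exact pd)
      omega
    rw [nu_Model v fun c => a (pd.trans c), nu_Model v fun c => b (pd.trans c)]
    exact h _ _ (l i a) (l j b) (d i a) (d j b)
      ((((m i).of_dvd gd).trans e).trans ((m j).of_dvd gd).symm)

end Pool.Agent.MP_61ef33_al.Mis
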