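import Pool.Agent.MP_61ef33_al.Mis.St

set_option autoImplicit false

namespace Pool.Agent.MP_61ef33_al.Mis

/-- push-forward of a set of positions -/
def T_Pair {p : ℕ} (u : ZMod p → Bool) (Y : Set (ZMod p)) : Set (ZMod p) :=
  {a | a - 1 ∈ Y ∨ (a = 0 ∧ ∃ b ∈ Y, ∃ c ∈ Y, u b ≠ u c)}

/-- the cut is not constant on the set -/
def Sep_Pair {p : ℕ} (F : ZMod p → Bool) (Y : Set (ZMod p)) : Prop :=
  ∃ a ∈ Y, ∃ b ∈ Y, F a ≠ F b

theorem step_Pair {p : ℕ} (u : ZMod p → Bool) {F : ZMod p → Bool} {Y : Set (ZMod p)}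
    (h0 : F 0 = false) (h : Sep_Pair F (T_Pair u Y)) : ∃ x, Sep_Pair (step u F x) Y := by
  obtain ⟨a, ha, b, hb, hab⟩ := h
  by_cases hc : ∃ b ∈ Y, ∃ c ∈ Y, u b ≠ u c
  · have k : ∀ a ∈ T_Pair u Y, F a = true → ∃ x, Sep_Pair (step u F x) Y := by
      intro a ha hF
      have h1 : a - 1 ∈ Y := ha.resolve_right fun h => by rw [h.1, h0] at hF; cases hF
      obtain ⟨b, hb, hub⟩ : ∃ b ∈ Y, u b ≠ u (a - 1) := by
        obtain ⟨b, hb, c, hc, hbc⟩ := hc
        by_cases e : u b = u (a - 1)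
        · exact ⟨c, hc, fun e' => hbc (e.trans e'.symm)⟩
        · exact ⟨b, hb, e⟩
      refine ⟨u (a - 1), a - 1, h1, b, hb, ?_⟩
      have e' : (u b == u (a - 1)) = false := by simpa using hub
      simp only [step, ne_eq, Bool.xor_left_inj]
      simp [hF, e']
    cases hF : F a with
    | true => exact k a ha hF
    | false => exact k b hb (by rw [hF] at hab; simpa using hab)
  · have h1 : a - 1 ∈ Y := ha.resolve_right fun h => hc h.2
    have h2 : b - 1 ∈ Y := hb.resolve_right fun h => hc h.2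
    have e : u (b - 1) = u (a - 1) := by
      by_contra e
      exact hc ⟨_, h2, _, h1, e⟩
    refine ⟨u (a - 1), a - 1, h1, b - 1, h2, ?_⟩
    simpa [step, e] using hab

theorem walk_Pair {p : ℕ} (u : ZMod p → Bool) (r t : ZMod p) (N : ℕ) :
    ∀ F : ZMod p → Bool, F 0 = false → Sep_Pair F ((T_Pair u)^[N] {r, t}) →
      ∃ xs : List Bool, xs.length = N ∧ xs.foldl (step u) F t ≠ xs.foldl (step u) F r := by
  induction N with
  | zero =>
    rintro F - ⟨a, ha, b, hb, hab⟩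
    refine ⟨[], rfl, ?_⟩
    simp only [Function.iterate_zero_apply, Set.mem_insert_iff, Set.mem_singleton_iff] at ha hb
    rcases ha with rfl | rfl <;> rcases hb with rfl | rfl
    · exact absurd rfl hab
    · exact hab.symm
    · exact hab
    · exact absurd rfl hab
  | succ N ih =>
    intro F h0 h
    rw [Function.iterate_succ_apply'] at h
    obtain ⟨x, hx⟩ := step_Pair u h0 h
    obtain ⟨xs, h1, h2⟩ := ih _ (walk_zero u [x] h0) hx
    exact ⟨x :: xs, by rw [List.length_cons, h1], h2⟩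

theorem shift_Pair {p : ℕ} (u : ZMod p → Bool) (Y : Set (ZMod p)) (j : ℕ) :
    ∀ a ∈ Y, a + (j : ZMod p) ∈ (T_Pair u)^[j] Y := by
  induction j with
  | zero => intro a ha; simpa using ha
  | succ j ih =>
    intro a ha
    rw [Function.iterate_succ_apply']
    refine Or.inl ?_
    have e : a + ((j + 1 : ℕ) : ZMod p) - 1 = a + (j : ZMod p) := by push_cast; ring
    rw [e]
    exact ih a ha

theorem grow_Pair {p : ℕ} [NeZero p] {u : ZMod p → Bool} (hu : Prim u) {Y : Set (ZMod p)}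
    (h1 : Y.Nontrivial) (h2 : Y ≠ Set.univ) :
    ∃ j, ((T_Pair u)^[j] Y).Nontrivial ∧ Y.ncard < ((T_Pair u)^[j] Y).ncard := by
  obtain ⟨k, hk, a, ha, b, hb, hab⟩ := hu Y h1 h2
  have e : ((k.val : ℕ) : ZMod p) = k := ZMod.natCast_zmod_val k
  have hs : (fun c => c + ((k.val + 1 : ℕ) : ZMod p)) '' Y ⊂ (T_Pair u)^[k.val + 1] Y := by
    refine Set.ssubset_iff_exists.2 ⟨?_, 0, ?_, ?_⟩
    · rintro _ ⟨c, hc, rfl⟩
      exact shift_Pair u Y _ c hc
    · rw [Function.iterate_succ_apply']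
      refine Or.inr ⟨rfl, _, shift_Pair u Y k.val a ha, _, shift_Pair u Y k.val b hb, ?_⟩
      rwa [e]
    · rintro ⟨c, hc, h⟩
      refine hk c hc ?_
      have h' : c + ((k.val + 1 : ℕ) : ZMod p) = 0 := h
      rw [Nat.cast_add, e, Nat.cast_one] at h'
      linear_combination h'
  refine ⟨k.val + 1, (h1.image (add_left_injective _)).mono hs.1, ?_⟩
  rw [← Set.ncard_image_of_injective Y (add_left_injective ((k.val + 1 : ℕ) : ZMod p))]
  exact Set.ncard_lt_ncard hs (Set.toFinite _)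

theorem full_Pair {p : ℕ} [NeZero p] {u : ZMod p → Bool} (hu : Prim u) {Y : Set (ZMod p)}
    (h1 : Y.Nontrivial) : ∃ N, (T_Pair u)^[N] Y = Set.univ := by
  have k : ∀ n : ℕ, ∃ N, (T_Pair u)^[N] Y = Set.univ ∨
      (((T_Pair u)^[N] Y).Nontrivial ∧ n ≤ ((T_Pair u)^[N] Y).ncard) := by
    intro n
    induction n with
    | zero => exact ⟨0, Or.inr ⟨h1, Nat.zero_le _⟩⟩
    | succ n ih =>
      obtain ⟨N, hN⟩ := ih
      by_cases h : (T_Pair u)^[N] Y = Set.univ
      · exact ⟨N, Or.inl h⟩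
      · obtain ⟨h2, h3⟩ := hN.resolve_left h
        obtain ⟨j, h4, h5⟩ := grow_Pair hu h2 h
        rw [← Function.iterate_add_apply] at h4 h5
        exact ⟨j + N, Or.inr ⟨h4, by omega⟩⟩
  obtain ⟨N, hN | hN⟩ := k ((Set.univ : Set (ZMod p)).ncard + 1)
  · exact ⟨N, hN⟩
  · have := Set.ncard_le_ncard (Set.subset_univ ((T_Pair u)^[N] Y)) (Set.toFinite _)
    omega

theorem sPair : SPair := by
  intro p _ u hu r t hrt
  obtain ⟨N0, h⟩ := full_Pair hu (Set.nontrivial_pair hrt)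
  refine ⟨N0, fun N hN F h0 ⟨a, ha⟩ => ?_⟩
  have e : (T_Pair u)^[N] {r, t} = Set.univ := by
    obtain ⟨k, rfl⟩ := Nat.exists_eq_add_of_le' hN
    rw [Function.iterate_add_apply, h]
    exact Function.iterate_fixed (Set.eq_univ_of_forall fun c => Or.inl (Set.mem_univ _)) k
  obtain ⟨xs, h1, h2⟩ := walk_Pair u r t N F h0
    (by rw [e]; exact ⟨a, Set.mem_univ _, 0, Set.mem_univ _, by rw [ha, h0]; decide⟩)
  exact ⟨xs, h1, fun b hb => by rw [Set.mem_singleton_iff.1 hb]; exact h2⟩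

end Pool.Agent.MP_61ef33_al.Mis
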