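import Pool.Agent.MP_61ef33_al.Mis.St3

set_option autoImplicit false

namespace Pool.Agent.MP_61ef33_al.Mis

open Air Ctr

theorem it_RenP {S : Type} {A : KP S} {p : ℕ} {κ : S → ZMod p} {u : ZMod p → Bool}
    (h : FacP A p κ u) (m : ℕ) (s : S) : κ (A.nx^[m] s) = κ s + m := by
  induction m with
  | zero => simp
  | succ m ih => rw [Function.iterate_succ_apply', h.nx, ih, Nat.cast_succ, add_assoc]

theorem sRenP : SRenP := by
  intro S _ A p _ κ u h
  have hz : κ A.z = -1 := by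
    have h1 := h.nx A.z
    rw [A.nx_z, h.sg] at h1
    exact eq_neg_of_add_eq_zero_left h1.symm
  have hd : ∀ m : ℕ, κ (A.nx^[m] A.sg) = κ A.sg → p ∣ m := fun m hm => by
    rw [it_RenP h, add_eq_left] at hm
    exact (ZMod.natCast_eq_zero_iff m p).1 hm
  have hp : ∀ s, κ (A.nx^[p] s) = κ s := fun s => by
    rw [it_RenP h, ZMod.natCast_self, add_zero]
  refine ⟨⟨⟨fun _ => rfl, Eq.symm, Eq.trans⟩, fun s t e => by rw [h.nx, h.nx, e],
    fun s t e n => ?_⟩, ⟨NeZero.pos p, hp _,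
      fun m h0 h1 e => absurd (Nat.le_of_dvd h0 (hd m e)) (not_le.2 h1)⟩, ?_⟩
  · rw [hz] at n
    rw [h.cl s n, h.cl t (e ▸ n), e]
  let f : {s // κ s = κ A.sg} → {s // κ s = κ A.sg} := fun s =>
    ⟨A.nx^[p] s.1, (hp _).trans s.2⟩
  have hf : Function.Injective f := fun s t e =>
    Subtype.ext (A.nx.injective.iterate p (congrArg Subtype.val e))
  have hq : ∀ (q : ℕ) (s : {s // κ s = κ A.sg}), (f^[q] s).1 = A.nx^[p * q] s.1 := by
    intro q s
    induction q with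
    | zero => rfl
    | succ q ih =>
      rw [Function.iterate_succ_apply', Nat.mul_succ, add_comm, Function.iterate_add_apply, ← ih]
  refine ⟨⟨⟨A.sg, rfl⟩, Equiv.ofBijective f (Finite.injective_iff_bijective.1 hf),
    fun s => A.cl (A.nx^[p - 1] s.1), fun s => ?_⟩, rfl, fun _ => rfl, fun _ => rfl⟩
  obtain ⟨k, hk⟩ := A.hc s.1
  obtain ⟨q, rfl⟩ := hd k (hk ▸ s.2)
  exact ⟨q, Subtype.ext ((hq _ _).trans hk)⟩

end Pool.Agent.MP_61ef33_al.Mis
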