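import Pool.Agent.MP_61ef33_al.Mis.Asm3
import Pool.Agent.MP_61ef33_al.Mis.BadP
import Pool.Agent.MP_61ef33_al.Mis.CutP
import Pool.Agent.MP_61ef33_al.Mis.Die
import Pool.Agent.MP_61ef33_al.Mis.Ext
import Pool.Agent.MP_61ef33_al.Mis.FacP
import Pool.Agent.MP_61ef33_al.Mis.KapP
import Pool.Agent.MP_61ef33_al.Mis.Mix
import Pool.Agent.MP_61ef33_al.Mis.Model
import Pool.Agent.MP_61ef33_al.Mis.Pair
import Pool.Agent.MP_61ef33_al.Mis.Prim
import Pool.Agent.MP_61ef33_al.Mis.PropP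
import Pool.Agent.MP_61ef33_al.Mis.RenP

set_option autoImplicit false

namespace Pool.Agent.MP_61ef33_al.Mis

theorem kn_all (v : List Bool) (hv : v ≠ []) :
    (IntermediateGrowth (KGroup v) ↔ ¬ Satellite v) ∧ (Satellite v → FreePair (KGroup v)) :=
  kn_Asm3 sModel sFacP
    (fun S _ A => sub_Asm3 (sKapP sPrim) sRenP sBadP sPropP
      (sCutP (sMix (sExt sPair)) sDie Ctr.sOdd) _ S A rfl) v hv

end Pool.Agent.MP_61ef33_al.Mis
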