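import Pool.Agent.MP_61ef33_al.Mis.St2
import Pool.Agent.MP_61ef33_al.R.All
import Pool.Agent.MP_61ef33_al.Ctr.All

/- Assembly of the steps. -/

set_option autoImplicit false

namespace Pool.Agent.MP_61ef33_al.Mis

open Polynomial Air Ctr

theorem tower_Asm (hKap : SKap) (h1 : SRen1) (h3 : SRen3) (hProp : SProp) (hCut : SCut)
    (hHX : SHX) (hConv : SConv) (P : ∀ S : Type, KA S → Prop)
    (hP : ∀ (S : Type) (A : KA S) (p : ℕ) [NeZero p] (κ : S → ZMod p) (u : ZMod p → Bool)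
      (A' : KA {s // κ s = 0}), Fac A p κ u → IsRen A p κ A' → P S A → P _ A')
    (hC : ∀ (S : Type) [Finite S] (A : KA S) (p : ℕ), 2 ≤ p → Cst A p → P S A → SubW A) (n : ℕ) :
    ∀ (S : Type) [Finite S] (A : KA S), Nat.card S = n → P S A → Sub A Set.univ := by
  induction n using Nat.strong_induction_on with
  | _ n ih =>
  intro S _ A hn hA
  obtain ⟨c1, c2, -⟩ := hConv S A
  by_cases hs : A.Star
  swap
  · exact c2 (c1 (A.subexp hs))
  obtain ⟨p, _, p2, h | ⟨p3, κ, u, hF, hu⟩⟩ := hKap S A hs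
  · exact c2 (c1 (hC S A p p2 h hA))
  obtain ⟨A', r⟩ := h1 S A p κ u hF
  have k1 : κ (A.nx A.sg) ≠ 0 := by
    rw [hF.nx, hF.sg, zero_add]
    have : Fact (1 < p) := ⟨by omega⟩
    exact one_ne_zero
  have hlt : Nat.card {s // κ s = 0} < n := hn ▸ Finite.card_subtype_lt k1
  have s0 := h3 S A p κ u A' hF r (ih _ hlt _ A' rfl (hP S A p κ u A' hF r hA))
  obtain ⟨I, _, C, a1, a2, a3⟩ := hCut S A p κ u hF hu p3
  obtain ⟨x1, x2⟩ := hHX S I A C (fun s => cut (κ s)) a1 a2 fun b =>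
    hProp S A p κ u hF hu s0 {a | cut a = b} fun e => by
      have b1 : κ A.sg ∈ {a | cut a = b} := e ▸ Set.mem_univ _
      have b2 : κ (A.nx A.sg) ∈ {a | cut a = b} := e ▸ Set.mem_univ _
      have b3 := b1.trans b2.symm
      simp [cut, k1, hF.sg] at b3
  refine c2 fun ε hε => ?_
  have := ta_all S I (gA A) C a3 x1 x2 ε hε
  rwa [show (gA A).ev = A.ev from funext (ev_eq A)] at this

theorem t3_Asm {S : Type} [Finite S] (A : KA S) (h : T3 A) : SubW A :=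
  have h' : R.I3.T3 A := ⟨h.1, h.2.1, h.2.2⟩
  h'.C3.subexp h'.pos_inj (h'.rate_inc R.core_st)

theorem cplx_Asm (hM : SMeet)
    (hB : ∀ (S : Type) [Finite S] (A : KA S), ¬ Bad A → SubW A)
    (c : ℂ) (hfin : (postcrit (X ^ 2 + C c)).Finite) (h0 : (0 : ℂ) ∉ postcrit (X ^ 2 + C c))
    (hc : c ≠ -2) (hr : ¬ Meeting c) (t : ℂ) (ht : t ∉ postcrit (X ^ 2 + C c)) :
    IntermediateGrowth (IMG (X ^ 2 + C c) t) := by
  obtain ⟨B, rfl, R0, hR⟩ := exists_BD c (by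
    rw [postcrit_quad] at hfin
    obtain ⟨M, hM⟩ := isBounded_iff_forall_norm_le.1 hfin.isBounded
    exact ⟨M, fun k => hM _ ⟨k, rfl⟩⟩)
  have hP : postcrit (X ^ 2 + C B.c) = B.P := postcrit_quad B.c
  rw [hP] at hfin h0 ht
  have M := B.mis_of_finite hfin h0
  have := hfin.to_subtype
  have := Fintype.ofFinite B.P
  obtain ⟨θ, hθ⟩ := M.lands_c hfin hR
  obtain ⟨A, _, _, ⟨e, he⟩, hA⟩ := M.link hθ
  obtain ⟨E⟩ := hA _ (eval_quad B.c) hP t ht
  refine IntermediateGrowth.of_equiv E.symm (R.I3.interm A (B.three_le M hc) (hB _ A ?_))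
  rintro ⟨p, g, g0, g1, g2, h2⟩
  refine hr (hM B M R0 hR θ hθ p g g0 g1 g2 (fun i j hi hj hij => ?_) fun h => ?_)
  · have := h2 i j hi hj hij
    rw [nu, nu, he, he] at this
    simpa using this
  · obtain ⟨q, rfl⟩ : ∃ q, p = q + 1 := ⟨p - 1, by omega⟩
    have := A.hd (A.nx^[q + 1] A.sg) A.sg fun i => by rw [← Function.iterate_add_apply, he, he, h]
    rw [Function.iterate_succ_apply'] at this
    exact A.ha _ this

theorem real_Asm (hR : SReal) (hD : SDbl) (hF : SFac)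
    (hU : ∀ (S : Type) [Finite S] (A : KA S) (pt : S → ℝ), UM A pt → ¬ E A → SubW A)
    (c : ℝ) (hfin : (postcrit (X ^ 2 + C (c : ℂ))).Finite) (h0 : c ≠ 0) (hc : c ≠ -2) (t : ℂ)
    (ht : t ∉ postcrit (X ^ 2 + C (c : ℂ))) :
    IntermediateGrowth (IMG (X ^ 2 + C (c : ℂ)) t) ↔ ¬ Doubled c := by
  by_cases hz : (0 : ℂ) ∈ postcrit (X ^ 2 + C (c : ℂ))
  · have hz' := hz
    rw [postcrit_quad] at hz'
    obtain ⟨k, hk⟩ := hz'
    simp only [R.iter_Thresh, Complex.ofReal_eq_zero] at hk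
    have hn : (fun x : ℝ => x ^ 2 + c)^[k + 1] 0 = 0 := by
      rw [Function.iterate_succ_apply]
      simpa using hk
    rw [← hD.2 c (k + 1) (by omega) hn]
    exact ctr_all c (k + 1) (by omega) hn h0 t ht
  obtain ⟨S, _, A, pt, a1, a2, a3, a4, a5, a6⟩ := hR c hfin hz hc
  obtain ⟨e⟩ := a6 t ht
  rw [← hD.1 c S A pt a2.inj a3 a4 a5]
  refine ⟨fun hG hE => ?_, fun hE =>
    IntermediateGrowth.of_equiv e.symm (R.I3.interm A a1 (hU S A pt a2 hE))⟩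
  obtain ⟨p, _, g, κ, u, b1, b2, b3⟩ := hF S A hE
  exact R.notInt_st.1 _ (R.free_st S A p g κ u b1 b2.sg b2.nx b2.cl b3)
    (IntermediateGrowth.of_equiv e hG)

theorem bad_Asm (hKap : SKap) (h1 : SRen1) (h2 : SRen2) (h3 : SRen3) (hProp : SProp)
    (hCut : SCut) (hHX : SHX) (hConv : SConv) (S : Type) [Finite S] (A : KA S) (h : ¬ Bad A) :
    SubW A :=
  (hConv S A).2.2 (tower_Asm hKap h1 h3 hProp hCut hHX hConv (fun _ A => ¬ Bad A)
    (fun S A p _ κ u A' a b c d => c ((h2 S A p κ u A' a b).1 d))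
    (fun _ _ _ p a b c => absurd ⟨p, 1, one_pos, a, one_dvd p, fun i j x y _ => b i j x y⟩ c)
    _ S A rfl h)

theorem um_Asm (hKap : SKap) (h1 : SRen1) (h2 : SRen2) (h3 : SRen3) (h4 : SRen4) (hProp : SProp)
    (hCut : SCut) (hHX : SHX) (hConv : SConv) (hTwo : STwo) (S : Type) [Finite S] (A : KA S)
    (pt : S → ℝ) (hU : UM A pt) (h : ¬ E A) : SubW A :=
  (hConv S A).2.2 (tower_Asm hKap h1 h3 hProp hCut hHX hConv
    (fun S A => (∃ pt : S → ℝ, UM A pt) ∧ ¬ E A)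
    (fun S A p _ κ u A' a b ⟨⟨pt, c⟩, c'⟩ =>
      ⟨⟨_, h4 S A p κ u A' pt a b c⟩, fun d => c' ((h2 S A p κ u A' a b).2 d)⟩)
    (fun S _ A p a b ⟨⟨pt, c⟩, c'⟩ => t3_Asm A ((hTwo S A pt p c a b).resolve_left c'))
    _ S A rfl ⟨⟨pt, hU⟩, h⟩)

end Pool.Agent.MP_61ef33_al.Mis
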