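import Pool.Agent.MP_61ef33_al.Mis.St3
import Pool.Agent.MP_61ef33_al.Ctr.All

/- Assembly of the steps, periodic case. -/

set_option autoImplicit false

namespace Pool.Agent.MP_61ef33_al.Mis

open Air Ctr

theorem sub_Asm3 (hKap : SKapP) (hRen : SRenP) (hBad : SBadP) (hProp : SPropP) (hCut : SCutP)
    (n : ℕ) : ∀ (S : Type) [Finite S] (A : KP S), Nat.card S = n → ¬ BadP A →
      A.Sub Set.univ := by
  induction n using Nat.strong_induction_on with
  | _ n ih =>
  intro S _ A hn hA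
  rcases subsingleton_or_nontrivial S with hS | hS
  · exact sBase S A hS
  obtain ⟨p, _, κ, u, p3, hF, hu⟩ := (hKap S A hS).resolve_left hA
  obtain ⟨r1, r2, A', r⟩ := hRen S A p κ u hF
  have k1 : κ (A.nx A.sg) ≠ κ A.sg := by
    rw [hF.nx, hF.sg, zero_add]
    have : Fact (1 < p) := ⟨by omega⟩
    exact one_ne_zero
  have hlt : Nat.card {s // κ s = κ A.sg} < n := hn ▸ Finite.card_subtype_lt k1
  have s0 := sRen3 S A _ p A' r1 r2 r (ih _ hlt _ A' rfl fun e => hA (hBad S A p κ u A' hF r e))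
  obtain ⟨I, _, C, a1, a2, a3⟩ := hCut S A p κ u hF hu p3
  obtain ⟨x1, x2⟩ := Ctr.sHX sSm S I A C (fun s => cut (κ s)) a1 a2 fun b =>
    hProp S A p κ u hF hu s0 {a | cut a = b} fun e => by
      have b1 : κ A.sg ∈ {a | cut a = b} := e ▸ Set.mem_univ _
      have b2 : κ (A.nx A.sg) ∈ {a | cut a = b} := e ▸ Set.mem_univ _
      have b3 := b1.trans b2.symm
      rw [hF.sg] at k1
      simp [cut, k1, hF.sg] at b3
  exact fun ε hε => (ta_all _ I A.ga C a3 x1 x2 ε hε).comp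
    fun W : {W : List (S × Bool) // ∀ a ∈ W, a.1 ∈ Set.univ} => W.1

theorem kn_Asm3 (hM : SModel) (hF : SFacP)
    (hS : ∀ (S : Type) [Finite S] (A : KP S), ¬ BadP A → A.Sub Set.univ)
    (v : List Bool) (hv : v ≠ []) :
    (IntermediateGrowth (KGroup v) ↔ ¬ Satellite v) ∧ (Satellite v → FreePair (KGroup v)) := by
  obtain ⟨A, h1, h2⟩ := hM v
  have : Fact (1 < v.length + 1) := ⟨by have := List.length_pos_iff.2 hv; omega⟩
  rw [← h1, ← h2]
  have f : BadP A → FreePair A.ga.G := fun h => by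
    obtain ⟨p, _, g, κ, u, a1, a2, a3⟩ := hF _ A h
    exact sFree _ A p g κ u a1 a2.sg a2.nx a2.cl a3
  exact ⟨⟨fun hG h => sNot _ (f h) hG, fun h => sIntG _ A.ga (fun ε hε => (hS _ A h ε hε).comp
    fun W : List (ZMod (v.length + 1) × Bool) => ⟨W, fun _ _ => trivial⟩)
    (sPoly _ A inferInstance)⟩, f⟩

end Pool.Agent.MP_61ef33_al.Mis
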