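import Pool.Agent.MP_61ef33_al.Mis.St3
import Pool.Agent.MP_61ef33_al.Ctr.Prop

set_option autoImplicit false

namespace Pool.Agent.MP_61ef33_al.Mis

open Air

theorem kap_PropP {S : Type} (A : Ctr.KP S) {p : ℕ} {κ : S → ZMod p} {u : ZMod p → Bool}
    (hF : FacP A p κ u) (i : ℕ) (s : S) : κ (A.nx^[i] s) = κ s + i := by
  induction i with
  | zero => simp
  | succ i ih => rw [Function.iterate_succ_apply', hF.nx, ih, Nat.cast_succ, add_assoc]

theorem sPropP : SPropP := by
  intro S A p _ κ u hF hP hS X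
  induction hn : X.ncard using Nat.strong_induction_on generalizing X with
  | _ n ih =>
    intro hX
    rcases X.subsingleton_or_nontrivial with h | h
    · rcases X.eq_empty_or_nonempty with rfl | ⟨a, ha⟩
      · exact Ctr.mono_Prop A (Set.empty_subset _) hS
      · refine Ctr.iter_Prop A a.val (Ctr.mono_Prop A (fun t ht => ?_) hS)
        have h1 : κ (A.nx^[a.val] t) = a := h ht ha
        rw [kap_PropP A hF, ZMod.natCast_zmod_val] at h1
        exact (add_eq_right.1 h1).trans hF.sg.symm
    · obtain ⟨k, h1, a, ha, b, hb, hab⟩ := hP X h hX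
      have h2 : ∀ t, κ (A.nx^[(-k - 1).val] t) = κ t + (-k - 1) := fun t => by
        rw [kap_PropP A hF, ZMod.natCast_zmod_val]
      refine Ctr.iter_Prop A (-k - 1).val (Ctr.split_Prop A (fun e => h1 _ e ?_) fun y => ?_)
      · rw [h2, hF.sg]
        ring
      obtain ⟨c, hc, hcy⟩ : ∃ c ∈ X, u (c + k) ≠ y := by
        by_cases e : u (a + k) = y
        · exact ⟨b, hb, fun e' => hab (e.trans e'.symm)⟩
        · exact ⟨a, ha, e⟩
      refine Ctr.mono_Prop A (fun t ht => ?_) (ih _ ?_ {d | d - k ∈ X ∧ u d = y} rfl fun e => ?_)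
      · have h3 : κ t - k ∈ X := by
          have h4 : κ (A.nx^[(-k - 1).val] (A.nx t)) ∈ X := ht.1
          rwa [h2, hF.nx, show κ t + 1 + (-k - 1) = κ t - k by ring] at h4
        exact ⟨h3, (hF.cl t (by simpa using h1 _ h3)).symm.trans ht.2⟩
      · rw [← hn, ← Set.ncard_image_of_injective _ (sub_left_injective (b := k))]
        refine Set.ncard_lt_ncard ⟨?_, fun q => ?_⟩ (Set.toFinite _)
        · rintro _ ⟨d, hd, rfl⟩
          exact hd.1
        · obtain ⟨d, hd, rfl⟩ := q hc
          exact hcy (by simpa using hd.2)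
      · have h3 : (-1 : ZMod p) ∈ {d | d - k ∈ X ∧ u d = y} := e ▸ Set.mem_univ _
        exact h1 _ h3.1 (by ring)

end Pool.Agent.MP_61ef33_al.Mis
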