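import Pool.Agent.MP_61ef33_al.Ctr.St
import Pool.Agent.MP_61ef33_al.Defs5
import Pool.Agent.MP_61ef33_al.Defs6

/- Renormalization towers of strictly preperiodic kneading automata: definitions, statements. -/

set_option autoImplicit false

namespace Pool.Agent.MP_61ef33_al.Mis

open Air Ctr

section

variable {S : Type} (A : KA S)

/-- the automaton of a strictly preperiodic kneading datum -/
noncomputable def gA : GA S where
  isg := A.isg
  prev := A.prev
  inv := id
  isg_inv _ := rfl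
  prev_inv y a := by
    by_cases h : a = A.sg
    · subst h; simp [A.prev_sg]
    · simp [A.isg_ne h]
  inv_inv _ := rfl

theorem act_eq (w : List Bool) (s : S) : (gA A).act w s = A.act w s := by
  induction w generalizing s with
  | nil => rfl
  | cons x w ih =>
    simp only [GA.act, KA.act, ih]
    rfl

theorem ev_eq (W : List S) : (gA A).ev W = A.ev W := by
  induction W with
  | nil => rfl
  | cons s W ih =>
    rw [GA.ev_cons, KA.ev_cons, ih]
    congr 1
    exact Equiv.ext fun w => act_eq A w s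

/-- the kneading sequence -/
def nu (j : ℕ) : Bool := A.cl (A.nx^[j] A.sg)

/-- periodic states -/
def Per (s : S) : Prop := ∃ n, 0 < n ∧ A.nx^[n] s = s

theorem Per.nx {A : KA S} {s : S} (h : Per A s) : Per A (A.nx s) := by
  obtain ⟨n, h1, h2⟩ := h
  exact ⟨n, h1, by rw [← Function.iterate_succ_apply, Function.iterate_succ_apply', h2]⟩

theorem Per.inj {A : KA S} {s t : S} (h : Per A s) (h' : Per A t) (e : A.nx s = A.nx t) :
    s = t := by
  obtain ⟨n, h1, h2⟩ := h
  obtain ⟨m, h3, h4⟩ := h'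
  obtain ⟨k, hk⟩ : ∃ k, n * m = k + 1 := ⟨n * m - 1, by have := Nat.mul_pos h1 h3; omega⟩
  have a : A.nx^[n * m] s = s := Function.IsPeriodicPt.mul_const h2 m
  have b : A.nx^[n * m] t = t := Function.IsPeriodicPt.const_mul h4 n
  rw [← a, ← b, hk, Function.iterate_succ_apply, Function.iterate_succ_apply, e]

open Classical in
/-- weight one on the periodic states -/
noncomputable def om (s : S) : ℕ := if Per A s then 1 else 0

theorem om_le (s : S) : om A s ≤ 1 := by unfold om; split_ifs <;> omega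

theorem om_hom (s : S) :
    (A.prev false s).elim 0 (om A) + (A.prev true s).elim 0 (om A) ≤ om A s := by
  have k : ∀ y t, A.prev y s = some t → om A t ≤ om A s := fun y t h => by
    unfold om
    rw [← (A.prev_eq_some.1 h).1]
    split_ifs with a b
    · rfl
    · exact absurd a.nx b
    · omega
    · rfl
  cases e : A.prev false s with
  | none =>
    cases e' : A.prev true s with
    | none => simp
    | some t => simpa using k _ _ e'
  | some t =>
    cases e' : A.prev true s with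
    | none => simpa using k _ _ e
    | some t' =>
      have a := k _ _ e
      have b := k _ _ e'
      obtain ⟨a1, a2⟩ := A.prev_eq_some.1 e
      obtain ⟨b1, b2⟩ := A.prev_eq_some.1 e'
      simp only [Option.elim_some]
      by_cases h : Per A t
      · have : ¬ Per A t' := fun h' => by
          rw [h.inj h' (a1.trans b1.symm), b2] at a2
          cases a2
        have : om A t' = 0 := if_neg this
        omega
      · have : om A t = 0 := if_neg h
        omega

/-- the number of periodic letters -/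
noncomputable def ws (W : List S) : ℕ := (W.map (om A)).sum

theorem ws_append (U V : List S) : ws A (U ++ V) = ws A U + ws A V := by simp [ws]

theorem ws_cons (s : S) (W : List S) : ws A (s :: W) = om A s + ws A W := by simp [ws]

theorem ws_le (W : List S) : ws A W ≤ W.length := by
  induction W with
  | nil => exact le_rfl
  | cons s W ih => have := om_le A s; rw [ws_cons, List.length_cons]; omega

theorem ws_sec (W : List S) (y : Bool) : ws A (A.sec W y) + ws A (A.sec W (!y)) ≤ ws A W := by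
  induction W generalizing y with
  | nil => exact le_rfl
  | cons s W ih =>
    have h1 := ih (xor y (A.isg s))
    have h2 := om_hom A s
    have e : ∀ o : Option S, ws A o.toList = o.elim 0 (om A) := fun o => by cases o <;> simp [ws]
    rw [KA.sec_cons, KA.sec_cons, ws_append, ws_append, e, e, ws_cons, Bool.not_xor]
    cases y <;> simp only [Bool.not_false, Bool.not_true] <;> omega

/-- words over `B` grow subexponentially in the number of periodic letters -/
def Sub (B : Set S) : Prop := ∀ ε : ℝ, 0 < ε →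
  Sm (fun W : {W : List S // ∀ a ∈ W, a ∈ B} => A.ev W.1) fun W => ε * ws A W.1

def SubL : Prop := ∀ ε : ℝ, 0 < ε → Sm A.ev fun W => ε * W.length

def SubW : Prop := ∀ δ : ℝ, 0 < δ →
  ∃ K : ℝ, ∀ n : ℕ, ((A.wball n).ncard : ℝ) ≤ K * Real.exp (δ * n)

/-- a cyclic factor -/
structure Fac (p : ℕ) (κ : S → ZMod p) (u : ZMod p → Bool) : Prop where
  sg : κ A.sg = 0
  nx : ∀ s, κ (A.nx s) = κ s + 1
  cl : ∀ s, κ s ≠ -1 → A.cl s = u (κ s)

/-- the first return to the cluster of the active state -/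
structure IsRen (p : ℕ) (κ : S → ZMod p) (A' : KA {s // κ s = 0}) : Prop where
  sg : A'.sg.1 = A.sg
  nx : ∀ s, (A'.nx s).1 = A.nx^[p] s.1
  cl : ∀ s, A'.cl s = A.cl (A.nx^[p - 1] s.1)

def Cst (p : ℕ) : Prop := ∀ i j, ¬ p ∣ i + 1 → ¬ p ∣ j + 1 → nu A i = nu A j

def Bad : Prop := ∃ p g, 0 < g ∧ g < p ∧ g ∣ p ∧
  ∀ i j, ¬ p ∣ i + 1 → ¬ p ∣ j + 1 → i ≡ j [MOD g] → nu A i = nu A j

def E : Prop := ∃ g, 1 ≤ g ∧
  (∀ i j, ¬ 2 * g ∣ i + 1 → ¬ 2 * g ∣ j + 1 → i ≡ j [MOD g] → nu A i = nu A j) ∧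
  ∀ i j, A.nx^[i] A.sg = A.nx^[j] A.sg → i ≡ j [MOD 2 * g]

/-- three states, the last one fixed -/
def T3 : Prop := A.nx (A.nx (A.nx A.sg)) = A.nx (A.nx A.sg) ∧ A.nx A.sg ≠ A.nx (A.nx A.sg) ∧
  A.cl (A.nx (A.nx A.sg)) = A.cl A.sg

/-- unimodal order -/
structure UM (pt : S → ℝ) : Prop where
  inj : Function.Injective pt
  le : ∀ s, pt A.sg ≤ pt s
  lt : ∀ s t, A.cl s = A.cl A.sg → A.cl t ≠ A.cl A.sg → pt s < pt t
  dn : ∀ s t, A.cl t = A.cl A.sg → pt s < pt t → pt (A.nx t) < pt (A.nx s)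
  up : ∀ s t, A.cl s ≠ A.cl A.sg → pt s < pt t → pt (A.nx s) < pt (A.nx t)

end

section

variable {p : ℕ} (u : ZMod p → Bool)

/-- Pull-back of a cut into one class, normalised so that `0` is outside. -/
def step (F : ZMod p → Bool) (x : Bool) : ZMod p → Bool := fun a =>
  xor (F (a + 1) && (u a == x)) (F 1 && (u 0 == x))

/-- the basic cut -/
def cut : ZMod p → Bool := fun a => decide (a ≠ 0)

theorem walk_zero (xs : List Bool) {F : ZMod p → Bool} (hF : F 0 = false) :
    xs.foldl (step u) F 0 = false := by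
  induction xs generalizing F with
  | nil => exact hF
  | cons x xs ih => exact ih (by simp [step])

/-- every proper set with two points has a translate that misses `-1` and meets both classes -/
def Prim : Prop := ∀ X : Set (ZMod p), X.Nontrivial → X ≠ Set.univ →
  ∃ k, (∀ a ∈ X, a + k ≠ -1) ∧ ∃ a ∈ X, ∃ b ∈ X, u (a + k) ≠ u (b + k)

/-- from every nonconstant cut walks of all large lengths separate `r` from `B` -/
def Good (r : ZMod p) (B : Set (ZMod p)) : Prop := ∃ N0, ∀ N, N0 ≤ N → ∀ F : ZMod p → Bool,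
  F 0 = false → (∃ a, F a = true) → ∃ xs : List Bool, xs.length = N ∧
    ∀ b ∈ B, xs.foldl (step u) F b ≠ xs.foldl (step u) F r

variable {u}

theorem Good.mono {r : ZMod p} {B B' : Set (ZMod p)} (h : Good u r B) (hB : B' ⊆ B) :
    Good u r B' := by
  obtain ⟨N0, h⟩ := h
  refine ⟨N0, fun N hN F h0 h1 => ?_⟩
  obtain ⟨xs, a, b⟩ := h N hN F h0 h1
  exact ⟨xs, a, fun c hc => b c (hB hc)⟩

theorem Good.pull {r : ZMod p} {B B' : Set (ZMod p)} (x : Bool) (h : Good u (r + 1) B')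
    (hr : u r = x ∨ r = -1) (hB : ∀ b ∈ B, (u b = x → b + 1 ∈ B') ∧ (u b ≠ x → 0 ∈ B')) :
    Good u r B := by
  obtain ⟨N0, h⟩ := h
  refine ⟨N0 + 1, fun N hN F h0 h1 => ?_⟩
  obtain ⟨xs, a1, a2⟩ := h (N - 1) (by omega) F h0 h1
  have z := walk_zero u xs h0
  refine ⟨xs ++ [x], by simp [a1]; omega, fun b hb => ?_⟩
  rw [List.foldl_append]
  generalize xs.foldl (step u) F = G at a2 z
  have e : (G (r + 1) && (u r == x)) = G (r + 1) := by
    rcases hr with h | h
    · simp [h]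
    · simp [h, z]
  simp only [List.foldl_cons, List.foldl_nil, step, ne_eq, Bool.xor_left_inj, e]
  by_cases hc : u b = x
  · simpa [hc] using a2 _ ((hB b hb).1 hc)
  · have := a2 _ ((hB b hb).2 hc)
    rw [z] at this
    have e' : (u b == x) = false := by simpa using hc
    simpa [e'] using this

end

/-! ### Cyclic combinatorics -/

def SPrim : Prop := ∀ (p : ℕ) [NeZero p] (u : ZMod p → Bool),
  (∀ g : ℕ, 2 ≤ g → g < p → g ∣ p →
    ∃ j : ℕ, ¬ g ∣ j + 1 ∧ u ((j + g : ℕ) : ZMod p) ≠ u (j : ZMod p)) →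
  (∃ a b, a ≠ -1 ∧ b ≠ -1 ∧ u a ≠ u b) → Prim u

def SPair : Prop := ∀ (p : ℕ) [NeZero p] (u : ZMod p → Bool), Prim u →
  ∀ r t, r ≠ t → Good u r {t}

def SExt : Prop := ∀ (p : ℕ) [NeZero p] (u : ZMod p → Bool), Prim u →
  ∀ U : Set (ZMod p), U.Nonempty → ∀ t ∉ U, ∃ r ∈ U, Good u r {b | b = t ∨ (b ∈ U ∧ b ≠ r)}

def SMix : Prop := ∀ (p : ℕ) [NeZero p] (u : ZMod p → Bool), Prim u → 2 ≤ p →
  ∃ N0, ∀ N, N0 ≤ N → ∀ F : ZMod p → Bool, F 0 = false → (∃ a, F a = true) →
    ∃ xs : List Bool, xs.length = N ∧ xs.foldl (step u) F = cut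

def SDie : Prop := ∀ (p : ℕ) [NeZero p] (u : ZMod p → Bool), Prim u → 3 ≤ p →
  ∃ (k : ℕ) (xs : List Bool), 1 ≤ k ∧ k < p ∧ xs.length = k ∧
    ∃ a, (xs ++ [!u (-((k + 1 : ℕ) : ZMod p))]).foldl (step u) cut a = true

/-! ### The tower -/

def SKap : Prop := ∀ (S : Type) (A : KA S), A.Star → ∃ (p : ℕ) (_ : NeZero p), 2 ≤ p ∧
  (Cst A p ∨ (3 ≤ p ∧ ∃ κ u, Fac A p κ u ∧ Prim u))

def SRen1 : Prop := ∀ (S : Type) (A : KA S) (p : ℕ) [NeZero p] (κ : S → ZMod p)
  (u : ZMod p → Bool), Fac A p κ u → ∃ A' : KA {s // κ s = 0}, IsRen A p κ A'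

def SRen2 : Prop := ∀ (S : Type) (A : KA S) (p : ℕ) [NeZero p] (κ : S → ZMod p)
  (u : ZMod p → Bool) (A' : KA {s // κ s = 0}), Fac A p κ u → IsRen A p κ A' →
    (Bad A' → Bad A) ∧ (E A' → E A)

def SRen3 : Prop := ∀ (S : Type) (A : KA S) (p : ℕ) [NeZero p] (κ : S → ZMod p)
  (u : ZMod p → Bool) (A' : KA {s // κ s = 0}), Fac A p κ u → IsRen A p κ A' →
    Sub A' Set.univ → Sub A {s | κ s = 0}

def SRen4 : Prop := ∀ (S : Type) (A : KA S) (p : ℕ) [NeZero p] (κ : S → ZMod p)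
  (u : ZMod p → Bool) (A' : KA {s // κ s = 0}) (pt : S → ℝ), Fac A p κ u → IsRen A p κ A' →
    UM A pt → UM A' fun s => pt s.1

def SProp : Prop := ∀ (S : Type) (A : KA S) (p : ℕ) [NeZero p] (κ : S → ZMod p)
  (u : ZMod p → Bool), Fac A p κ u → Prim u → Sub A {s | κ s = 0} →
    ∀ X : Set (ZMod p), X ≠ Set.univ → Sub A (κ ⁻¹' X)

def SCut : Prop := ∀ (S : Type) (A : KA S) (p : ℕ) [NeZero p] (κ : S → ZMod p)
  (u : ZMod p → Bool), Fac A p κ u → Prim u → 3 ≤ p →
    ∃ (I : Type) (_ : Fintype I) (C : (gA A).CS I),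
      C.om = om A ∧ (∀ s, C.F C.i1 s = cut (κ s)) ∧ C.Odd

def SRed : Prop := ∀ (S : Type) [Finite S] (A : KA S), ∃ z : ℕ, ∀ W : List S,
  ∃ W' : List S, A.ev W' = A.ev W ∧ W'.length ≤ z * (ws A W + 1)

def SHX : Prop := ∀ (S I : Type) [Finite S] [Fintype I] (A : KA S) (C : (gA A).CS I)
  (F : S → Bool), C.om = om A → (∀ s, C.F C.i1 s = F s) → (∀ b, Sub A {s | F s = b}) →
    C.HX ∧ C.Prp

def SConv : Prop := ∀ (S : Type) [Finite S] (A : KA S),
  (SubW A → SubL A) ∧ (SubL A → Sub A Set.univ) ∧ (Sub A Set.univ → SubW A)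

def STwo : Prop := ∀ (S : Type) [Finite S] (A : KA S) (pt : S → ℝ) (p : ℕ), UM A pt → 2 ≤ p →
  Cst A p → E A ∨ T3 A

def SFac : Prop := ∀ (S : Type) (A : KA S), E A → ∃ (p : ℕ) (_ : NeZero p) (g : ZMod p)
  (κ : S → ZMod p) (u : ZMod p → Bool), g ≠ 0 ∧ Fac A p κ u ∧ ∀ i, u (i + g) = u i

def SDbl : Prop :=
  (∀ (c : ℝ) (S : Type) (A : KA S) (pt : S → ℝ), Function.Injective pt →
    (∀ i, pt (A.nx^[i] A.sg) = (fun x : ℝ => x ^ 2 + c)^[i + 1] 0) → (∀ s, pt s ≠ 0) →
    (∀ s t, A.cl s = A.cl t ↔ 0 < pt s * pt t) → (E A ↔ Doubled c)) ∧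
  ∀ (c : ℝ) (n : ℕ), 1 ≤ n → (fun x : ℝ => x ^ 2 + c)^[n] 0 = 0 → (Doubling c ↔ Doubled c)

end Pool.Agent.MP_61ef33_al.Mis
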