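import Pool.Agent.MP_61ef33_al.Mis.St
import Pool.Agent.MP_61ef33_al.R.St

/- Statements on the dynamical side. -/

set_option autoImplicit false

namespace Pool.Agent.MP_61ef33_al.Mis

open Polynomial Set

def SRenOf : Prop := ∀ (c : ℂ) (p : ℕ) (K W0 : Set ℂ), 2 ≤ p → IsCompact K → IsPreconnected K →
  (0 : ℂ) ∈ K → (∀ z ∈ K, -z ∈ K) → IsPreconnected Kᶜ → MapsTo (qf c)^[p] K K →
  K ⊆ (qf c)^[p] '' K →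
  (∀ i, 0 < i → i < p → ∀ z ∈ K, ∀ z' ∈ K, (qf c)^[i] z ≠ -(qf c)^[i] z') → IsOpen W0 → K ⊆ W0 →
  (∀ z, (∀ n, ((qf c)^[p])^[n] z ∈ W0) → z ∈ K) →
  ∀ y j, 0 < j → j < p → y ∈ K → (qf c)^[j] y ∈ K → Meeting c

def SMeet : Prop := ∀ (B : BD), B.Mis → ∀ R0 : ℝ, (∀ z, R0 < ‖z‖ → z ∈ B.U) → ∀ θ : ℝ,
  B.Lands θ B.c → ∀ p g : ℕ, 0 < g → g < p → g ∣ p →
  (∀ i j, ¬ p ∣ i + 1 → ¬ p ∣ j + 1 → i ≡ j [MOD g] → kneading θ i = kneading θ j) →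
  (¬ ∀ j, kneading θ (j + p) = kneading θ j) → Meeting B.c

def SReal : Prop := ∀ c : ℝ, (postcrit (X ^ 2 + C (c : ℂ))).Finite →
  (0 : ℂ) ∉ postcrit (X ^ 2 + C (c : ℂ)) → c ≠ -2 →
  ∃ (S : Type) (_ : Fintype S) (A : KA S) (pt : S → ℝ), 3 ≤ Fintype.card S ∧ UM A pt ∧
    (∀ i, pt (A.nx^[i] A.sg) = (fun x : ℝ => x ^ 2 + c)^[i + 1] 0) ∧ (∀ s, pt s ≠ 0) ∧
    (∀ s t, A.cl s = A.cl t ↔ 0 < pt s * pt t) ∧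
    ∀ t ∉ postcrit (X ^ 2 + C (c : ℂ)), Nonempty (IMG (X ^ 2 + C (c : ℂ)) t ≃* A.G)

end Pool.Agent.MP_61ef33_al.Mis
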