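import Pool.Agent.MP_61ef33_al.Mis.St
import Pool.Agent.MP_61ef33_al.Defs7

/- Renormalization towers of periodic kneading automata, without an order. -/

set_option autoImplicit false

namespace Pool.Agent.MP_61ef33_al.Mis

open Air Ctr

section

variable {S : Type} (A : KP S)

/-- a cyclic factor -/
structure FacP (p : ℕ) (κ : S → ZMod p) (u : ZMod p → Bool) : Prop where
  sg : κ A.sg = 0
  nx : ∀ s, κ (A.nx s) = κ s + 1
  cl : ∀ s, κ s ≠ -1 → A.cl s = u (κ s)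

/-- the kneading sequence -/
def nuP (j : ℕ) : Bool := A.cl (A.nx^[j] A.sg)

def BadP : Prop := ∃ p g, 0 < g ∧ g < p ∧ g ∣ p ∧
  (∀ i j, A.nx^[i] A.sg = A.nx^[j] A.sg → i ≡ j [MOD p]) ∧
  ∀ i j, ¬ p ∣ i + 1 → ¬ p ∣ j + 1 → i ≡ j [MOD g] → nuP A i = nuP A j

end

def SKapP : Prop := ∀ (S : Type) [Finite S] (A : KP S), Nontrivial S → BadP A ∨
  ∃ (p : ℕ) (_ : NeZero p) (κ : S → ZMod p) (u : ZMod p → Bool), 3 ≤ p ∧ FacP A p κ u ∧ Prim u

def SRenP : Prop := ∀ (S : Type) [Finite S] (A : KP S) (p : ℕ) [NeZero p] (κ : S → ZMod p)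
  (u : ZMod p → Bool), FacP A p κ u → A.Cong (fun s t => κ s = κ t) ∧
    A.IsPer (fun s t => κ s = κ t) p ∧
    ∃ A' : KP {s // κ s = κ A.sg}, A.IsRen (fun s t => κ s = κ t) p A'

def SBadP : Prop := ∀ (S : Type) (A : KP S) (p : ℕ) [NeZero p] (κ : S → ZMod p)
  (u : ZMod p → Bool) (A' : KP {s // κ s = κ A.sg}), FacP A p κ u →
    A.IsRen (fun s t => κ s = κ t) p A' → BadP A' → BadP A

def SPropP : Prop := ∀ (S : Type) (A : KP S) (p : ℕ) [NeZero p] (κ : S → ZMod p)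
  (u : ZMod p → Bool), FacP A p κ u → Prim u → A.Sub {s | κ s = κ A.sg} →
    ∀ X : Set (ZMod p), X ≠ Set.univ → A.Sub (κ ⁻¹' X)

def SCutP : Prop := ∀ (S : Type) (A : KP S) (p : ℕ) [NeZero p] (κ : S → ZMod p)
  (u : ZMod p → Bool), FacP A p κ u → Prim u → 3 ≤ p →
    ∃ (I : Type) (_ : Fintype I) (C : A.ga.CS I),
      (∀ a, C.om a = 1) ∧ (∀ a, C.F C.i1 a = cut (κ a.1)) ∧ C.Odd

def SFacP : Prop := ∀ (S : Type) (A : KP S), BadP A → ∃ (p : ℕ) (_ : NeZero p) (g : ZMod p)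
  (κ : S → ZMod p) (u : ZMod p → Bool), g ≠ 0 ∧ FacP A p κ u ∧ ∀ i, u (i + g) = u i

def SModel : Prop := ∀ v : List Bool, ∃ A : KP (ZMod (v.length + 1)),
  A.ga.G = KGroup v ∧ (BadP A ↔ Satellite v)

end Pool.Agent.MP_61ef33_al.Mis
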